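import Mathlib.Analysis.InnerProductSpace.Completion
import Pool.Agent.MP_ad85d3_an.St

/-!
# Elementary equivalence and tensor products of ultrapowers: definitions used by the statement
-/

open Filter Topology

namespace Pool.Agent.MP_ad85d3_an.St

universe u v

variable {H K H₁ H₂ K₁ K₂ : Type u}
  [NormedAddCommGroup H] [InnerProductSpace ℂ H] [CompleteSpace H]
  [NormedAddCommGroup K] [InnerProductSpace ℂ K] [CompleteSpace K]
  [NormedAddCommGroup H₁] [InnerProductSpace ℂ H₁] [CompleteSpace H₁]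
  [NormedAddCommGroup H₂] [InnerProductSpace ℂ H₂] [CompleteSpace H₂]
  [NormedAddCommGroup K₁] [InnerProductSpace ℂ K₁] [CompleteSpace K₁]
  [NormedAddCommGroup K₂] [InnerProductSpace ℂ K₂] [CompleteSpace K₂] {I J : Type v}

/-- `x` is a norm-bounded family in `N` indexed by `I`. -/
structure Bdd (N : TwoOne H) (x : I → H →L[ℂ] H) : Prop where
  mem : ∀ i, x i ∈ N.M
  bdd : ∃ C : ℝ, ∀ i, ‖x i‖ ≤ C

/-- `lim_U τ ((x_i - y_i)^* (x_i - y_i)) = 0`. -/
def Same (N : TwoOne H) (U : Ultrafilter I) (x y : I → H →L[ℂ] H) : Prop :=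
  Tendsto (fun i => N.τ (star (x i - y i) * (x i - y i))) U (𝓝 0)

/-- The tracial ultrapower `N^U` for an ultrafilter `U` on any index set: the bounded families in
`N` modulo `Same`. -/
def Ultra (N : TwoOne H) (U : Ultrafilter I) : Type (max u v) :=
  Quot fun x y : {x : I → H →L[ℂ] H // Bdd N x} => Same N U x.1 y.1

/-- `x` and `y` are bounded families and `φ` sends the class of `x` to the class of `y`. -/
def Maps {N : TwoOne H} {M : TwoOne K} {U : Ultrafilter I} {V : Ultrafilter J}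
    (φ : Ultra N U ≃ Ultra M V) (x : I → H →L[ℂ] H) (y : J → K →L[ℂ] K) : Prop :=
  ∃ (hx : Bdd N x) (hy : Bdd M y), φ (Quot.mk _ ⟨x, hx⟩) = Quot.mk _ ⟨y, hy⟩

/-- The bijection `φ : N^U → M^V` is a `⋆`-isomorphism: it preserves the operations, which are
computed on representatives. -/
structure IsUltraIso {N : TwoOne H} {M : TwoOne K} {U : Ultrafilter I} {V : Ultrafilter J}
    (φ : Ultra N U ≃ Ultra M V) : Prop where
  add : ∀ x y x' y', Maps φ x y → Maps φ x' y' → Maps φ (x + x') (y + y')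
  smul : ∀ (c : ℂ) x y, Maps φ x y → Maps φ (c • x) (c • y)
  mul : ∀ x y x' y', Maps φ x y → Maps φ x' y' → Maps φ (x * x') (y * y')
  star : ∀ x y, Maps φ x y → Maps φ (star x) (star y)

/-- Elementary equivalence: `N^U ≅ M^V` for some ultrafilters `U`, `V`. -/
def ElEq (N : TwoOne H) (M : TwoOne K) : Prop :=
  ∃ (I J : Type v) (U : Ultrafilter I) (V : Ultrafilter J) (φ : Ultra N U ≃ Ultra M V),
    IsUltraIso φ

/-- For realisations of four ultrapowers on their `L²`-spaces, the von Neumann tensor product of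
the first two is `⋆`-isomorphic to that of the last two. -/
structure RepIso {L₁ L₂ L₃ L₄ : Type u}
    [NormedAddCommGroup L₁] [InnerProductSpace ℂ L₁] [CompleteSpace L₁]
    [NormedAddCommGroup L₂] [InnerProductSpace ℂ L₂] [CompleteSpace L₂]
    [NormedAddCommGroup L₃] [InnerProductSpace ℂ L₃] [CompleteSpace L₃]
    [NormedAddCommGroup L₄] [InnerProductSpace ℂ L₄] [CompleteSpace L₄] {U : Ultrafilter ℕ}
    {N₁ : TwoOne H₁} {N₂ : TwoOne H₂} {M₁ : TwoOne K₁} {M₂ : TwoOne K₂} (n₁ : UltraRep L₁ U N₁)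
    (n₂ : UltraRep L₂ U N₂) (m₁ : UltraRep L₃ U M₁) (m₂ : UltraRep L₄ U M₂) : Prop where
  iso : StarIso {T | MemTensor (n₁.alg 1) (n₂.alg 1) T} {T | MemTensor (m₁.alg 1) (m₂.alg 1) T}

/-- The von Neumann tensor products `N₁^U ⊗ N₂^U` and `M₁^U ⊗ M₂^U` are `⋆`-isomorphic. -/
def TensorIso (U : Ultrafilter ℕ) (N₁ : TwoOne H₁) (N₂ : TwoOne H₂) (M₁ : TwoOne K₁)
    (M₂ : TwoOne K₂) : Prop :=
  ∃ (L₁ : Type u) (_ : NormedAddCommGroup L₁) (_ : InnerProductSpace ℂ L₁) (_ : CompleteSpace L₁)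
    (L₂ : Type u) (_ : NormedAddCommGroup L₂) (_ : InnerProductSpace ℂ L₂) (_ : CompleteSpace L₂)
    (L₃ : Type u) (_ : NormedAddCommGroup L₃) (_ : InnerProductSpace ℂ L₃) (_ : CompleteSpace L₃)
    (L₄ : Type u) (_ : NormedAddCommGroup L₄) (_ : InnerProductSpace ℂ L₄) (_ : CompleteSpace L₄)
    (n₁ : UltraRep L₁ U N₁) (n₂ : UltraRep L₂ U N₂) (m₁ : UltraRep L₃ U M₁)
    (m₂ : UltraRep L₄ U M₂), RepIso n₁ n₂ m₁ m₂

end Pool.Agent.MP_ad85d3_an.St
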