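import Mathlib.Topology.Sheaves.Presheaf
import Mathlib.Algebra.Field.ZMod
import Mathlib.Tactic.Polynomial.Basic
import Pool.Agent.MP_ad85d3_an.Spec
import Pool.Agent.MP_ad85d3_an.ffg.St2

-- ======== part 0: formerly Pool.Agent.MP_ad85d3_an.ffg.Defs
section MrgPart0

/-!
# PROJECT FFG: definitions and basic facts (do not edit; ask helper5)
-/

open Filter Topology Matrix
open scoped ComplexOrder InnerProductSpace ComplexConjugate Kronecker

noncomputable section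

namespace Pool.Agent.MP_ad85d3_an.Ffg

set_option linter.unusedSectionVars false

/-! ## terms and the sentence -/

/-- `⋆`-polynomials in three blocks of nine variables -/
inductive Tm : Type
  | va : Fin 9 → Tm
  | vx : Fin 9 → Tm
  | vz : Fin 9 → Tm
  | one : Tm
  | add : Tm → Tm → Tm
  | sub : Tm → Tm → Tm
  | mul : Tm → Tm → Tm
  | star : Tm → Tm

instance : One Tm := ⟨.one⟩
instance : Add Tm := ⟨.add⟩
instance : Sub Tm := ⟨.sub⟩
instance : Mul Tm := ⟨.mul⟩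
instance : Star Tm := ⟨.star⟩

section form

variable {A B : Type*} [One A] [Add A] [Sub A] [Mul A] [Star A]
  [One B] [Add B] [Sub B] [Mul B] [Star B]

/-- the value of a term -/
def Tm.eval (a x z : Fin 9 → A) : Tm → A
  | .va i => a i
  | .vx i => x i
  | .vz i => z i
  | .one => 1
  | .add s t => s.eval a x z + t.eval a x z
  | .sub s t => s.eval a x z - t.eval a x z
  | .mul s t => s.eval a x z * t.eval a x z
  | .star t => Star.star (t.eval a x z)

/-- `inf_a sup_x inf_z F ≤ ε`, with witnesses, all variables ranging over `L` -/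
def Hold (F : (Tm → ℝ) → ℝ) (ν : A → ℝ) (L : Set A) (ε : ℝ) : Prop :=
  ∃ a : Fin 9 → A, (∀ i, a i ∈ L) ∧ ∀ x : Fin 9 → A, (∀ i, x i ∈ L) →
    ∃ z : Fin 9 → A, (∀ i, z i ∈ L) ∧ F (fun t => ν (t.eval a x z)) ≤ ε

/-- a map that preserves the operations -/
structure OpMap (h : A → B) : Prop where
  one : h 1 = 1
  add : ∀ x y, h (x + y) = h x + h y
  sub : ∀ x y, h (x - y) = h x - h y
  mul : ∀ x y, h (x * y) = h x * h y
  star : ∀ x, h (star x) = star (h x)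

theorem OpMap.eval {h : A → B} (hh : OpMap h) (a x z : Fin 9 → A) (t : Tm) :
    h (t.eval a x z) = t.eval (fun i => h (a i)) (fun i => h (x i)) fun i => h (z i) := by
  induction t with
  | va i => rfl
  | vx i => rfl
  | vz i => rfl
  | one => exact hh.one
  | add s t hs ht => rw [Tm.eval, hh.add, hs, ht, Tm.eval]
  | sub s t hs ht => rw [Tm.eval, hh.sub, hs, ht, Tm.eval]
  | mul s t hs ht => rw [Tm.eval, hh.mul, hs, ht, Tm.eval]
  | star t ht => rw [Tm.eval, hh.star, ht, Tm.eval]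

theorem Hold.mono {F : (Tm → ℝ) → ℝ} {ν : A → ℝ} {L : Set A} {ε ε' : ℝ} (h : Hold F ν L ε)
    (e : ε ≤ ε') : Hold F ν L ε' := by
  obtain ⟨a, ha, h⟩ := h
  exact ⟨a, ha, fun x hx => (h x hx).imp fun z hz => ⟨hz.1, hz.2.trans e⟩⟩

theorem hold_map {h : A → B} (hh : OpMap h) {F : (Tm → ℝ) → ℝ} {ν : B → ℝ} {L : Set A} {ε : ℝ} :
    Hold F ν (h '' L) ε ↔ Hold F (fun x => ν (h x)) L ε := by
  constructor
  · rintro ⟨a, ha, k⟩
    choose a' ha' e using ha
    refine ⟨a', ha', fun x hx => ?_⟩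
    obtain ⟨z, hz, k⟩ := k (fun i => h (x i)) fun i => ⟨_, hx i, rfl⟩
    choose z' hz' e' using hz
    refine ⟨z', hz', ?_⟩
    simpa only [hh.eval, e, e'] using k
  · rintro ⟨a, ha, k⟩
    refine ⟨fun i => h (a i), fun i => ⟨_, ha i, rfl⟩, fun x hx => ?_⟩
    choose x' hx' e using hx
    obtain ⟨z, hz, k⟩ := k x' hx'
    refine ⟨fun i => h (z i), fun i => ⟨_, hz i, rfl⟩, ?_⟩
    simpa only [hh.eval, e] using k

/-- commutator -/
def com (x y : A) : A := x * y - y * x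

/-- conjugation -/
def cj (w u : A) : A := w * u * star w

/-- the defect of `u` from the set of translations; `c 0, …, c 6` generate the second tensor
factor, `c 6 = 1 ⊗ H`, `c 7 = W`, `c 8` is the flip -/
def psi1 (ν : A → ℝ) (c : Fin 9 → A) (u : A) : ℝ :=
  ν (com (c 0) u) + ν (com (c 1) u) + ν (com (c 2) u) + ν (com (c 3) u) + ν (com (c 4) u) +
    ν (com (c 5) u) + ν (com (c 6) u) + ν (cj (c 7) u - u * cj (c 8) u) + ν (star u * u - 1)

/-- the total defect of four translations -/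
def psi (ν : A → ℝ) (c : Fin 9 → A) (u : Fin 4 → A) : ℝ :=
  psi1 ν c (u 0) + psi1 ν c (u 1) + psi1 ν c (u 2) + psi1 ν c (u 3)

/-- the Pauli operator made of four translations -/
def ev (c : Fin 9 → A) (u : Fin 4 → A) : A :=
  u 0 * cj (c 8 * c 6 * c 8) (u 1) * cj (c 8) (u 2) * cj (c 6 * c 8) (u 3)

/-- the eight clauses -/
structure Cl (ν : A → ℝ) (C : ℝ) (c : Fin 9 → A) (u v : Fin 4 → A) (y : A) (w t : Fin 4 → A)
    (ε : ℝ) : Prop where
  pw : psi ν c w ≤ ε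
  pt : psi ν c t ≤ ε
  mul : min (ν (ev c u * ev c v - ev c w)) (ν (ev c u * ev c v + ev c w)) ≤
    C * (psi ν c u + psi ν c v) + ε
  sub : min (ν (ev c u - ev c v)) (1 - ν (ev c u - ev c v)) ≤ C * (psi ν c u + psi ν c v) + ε
  add : min (ν (ev c u + ev c v)) (1 - ν (ev c u + ev c v)) ≤ C * (psi ν c u + psi ν c v) + ε
  uni : ν (star (ev c u) * ev c u - 1) ≤ C * (psi ν c u + psi ν c v) + ε
  sq : min (ν (ev c u * ev c u - 1)) (ν (ev c u * ev c u + 1)) ≤ C * (psi ν c u + psi ν c v) + ε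
  irr : min (ν y) (ν (1 - y)) ≤ C * (ν (com (ev c t) y) + ν (y - star y * y)) + ε

/-- the clauses as one real number -/
def phi (ν : A → ℝ) (C : ℝ) (c : Fin 9 → A) (u v : Fin 4 → A) (y : A) (w t : Fin 4 → A) : ℝ :=
  max (max (max (psi ν c w) (psi ν c t))
    (max (min (ν (ev c u * ev c v - ev c w)) (ν (ev c u * ev c v + ev c w)) -
      C * (psi ν c u + psi ν c v))
      (min (ν (ev c u - ev c v)) (1 - ν (ev c u - ev c v)) - C * (psi ν c u + psi ν c v))))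
    (max (max (min (ν (ev c u + ev c v)) (1 - ν (ev c u + ev c v)) - C * (psi ν c u + psi ν c v))
      (ν (star (ev c u) * ev c u - 1) - C * (psi ν c u + psi ν c v)))
    (max (min (ν (ev c u * ev c u - 1)) (ν (ev c u * ev c u + 1)) - C * (psi ν c u + psi ν c v))
      (min (ν y) (ν (1 - y)) - C * (ν (com (ev c t) y) + ν (y - star y * y)))))

theorem phi_le {ν : A → ℝ} {C ε : ℝ} {c : Fin 9 → A} {u v w t : Fin 4 → A} {y : A} :
    phi ν C c u v y w t ≤ ε ↔ Cl ν C c u v y w t ε := by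
  simp only [phi, max_le_iff, sub_le_iff_le_add']
  exact ⟨fun ⟨⟨⟨a, b⟩, c, d⟩, ⟨e, f⟩, g, h⟩ => ⟨a, b, c, d, e, f, g, h⟩,
    fun ⟨a, b, c, d, e, f, g, h⟩ => ⟨⟨⟨a, b⟩, c, d⟩, ⟨e, f⟩, g, h⟩⟩

/-- the first four variables -/
def lo {A : Type*} (x : Fin 9 → A) : Fin 4 → A := fun i => x ⟨i, by omega⟩

/-- the next four variables -/
def hi {A : Type*} (x : Fin 9 → A) : Fin 4 → A := fun i => x ⟨i + 4, by omega⟩

/-- the formula -/
def Frm (C : ℝ) (r : Tm → ℝ) : ℝ :=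
  phi r C Tm.va (lo Tm.vx) (hi Tm.vx) (Tm.vx 8) (lo Tm.vz) (hi Tm.vz)

theorem Frm_eval (C : ℝ) (ν : A → ℝ) (a x z : Fin 9 → A) :
    Frm C (fun t => ν (t.eval a x z)) = phi ν C a (lo x) (hi x) (x 8) (lo z) (hi z) := rfl

theorem Frm_uc (C : ℝ) : UniformContinuous (Frm C) := by
  have p : ∀ t : Tm, UniformContinuous fun r : Tm → ℝ => r t := Pi.uniformContinuous_proj _
  have m : ∀ f : (Tm → ℝ) → ℝ, UniformContinuous f → UniformContinuous fun r => C * f r :=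
    fun f hf => (uniformContinuous_const_smul C).comp hf
  have q1 : ∀ c u, UniformContinuous fun r : Tm → ℝ => psi1 r c u := fun c u =>
    ((((((((p _).add (p _)).add (p _)).add (p _)).add (p _)).add (p _)).add (p _)).add
      (p _)).add (p _)
  have q : ∀ c u, UniformContinuous fun r : Tm → ℝ => psi r c u := fun c u =>
    (((q1 _ _).add (q1 _ _)).add (q1 _ _)).add (q1 _ _)
  have s := fun c u v => m _ ((q c u).add (q c v))
  have mx : ∀ {f g : (Tm → ℝ) → ℝ}, UniformContinuous f → UniformContinuous g →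
      UniformContinuous fun r => max (f r) (g r) := fun hf hg =>
    lipschitzWith_max.uniformContinuous.comp (hf.prodMk hg)
  have mn : ∀ {f g : (Tm → ℝ) → ℝ}, UniformContinuous f → UniformContinuous g →
      UniformContinuous fun r => min (f r) (g r) := fun hf hg =>
    lipschitzWith_min.uniformContinuous.comp (hf.prodMk hg)
  exact mx (mx (mx (q _ _) (q _ _)) (mx ((mn (p _) (p _)).sub (s _ _ _))
    ((mn (p _) (uniformContinuous_const.sub (p _))).sub (s _ _ _))))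
    (mx (mx ((mn (p _) (uniformContinuous_const.sub (p _))).sub (s _ _ _)) ((p _).sub (s _ _ _)))
      (mx ((mn (p _) (p _)).sub (s _ _ _)) ((mn (p _) (p _)).sub (m _ ((p _).add (p _))))))

/-- nine variables from their parts -/
def jn {A : Type*} (u v : Fin 4 → A) (y : A) : Fin 9 → A :=
  ![u 0, u 1, u 2, u 3, v 0, v 1, v 2, v 3, y]

theorem lo_jn {A : Type*} (u v : Fin 4 → A) (y : A) : lo (jn u v y) = u := by
  ext i; fin_cases i <;> rfl

theorem hi_jn {A : Type*} (u v : Fin 4 → A) (y : A) : hi (jn u v y) = v := by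
  ext i; fin_cases i <;> rfl

theorem jn_mem {A : Type*} {L : Set A} {u v : Fin 4 → A} {y : A} (hu : ∀ i, u i ∈ L)
    (hv : ∀ i, v i ∈ L) (hy : y ∈ L) (i : Fin 9) : jn u v y i ∈ L := by
  fin_cases i
  exacts [hu 0, hu 1, hu 2, hu 3, hv 0, hv 1, hv 2, hv 3, hy]

/-- the meaning of the sentence -/
theorem hold_iff {C ε : ℝ} {ν : A → ℝ} {L : Set A} : Hold (Frm C) ν L ε ↔
    ∃ c : Fin 9 → A, (∀ i, c i ∈ L) ∧ ∀ (u v : Fin 4 → A) (y : A), (∀ i, u i ∈ L) →
      (∀ i, v i ∈ L) → y ∈ L → ∃ w t : Fin 4 → A, (∀ i, w i ∈ L) ∧ (∀ i, t i ∈ L) ∧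
        Cl ν C c u v y w t ε := by
  refine exists_congr fun c => and_congr_right fun _ => ⟨fun h u v y hu hv hy => ?_, fun h x hx => ?_⟩
  · obtain ⟨z, hz, k⟩ := h _ (jn_mem hu hv hy)
    rw [Frm_eval, lo_jn, hi_jn, phi_le] at k
    exact ⟨lo z, hi z, fun i => hz _, fun i => hz _, k⟩
  · obtain ⟨w, t, hw, ht, k⟩ := h (lo x) (hi x) (x 8) (fun i => hx _) (fun i => hx _) (hx _)
    refine ⟨jn w t (x 8), jn_mem hw ht (hx _), ?_⟩
    rwa [Frm_eval, lo_jn, hi_jn, phi_le]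

/-- uniform continuity in finitely many coordinates -/
theorem uc_fin {F : (Tm → ℝ) → ℝ} (hF : UniformContinuous F) {ε : ℝ} (hε : 0 < ε) :
    ∃ (T : Finset Tm) (δ : ℝ), 0 < δ ∧ ∀ r s : Tm → ℝ, (∀ t ∈ T, |r t - s t| ≤ δ) →
      |F r - F s| ≤ ε := by
  have h := hF (Metric.dist_mem_uniformity hε)
  rw [mem_map, Pi.uniformity, mem_iInf] at h
  obtain ⟨I, hI, V, hV, e⟩ := h
  have := hI.to_subtype
  have k : ∀ i : I, ∃ δ > 0, ∀ r s : Tm → ℝ, dist (r i) (s i) < δ → (r, s) ∈ V i := fun i => by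
    obtain ⟨W, hW, hs⟩ := mem_comap.1 (hV i)
    obtain ⟨δ, hδ, hd⟩ := Metric.mem_uniformity_dist.1 hW
    exact ⟨δ, hδ, fun r s h => hs (hd h)⟩
  choose d hd k using k
  obtain ⟨δ, hδ, hm⟩ : ∃ δ > 0, ∀ i, δ < d i := by
    obtain ⟨δ, h1, h2⟩ := ((eventually_all.2 fun i => gt_mem_nhds (hd i)).filter_mono
      (nhdsWithin_le_nhds (s := Set.Ioi (0 : ℝ)))).and self_mem_nhdsWithin |>.exists
    exact ⟨δ, h2, h1⟩
  refine ⟨hI.toFinset, δ, hδ, fun r s h => ?_⟩
  have : (r, s) ∈ ⋂ i, V i := Set.mem_iInter.2 fun i =>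
    k i r s ((h i (hI.mem_toFinset.2 i.2)).trans_lt (hm i))
  rw [← e] at this
  exact le_of_lt this

end form

/-- the `2`-norm of a functional -/
def nm {A : Type*} [Mul A] [Star A] (τ : A → ℂ) (x : A) : ℝ := √(τ (star x * x)).re

/-! ## matrix units -/

section units

variable {A : Type*} [Ring A] [StarRing A]

/-- `3 × 3` matrix units -/
structure MU (e : Fin 3 → Fin 3 → A) : Prop where
  mul : ∀ i j k l, e i j * e k l = if j = k then e i l else 0
  star : ∀ i j, star (e i j) = e j i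
  sum : ∑ i, e i i = 1

/-- `x` commutes with the matrix units -/
def Cm (e : Fin 3 → Fin 3 → A) (x : A) : Prop := ∀ i j, e i j * x = x * e i j

variable [Algebra ℂ A]

/-- the conditional expectation onto the commutant of the matrix units -/
def Ex (e : Fin 3 → Fin 3 → A) (y : A) : A := (1 / 3 : ℂ) • ∑ i, ∑ j, e i j * y * e j i

theorem MU.cm_Ex {e : Fin 3 → Fin 3 → A} (h : MU e) (y : A) : Cm e (Ex e y) := fun k l => by
  rw [Ex, mul_smul_comm, smul_mul_assoc, Finset.mul_sum, Finset.sum_mul]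
  congr 1
  have a : ∀ i, e k l * ∑ j, e i j * y * e j i = if l = i then ∑ j, e k j * y * e j l else 0 :=
    fun i => by
      rw [Finset.mul_sum]
      split_ifs with c
      · exact Finset.sum_congr rfl fun j _ => by rw [← mul_assoc, ← mul_assoc, h.mul, if_pos c, c]
      · exact Finset.sum_eq_zero fun j _ => by
          rw [← mul_assoc, ← mul_assoc, h.mul, if_neg c, zero_mul, zero_mul]
  have b : ∀ i, (∑ j, e i j * y * e j i) * e k l = if i = k then ∑ j, e k j * y * e j l else 0 :=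
    fun i => by
      rw [Finset.sum_mul]
      split_ifs with c
      · exact Finset.sum_congr rfl fun j _ => by rw [mul_assoc, h.mul, if_pos c, c]
      · exact Finset.sum_eq_zero fun j _ => by rw [mul_assoc, h.mul, if_neg c, mul_zero]
  simp only [a, b, Finset.sum_ite_eq, Finset.sum_ite_eq', Finset.mem_univ, if_true]

theorem MU.Ex_eq {e : Fin 3 → Fin 3 → A} (h : MU e) {y : A} (hy : Cm e y) : Ex e y = y := by
  have a : ∀ i j, e i j * y * e j i = y * e i i := fun i j => by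
    rw [hy, mul_assoc, h.mul, if_pos rfl]
  simp only [Ex, a, Finset.sum_const, Finset.card_univ, Fintype.card_fin, ← Finset.smul_sum,
    ← Finset.mul_sum, h.sum, mul_one]
  rw [← Nat.cast_smul_eq_nsmul ℂ, smul_smul]
  norm_num

theorem comm_Ex {e : Fin 3 → Fin 3 → A} {s y : A} (h : Cm e s) (hy : s * y = y * s) :
    s * Ex e y = Ex e y * s := by
  rw [Ex, mul_smul_comm, smul_mul_assoc]
  simp only [Finset.mul_sum, Finset.sum_mul]
  congr 1
  refine Finset.sum_congr rfl fun i _ => Finset.sum_congr rfl fun j _ => ?_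
  rw [← mul_assoc, ← mul_assoc, ← h, mul_assoc (e i j), hy, mul_assoc, mul_assoc, ← h, mul_assoc,
    mul_assoc]

/-- a positive trace with bounded left multiplications -/
structure PreTr (τ : A →ₗ[ℂ] ℂ) : Prop where
  one : τ 1 = 1
  pos : ∀ x, 0 ≤ τ (star x * x)
  star : ∀ x, τ (star x) = conj (τ x)
  comm : ∀ x y, τ (x * y) = τ (y * x)
  bdd : ∀ x, ∃ C : ℝ, ∀ y, nm τ (x * y) ≤ C * nm τ y

variable (A) in
/-- an abstract tracial system with three levels -/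
structure TS (F : (Tm → ℝ) → ℝ) (η : ℝ) where
  τ : A →ₗ[ℂ] ℂ
  tr : PreTr τ
  f : Fin 3 → Fin 3 → A
  g : Fin 3 → Fin 3 → A
  hf : MU f
  hg : MU g
  fg : ∀ i j, Cm f (g i j)
  L₀ : Set A
  L₃ : Set A
  c₀ : ∀ x ∈ L₀, (∀ y, nm τ (x * y) ≤ nm τ y) ∧ Cm f x ∧ Cm g x
  c₃ : ∀ x ∈ L₃, (∀ y, nm τ (x * y) ≤ nm τ y) ∧ Cm f x
  b₀ : ∀ y, Cm f y → Cm g y → ∃ b ∈ L₀, b * (1 + star y * y) = y + y
  b₃ : ∀ y, Cm f y → ∃ b ∈ L₃, b * (1 + star y * y) = y + y
  s : ℕ → A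
  hs : ∀ n, Cm f (s n) ∧ Cm g (s n)
  orth : ∀ m n, τ (star (s m) * s n) = if m = n then 1 else 0
  good : Hold F (nm τ) L₀ 0
  bad : ¬ Hold F (nm τ) L₃ η

end units

/-! ## operator models -/

section ops

variable {H : Type} [NormedAddCommGroup H] [InnerProductSpace ℂ H] [CompleteSpace H]

/-- the unit ball -/
def ball (M : VonNeumannAlgebra H) : Set (Op H) := {x | x ∈ M ∧ ‖x‖ ≤ 1}

/-- the relative commutant of matrix units -/
def lev (P : VonNeumannAlgebra H) (e : Fin 3 → Fin 3 → Op H) : VonNeumannAlgebra H :=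
  rel P {x | ∃ i j, x = e i j}

theorem mem_lev {P : VonNeumannAlgebra H} {e : Fin 3 → Fin 3 → Op H} (h : MU e) {x : Op H} :
    x ∈ lev P e ↔ x ∈ P ∧ Cm e x := by
  rw [lev, mem_rel]
  refine and_congr_right fun _ => ⟨fun k i j => (k _ ⟨i, j, rfl⟩).1, ?_⟩
  rintro k _ ⟨i, j, rfl⟩
  exact ⟨k i j, by rw [h.star]; exact k j i⟩

theorem nm_vec (Ω : H) (x : Op H) : nm (vec Ω) x = ‖x Ω‖ := by
  rw [nm, ← norm_orb_sq, Real.sqrt_sq (norm_nonneg _)]

variable (H) in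
/-- a tracial system of operators with a cyclic trace vector -/
structure Pre (F : (Tm → ℝ) → ℝ) (η : ℝ) where
  Ω : H
  S : Set (Op H)
  unit : ‖Ω‖ = 1
  one : 1 ∈ S
  star_mem : ∀ x ∈ S, star x ∈ S
  mul_mem : ∀ x ∈ S, ∀ y ∈ S, x * y ∈ S
  comm : ∀ x ∈ S, ∀ y ∈ S, vec Ω (x * y) = vec Ω (y * x)
  D : Set (Op H)
  sub : D ⊆ S
  dense : Dense ((fun x : Op H => x Ω) '' D)
  f : Fin 3 → Fin 3 → Op H
  g : Fin 3 → Fin 3 → Op H
  hf : MU f
  hg : MU g
  fg : ∀ i j, Cm f (g i j)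
  fS : ∀ i j, f i j ∈ S
  gS : ∀ i j, g i j ∈ S
  L₀ : Set (Op H)
  L₃ : Set (Op H)
  c₀ : ∀ x ∈ L₀, x ∈ S ∧ ‖x‖ ≤ 1 ∧ Cm f x ∧ Cm g x
  c₃ : ∀ x ∈ L₃, x ∈ S ∧ ‖x‖ ≤ 1 ∧ Cm f x
  b₀ : ∀ d ∈ D, ∀ y, y = Ex f (Ex g d) → ∃ b ∈ L₀, b * (1 + star y * y) = y + y
  b₃ : ∀ d ∈ D, ∀ y, y = Ex f d → ∃ b ∈ L₃, b * (1 + star y * y) = y + y
  s : ℕ → Op H
  hs : ∀ n, s n ∈ S ∧ Cm f (s n) ∧ Cm g (s n)
  orth : Orthonormal ℂ fun n => s n Ω
  good : Hold F (fun x => ‖x Ω‖) L₀ 0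
  bad : ¬ Hold F (fun x => ‖x Ω‖) L₃ η

variable (H) in
/-- three nested von Neumann algebras `P₀ ⊆ P₃ ⊆ P` -/
structure Model (F : (Tm → ℝ) → ℝ) (η : ℝ) where
  Ω : H
  J : H ≃ₗᵢ⋆[ℂ] H
  P : VonNeumannAlgebra H
  std : Std Ω J P
  f : Fin 3 → Fin 3 → Op H
  g : Fin 3 → Fin 3 → Op H
  hf : MU f
  hg : MU g
  fP : ∀ i j, f i j ∈ P
  gP : ∀ i j, g i j ∈ lev P f
  s : ℕ → Op H
  hs : ∀ n, s n ∈ lev (lev P f) g
  orth : Orthonormal ℂ fun n => s n Ω
  good : ∀ ε : ℝ, 0 < ε → Hold F (fun x => ‖x Ω‖) (ball (lev (lev P f) g)) ε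
  bad : ¬ Hold F (fun x => ‖x Ω‖) (ball (lev P f)) η

/-- `Q = M₃ (R)` -/
structure Amp (Q R : St.TwoOne H) (e : Fin 3 → Fin 3 → Op H) : Prop where
  mu : MU e
  mem : ∀ i j, e i j ∈ Q.M
  rel : ∀ x, x ∈ R.M ↔ x ∈ Q.M ∧ Cm e x
  tr : ∀ x ∈ R.M, R.τ x = Q.τ x

end ops

end Pool.Agent.MP_ad85d3_an.Ffg

end
end MrgPart0

-- ======== part 1: formerly Pool.Agent.MP_ad85d3_an.ffg.Mat
section MrgPart1

/-!
# PROJECT FFG: matrix norms, Pauli matrices (do not edit; ask helper5)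
-/

open Matrix
open scoped ComplexOrder InnerProductSpace ComplexConjugate Kronecker

noncomputable section

namespace Pool.Agent.MP_ad85d3_an.Ffg

set_option linter.unusedSectionVars false

variable {l m n : Type} [Fintype l] [Fintype m] [Fintype n]
  [DecidableEq l] [DecidableEq m] [DecidableEq n]

/-! ## the Frobenius norm -/

/-- a matrix as a vector -/
def vz : Matrix m n ℂ →ₗ[ℂ] EuclideanSpace ℂ (m × n) where
  toFun x := WithLp.toLp 2 fun p => x p.1 p.2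
  map_add' _ _ := rfl
  map_smul' _ _ := rfl

/-- the Frobenius norm -/
def fro (x : Matrix m n ℂ) : ℝ := ‖vz x‖

theorem fro_nonneg (x : Matrix m n ℂ) : 0 ≤ fro x := norm_nonneg _

theorem fro_sq (x : Matrix m n ℂ) : fro x ^ 2 = ∑ i, ∑ j, ‖x i j‖ ^ 2 := by
  rw [fro, EuclideanSpace.norm_sq_eq, Fintype.sum_prod_type]; rfl

theorem inner_vz (x y : Matrix m n ℂ) : ⟪vz x, vz y⟫_ℂ = trace (xᴴ * y) := by
  rw [PiLp.inner_apply, Fintype.sum_prod_type, Finset.sum_comm]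
  simp [trace, mul_apply, vz, mul_comm]

theorem trace_self (x : Matrix m n ℂ) : trace (xᴴ * x) = ((fro x ^ 2 : ℝ) : ℂ) := by
  rw [← inner_vz, inner_self_eq_norm_sq_to_K, fro]; norm_cast

theorem fro_sq_trace (x : Matrix m n ℂ) : fro x ^ 2 = (trace (xᴴ * x)).re := by
  rw [trace_self, Complex.ofReal_re]

/-- Cauchy-Schwarz -/
theorem norm_trace_mul_le (x y : Matrix m n ℂ) : ‖trace (xᴴ * y)‖ ≤ fro x * fro y := by
  rw [← inner_vz]; exact norm_inner_le_norm _ _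

theorem fro_zero : fro (0 : Matrix m n ℂ) = 0 := by rw [fro, map_zero, norm_zero]

theorem fro_eq_zero {x : Matrix m n ℂ} : fro x = 0 ↔ x = 0 := by
  refine ⟨fun h => ?_, fun h => h ▸ fro_zero⟩
  ext i j
  exact congrArg (fun v : EuclideanSpace ℂ (m × n) => v (i, j)) (norm_eq_zero.1 h)

theorem fro_add_le (x y : Matrix m n ℂ) : fro (x + y) ≤ fro x + fro y := by
  rw [fro, map_add]; exact norm_add_le _ _

theorem fro_neg (x : Matrix m n ℂ) : fro (-x) = fro x := by rw [fro, map_neg, norm_neg, fro]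

theorem fro_sub_le (x y : Matrix m n ℂ) : fro (x - y) ≤ fro x + fro y := by
  rw [fro, map_sub]; exact norm_sub_le _ _

theorem fro_sub_comm (x y : Matrix m n ℂ) : fro (x - y) = fro (y - x) := by
  rw [← fro_neg, neg_sub]

theorem fro_tri (x y z : Matrix m n ℂ) : fro (x - z) ≤ fro (x - y) + fro (y - z) := by
  rw [← sub_add_sub_cancel x y z]; exact fro_add_le _ _

theorem fro_smul (c : ℂ) (x : Matrix m n ℂ) : fro (c • x) = ‖c‖ * fro x := by
  rw [fro, map_smul, norm_smul, fro]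

theorem fro_sum_le {ι : Type*} (s : Finset ι) (x : ι → Matrix m n ℂ) :
    fro (∑ i ∈ s, x i) ≤ ∑ i ∈ s, fro (x i) := by
  rw [fro, map_sum]; exact norm_sum_le _ _

theorem fro_eq_of_sq {m' n' : Type} [Fintype m'] [Fintype n'] {x : Matrix m n ℂ}
    {y : Matrix m' n' ℂ} (h : fro x ^ 2 = fro y ^ 2) : fro x = fro y :=
  (pow_left_inj₀ (norm_nonneg _) (norm_nonneg _) two_ne_zero).1 h

theorem fro_ct (x : Matrix m n ℂ) : fro xᴴ = fro x :=
  fro_eq_of_sq (by rw [fro_sq, fro_sq, Finset.sum_comm]; simp)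

theorem fro_one : fro (1 : Matrix n n ℂ) = √(Fintype.card n) := by
  rw [← Real.sqrt_sq (fro_nonneg _), fro_sq_trace]; simp

theorem norm_trace_le (x : Matrix n n ℂ) : ‖trace x‖ ≤ √(Fintype.card n) * fro x := by
  simpa [fro_one] using norm_trace_mul_le 1 x

theorem fro_iso_mul {u : Matrix l m ℂ} (hu : uᴴ * u = 1) (x : Matrix m n ℂ) :
    fro (u * x) = fro x := fro_eq_of_sq (by
  rw [fro_sq_trace, fro_sq_trace, conjTranspose_mul, Matrix.mul_assoc, ← Matrix.mul_assoc uᴴ, hu,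
    Matrix.one_mul])

theorem fro_mul_iso {u : Matrix m n ℂ} (hu : u * uᴴ = 1) (x : Matrix l m ℂ) :
    fro (x * u) = fro x := by
  rw [← fro_ct, conjTranspose_mul, fro_iso_mul (by rwa [conjTranspose_conjTranspose]), fro_ct]

theorem fro_kron {m' n' : Type} [Fintype m'] [Fintype n'] (x : Matrix m n ℂ) (y : Matrix m' n' ℂ) :
    fro (x ⊗ₖ y) = fro x * fro y := by
  classical
  refine (pow_left_inj₀ (norm_nonneg _) (mul_nonneg (norm_nonneg _) (norm_nonneg _))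
    two_ne_zero).1 ?_
  have := trace_self (x ⊗ₖ y)
  rw [conjTranspose_kronecker, ← mul_kronecker_mul, trace_kronecker, trace_self, trace_self] at this
  rw [mul_pow]
  exact_mod_cast this.symm

theorem fro_diag_le (x : Matrix n n ℂ) : fro (diagonal x.diag) ≤ fro x := by
  refine (pow_le_pow_iff_left₀ (fro_nonneg _) (fro_nonneg _) two_ne_zero).1 ?_
  rw [fro_sq, fro_sq]
  refine Finset.sum_le_sum fun i _ => Finset.sum_le_sum fun j _ => ?_
  by_cases h : i = j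
  · subst h; simp
  · simp [h]

/-- `x x^* - 1` and `x^* x - 1` have the same norm -/
theorem fro_unit (x : Matrix n n ℂ) : fro (x * xᴴ - 1) = fro (xᴴ * x - 1) := fro_eq_of_sq (by
  rw [fro_sq_trace, fro_sq_trace]
  simp only [conjTranspose_sub, conjTranspose_mul, conjTranspose_conjTranspose, conjTranspose_one,
    sub_mul, mul_sub, mul_one, one_mul, trace_sub]
  rw [trace_mul_comm x xᴴ, mul_assoc x, trace_mul_comm x, mul_assoc, mul_assoc, mul_assoc])

/-! ## the operator norm -/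

section op

open scoped Matrix.Norms.L2Operator

/-- the operator norm -/
def opn (x : Matrix m n ℂ) : ℝ := ‖x‖

theorem opn_def (x : Matrix m n ℂ) : opn x = ‖x‖ := rfl

theorem opn_nonneg (x : Matrix m n ℂ) : 0 ≤ opn x := norm_nonneg _

theorem opn_zero : opn (0 : Matrix m n ℂ) = 0 := norm_zero

theorem opn_add_le (x y : Matrix m n ℂ) : opn (x + y) ≤ opn x + opn y := norm_add_le _ _

theorem opn_sub_le (x y : Matrix m n ℂ) : opn (x - y) ≤ opn x + opn y := norm_sub_le _ _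

theorem opn_neg (x : Matrix m n ℂ) : opn (-x) = opn x := norm_neg _

theorem opn_smul (c : ℂ) (x : Matrix m n ℂ) : opn (c • x) = ‖c‖ * opn x := norm_smul _ _

theorem opn_sum_le {ι : Type*} (s : Finset ι) (x : ι → Matrix m n ℂ) :
    opn (∑ i ∈ s, x i) ≤ ∑ i ∈ s, opn (x i) := norm_sum_le _ _

theorem opn_mul_le (x : Matrix l m ℂ) (y : Matrix m n ℂ) : opn (x * y) ≤ opn x * opn y :=
  l2_opNorm_mul _ _

theorem opn_ct (x : Matrix m n ℂ) : opn xᴴ = opn x := l2_opNorm_conjTranspose _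

theorem opn_ct_mul (x : Matrix m n ℂ) : opn (xᴴ * x) = opn x * opn x :=
  l2_opNorm_conjTranspose_mul_self _

theorem opn_one_le : opn (1 : Matrix n n ℂ) ≤ 1 := (IsStarProjection.one _).norm_le

theorem opn_proj {e : Matrix n n ℂ} (h : IsStarProjection e) : opn e ≤ 1 := h.norm_le

theorem opn_mulVec (x : Matrix m n ℂ) (v : n → ℂ) :
    ∑ i, ‖(x *ᵥ v) i‖ ^ 2 ≤ opn x ^ 2 * ∑ j, ‖v j‖ ^ 2 := by
  have := pow_le_pow_left₀ (norm_nonneg _) (l2_opNorm_mulVec x (WithLp.toLp 2 v)) 2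
  rwa [mul_pow, EuclideanSpace.norm_sq_eq, EuclideanSpace.norm_sq_eq] at this

theorem opn_le_of {x : Matrix m n ℂ} {C : ℝ} (hC : 0 ≤ C)
    (h : ∀ v : n → ℂ, ∑ i, ‖(x *ᵥ v) i‖ ^ 2 ≤ C ^ 2 * ∑ j, ‖v j‖ ^ 2) : opn x ≤ C := by
  rw [opn, l2_opNorm_def]
  refine ContinuousLinearMap.opNorm_le_bound _ hC fun v => ?_
  refine (pow_le_pow_iff_left₀ (norm_nonneg _) (by positivity) two_ne_zero).1 ?_
  rw [mul_pow, EuclideanSpace.norm_sq_eq, EuclideanSpace.norm_sq_eq]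
  exact h v

theorem opn_diagonal_le {d : n → ℂ} {C : ℝ} (hC : 0 ≤ C) (h : ∀ i, ‖d i‖ ≤ C) :
    opn (diagonal d) ≤ C := by
  rw [opn, l2_opNorm_diagonal]; exact (pi_norm_le_iff_of_nonneg hC).2 h

end op

theorem opn_star (x : Matrix n n ℂ) : opn (star x) = opn x := opn_ct x

theorem opn_mul_le_one {x : Matrix l m ℂ} {y : Matrix m n ℂ} (hx : opn x ≤ 1) (hy : opn y ≤ 1) :
    opn (x * y) ≤ 1 := (opn_mul_le x y).trans (mul_le_one₀ hx (opn_nonneg _) hy)

theorem opn_le_one_of {x : Matrix m n ℂ} (h : opn (xᴴ * x) ≤ 1) : opn x ≤ 1 := by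
  rw [opn_ct_mul] at h
  nlinarith [opn_nonneg x]

theorem opn_iso {u : Matrix m n ℂ} (hu : uᴴ * u = 1) : opn u ≤ 1 :=
  opn_le_one_of (hu ▸ opn_one_le)

theorem fro_mul_le (x : Matrix l m ℂ) (y : Matrix m n ℂ) : fro (x * y) ≤ opn x * fro y := by
  refine (pow_le_pow_iff_left₀ (fro_nonneg _) (mul_nonneg (opn_nonneg _) (fro_nonneg _))
    two_ne_zero).1 ?_
  rw [mul_pow, fro_sq, fro_sq, Finset.sum_comm, Finset.sum_comm (f := fun i j => ‖y i j‖ ^ 2),
    Finset.mul_sum]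
  exact Finset.sum_le_sum fun j _ => opn_mulVec x fun i => y i j

theorem fro_mul_le' (x : Matrix l m ℂ) (y : Matrix m n ℂ) : fro (x * y) ≤ fro x * opn y := by
  rw [← fro_ct, conjTranspose_mul, ← fro_ct x, ← opn_ct y, mul_comm]; exact fro_mul_le _ _

theorem fro_ctr_mul {x : Matrix l m ℂ} (hx : opn x ≤ 1) (y : Matrix m n ℂ) :
    fro (x * y) ≤ fro y := (fro_mul_le x y).trans (mul_le_of_le_one_left (fro_nonneg _) hx)

theorem fro_mul_ctr (x : Matrix l m ℂ) {y : Matrix m n ℂ} (hy : opn y ≤ 1) :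
    fro (x * y) ≤ fro x := (fro_mul_le' x y).trans (mul_le_of_le_one_right (fro_nonneg _) hy)

theorem fro_le_opn (x : Matrix m n ℂ) : fro x ≤ opn x * √(Fintype.card n) := by
  have := fro_mul_le x (1 : Matrix n n ℂ)
  rwa [Matrix.mul_one, fro_one] at this

theorem opn_kron_one (x : Matrix m n ℂ) : opn (x ⊗ₖ (1 : Matrix l l ℂ)) ≤ opn x := by
  refine opn_le_of (opn_nonneg _) fun v => ?_
  rw [Fintype.sum_prod_type_right, Fintype.sum_prod_type_right, Finset.mul_sum]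
  refine Finset.sum_le_sum fun k _ => le_of_eq_of_le ?_ (opn_mulVec x fun j => v (j, k))
  refine Finset.sum_congr rfl fun i _ => ?_
  simp [mulVec, dotProduct, Fintype.sum_prod_type, one_apply]

theorem opn_one_kron (x : Matrix m n ℂ) : opn ((1 : Matrix l l ℂ) ⊗ₖ x) ≤ opn x := by
  refine opn_le_of (opn_nonneg _) fun v => ?_
  rw [Fintype.sum_prod_type, Fintype.sum_prod_type, Finset.mul_sum]
  refine Finset.sum_le_sum fun k _ => le_of_eq_of_le ?_ (opn_mulVec x fun j => v (k, j))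
  refine Finset.sum_congr rfl fun i _ => ?_
  simp [mulVec, dotProduct, Fintype.sum_prod_type, one_apply]

/-! ## the normalised trace and its `2`-norm -/

/-- the normalised trace -/
def tau (x : Matrix n n ℂ) : ℂ := trace x / Fintype.card n

/-- the normalised Hilbert-Schmidt norm -/
def nu (x : Matrix n n ℂ) : ℝ := fro x / √(Fintype.card n)

variable (n) in
/-- contractions -/
def ctr : Set (Matrix n n ℂ) := {x | opn x ≤ 1}

theorem nu_nonneg (x : Matrix n n ℂ) : 0 ≤ nu x := div_nonneg (fro_nonneg _) (Real.sqrt_nonneg _)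

theorem nu_sq (x : Matrix n n ℂ) : nu x ^ 2 = fro x ^ 2 / Fintype.card n := by
  rw [nu, div_pow, Real.sq_sqrt (Nat.cast_nonneg _)]

theorem tau_self (x : Matrix n n ℂ) : tau (star x * x) = ((nu x ^ 2 : ℝ) : ℂ) := by
  rw [tau, star_eq_conjTranspose, trace_self, nu_sq]; norm_cast

theorem nu_eq_nm (x : Matrix n n ℂ) : nu x = nm tau x := by
  rw [nm, tau_self, Complex.ofReal_re, Real.sqrt_sq (nu_nonneg _)]

theorem nu_le_of {x y : Matrix n n ℂ} (h : fro x ≤ fro y) : nu x ≤ nu y :=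
  div_le_div_of_nonneg_right h (Real.sqrt_nonneg _)

theorem fro_eq_nu [Nonempty n] (x : Matrix n n ℂ) : fro x = nu x * √(Fintype.card n) :=
  (div_mul_cancel₀ _ (by positivity)).symm

theorem nu_zero : nu (0 : Matrix n n ℂ) = 0 := by rw [nu, fro_zero, zero_div]

theorem nu_add_le (x y : Matrix n n ℂ) : nu (x + y) ≤ nu x + nu y := by
  rw [nu, nu, nu, ← add_div]
  exact div_le_div_of_nonneg_right (fro_add_le _ _) (Real.sqrt_nonneg _)

theorem nu_neg (x : Matrix n n ℂ) : nu (-x) = nu x := by rw [nu, fro_neg, nu]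

theorem nu_sub_le (x y : Matrix n n ℂ) : nu (x - y) ≤ nu x + nu y := by
  rw [sub_eq_add_neg, ← nu_neg y]; exact nu_add_le _ _

theorem nu_sub_comm (x y : Matrix n n ℂ) : nu (x - y) = nu (y - x) := by rw [← nu_neg, neg_sub]

theorem nu_tri (x y z : Matrix n n ℂ) : nu (x - z) ≤ nu (x - y) + nu (y - z) := by
  rw [← sub_add_sub_cancel x y z]; exact nu_add_le _ _

theorem nu_smul (c : ℂ) (x : Matrix n n ℂ) : nu (c • x) = ‖c‖ * nu x := by
  rw [nu, fro_smul, mul_div_assoc, nu]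

theorem nu_sum_le {ι : Type*} (s : Finset ι) (x : ι → Matrix n n ℂ) :
    nu (∑ i ∈ s, x i) ≤ ∑ i ∈ s, nu (x i) := by
  simp only [nu, ← Finset.sum_div]
  exact div_le_div_of_nonneg_right (fro_sum_le _ _) (Real.sqrt_nonneg _)

theorem nu_star (x : Matrix n n ℂ) : nu (star x) = nu x := by
  rw [nu, star_eq_conjTranspose, fro_ct, nu]

theorem nu_mul_le (x y : Matrix n n ℂ) : nu (x * y) ≤ opn x * nu y := by
  rw [nu, nu, ← mul_div_assoc]
  exact div_le_div_of_nonneg_right (fro_mul_le _ _) (Real.sqrt_nonneg _)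

theorem nu_mul_le' (x y : Matrix n n ℂ) : nu (x * y) ≤ nu x * opn y := by
  rw [nu, nu, div_mul_eq_mul_div]
  exact div_le_div_of_nonneg_right (fro_mul_le' _ _) (Real.sqrt_nonneg _)

theorem nu_ctr_mul {x : Matrix n n ℂ} (hx : opn x ≤ 1) (y : Matrix n n ℂ) : nu (x * y) ≤ nu y :=
  nu_le_of (fro_ctr_mul hx y)

theorem nu_mul_ctr (x : Matrix n n ℂ) {y : Matrix n n ℂ} (hy : opn y ≤ 1) : nu (x * y) ≤ nu x :=
  nu_le_of (fro_mul_ctr x hy)

/-- products of contractions -/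
theorem nu_mul_sub {a b c d : Matrix n n ℂ} (hb : opn b ≤ 1) (hc : opn c ≤ 1) :
    nu (a * b - c * d) ≤ nu (a - c) + nu (b - d) := by
  refine (nu_tri _ (c * b) _).trans (add_le_add ?_ ?_)
  · rw [← sub_mul]; exact nu_mul_ctr _ hb
  · rw [← mul_sub]; exact nu_ctr_mul hc _

theorem nu_one [Nonempty n] : nu (1 : Matrix n n ℂ) = 1 := by
  rw [nu, fro_one, div_self (by positivity)]

theorem nu_one_le : nu (1 : Matrix n n ℂ) ≤ 1 := by rw [nu, fro_one]; exact div_self_le_one _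

theorem nu_le_opn (x : Matrix n n ℂ) : nu x ≤ opn x := by
  have := nu_mul_le x 1
  rw [mul_one] at this
  exact this.trans (mul_le_of_le_one_right (opn_nonneg _) nu_one_le)

theorem nu_eq_zero [Nonempty n] {x : Matrix n n ℂ} : nu x = 0 ↔ x = 0 := by
  rw [nu, div_eq_zero_iff, fro_eq_zero, or_iff_left (by positivity)]

theorem norm_tau_le (x : Matrix n n ℂ) : ‖tau x‖ ≤ nu x := by
  rcases isEmpty_or_nonempty n with h | h
  · simp [tau, nu_nonneg]
  have e : (0 : ℝ) < √(Fintype.card n) := by positivity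
  rw [tau, norm_div, Complex.norm_natCast, nu, div_le_div_iff₀ (by positivity) e]
  nth_rewrite 2 [← Real.mul_self_sqrt (Nat.cast_nonneg (Fintype.card n))]
  nlinarith [norm_trace_le x]

theorem nu_unit (x : Matrix n n ℂ) : nu (x * star x - 1) = nu (star x * x - 1) := by
  rw [nu, nu, star_eq_conjTranspose, fro_unit]

theorem nu_kron (x : Matrix m m ℂ) (y : Matrix n n ℂ) : nu (x ⊗ₖ y) = nu x * nu y := by
  rw [nu, nu, nu, fro_kron, Fintype.card_prod, Nat.cast_mul, Real.sqrt_mul (Nat.cast_nonneg _),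
    mul_div_mul_comm]

theorem psi1_nonneg (c : Fin 9 → Matrix n n ℂ) (u : Matrix n n ℂ) : 0 ≤ psi1 nu c u := by
  unfold psi1
  repeat' first | exact nu_nonneg _ | apply add_nonneg

theorem psi_nonneg (c : Fin 9 → Matrix n n ℂ) (u : Fin 4 → Matrix n n ℂ) : 0 ≤ psi nu c u := by
  unfold psi
  repeat' first | exact psi1_nonneg _ _ | apply add_nonneg

theorem opn_cj {w u : Matrix n n ℂ} (hw : opn w ≤ 1) (hu : opn u ≤ 1) : opn (cj w u) ≤ 1 :=
  opn_mul_le_one (opn_mul_le_one hw hu) ((opn_star w).trans_le hw)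

theorem opn_ev {c : Fin 9 → Matrix n n ℂ} {u : Fin 4 → Matrix n n ℂ} (hc : ∀ i, opn (c i) ≤ 1)
    (hu : ∀ i, opn (u i) ≤ 1) : opn (ev c u) ≤ 1 :=
  opn_mul_le_one (opn_mul_le_one (opn_mul_le_one (hu 0)
    (opn_cj (opn_mul_le_one (opn_mul_le_one (hc 8) (hc 6)) (hc 8)) (hu 1))) (opn_cj (hc 8) (hu 2)))
    (opn_cj (opn_mul_le_one (hc 6) (hc 8)) (hu 3))

/-! ## permutation matrices of involutions -/

/-- the matrix of the map `σ` -/
def pm (σ : n → n) : Matrix n n ℂ := fun x y => if x = σ y then 1 else 0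

theorem pm_id : pm (id : n → n) = 1 := by ext x y; simp [pm, one_apply]

theorem mul_pm_apply (x : Matrix m n ℂ) (σ : n → n) (i : m) (j : n) :
    (x * pm σ) i j = x i (σ j) := by simp [mul_apply, pm]

theorem pm_mul_pm (σ ρ : n → n) : pm σ * pm ρ = pm (σ ∘ ρ) := by
  ext x y; rw [mul_pm_apply]; rfl

theorem pm_ct {σ : n → n} (h : Function.Involutive σ) : (pm σ)ᴴ = pm σ := by
  ext x y
  have : y = σ x ↔ x = σ y := ⟨fun e => by rw [e, h], fun e => by rw [e, h]⟩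
  simp [pm, this, apply_ite]

theorem pm_mul_apply {σ : n → n} (h : Function.Involutive σ) (x : Matrix n m ℂ) (i : n) (j : m) :
    (pm σ * x) i j = x (σ i) j := by
  have : ∀ y, i = σ y ↔ σ i = y := fun y => ⟨fun e => by rw [e, h], fun e => by rw [← e, h]⟩
  simp [mul_apply, pm, this]

theorem pm_mul_self {σ : n → n} (h : Function.Involutive σ) : pm σ * pm σ = 1 := by
  rw [pm_mul_pm, h.comp_self, pm_id]

theorem opn_pm {σ : n → n} (h : Function.Involutive σ) : opn (pm σ) ≤ 1 :=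
  opn_iso (by rw [pm_ct h, pm_mul_self h])

/-! ## Pauli matrices -/

section pauli

variable {G : Type} [AddCommGroup G] [Fintype G] [DecidableEq G]

/-- a symmetric nondegenerate `±1`-valued pairing on an elementary abelian `2`-group -/
structure Pairing (χ : G → G → ℂ) : Prop where
  two : ∀ a : G, a + a = 0
  add : ∀ b x y, χ b (x + y) = χ b x * χ b y
  symm : ∀ b x, χ b x = χ x b
  sign : ∀ b x, χ b x = 1 ∨ χ b x = -1
  orth : ∀ x, x ≠ 0 → ∑ b, χ b x = 0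

/-- translations -/
def TT (a : G) : Matrix G G ℂ := pm fun x => x + a

/-- characters -/
def ZZ (χ : G → G → ℂ) (b : G) : Matrix G G ℂ := diagonal (χ b)

/-- the Hadamard matrix -/
def HH (χ : G → G → ℂ) : Matrix G G ℂ := fun x y => ((√(Fintype.card G) : ℝ) : ℂ)⁻¹ * χ x y

variable (G) in
/-- the multiplicative unitary -/
def WW : Matrix (G × G) (G × G) ℂ := pm fun q => (q.1, q.1 + q.2)

variable (G) in
/-- the flip -/
def FF : Matrix (G × G) (G × G) ℂ := pm Prod.swap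

/-- the parameters of the good model -/
def par (χ : G → G → ℂ) (e : Fin 6 → Matrix G G ℂ) : Fin 9 → Matrix (G × G) (G × G) ℂ :=
  ![1 ⊗ₖ e 0, 1 ⊗ₖ e 1, 1 ⊗ₖ e 2, 1 ⊗ₖ e 3, 1 ⊗ₖ e 4, 1 ⊗ₖ e 5, 1 ⊗ₖ HH χ, WW G, FF G]

/-- what almost commutes with the `e i` is almost diagonal -/
def Gap (C : ℝ) (e : Fin 6 → Matrix n n ℂ) : Prop :=
  ∀ y : Matrix n n ℂ, fro (y - diagonal y.diag) ^ 2 ≤ C * ∑ i, fro (com (e i) y) ^ 2

/-- small defect forces closeness to a translation -/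
def Stab (C : ℝ) (χ : G → G → ℂ) (e : Fin 6 → Matrix G G ℂ) : Prop :=
  ∀ u : Matrix (G × G) (G × G) ℂ, opn u ≤ 1 →
    ∃ b : G, nu (u - TT b ⊗ₖ (1 : Matrix G G ℂ)) ≤ C * psi1 nu (par χ e) u

namespace Pairing

variable {χ : G → G → ℂ} (h : Pairing χ)
include h

theorem mul_self (b x : G) : χ b x * χ b x = 1 := by rcases h.sign b x with e | e <;> simp [e]

theorem zero (b : G) : χ b 0 = 1 := by rw [← h.two b, h.add, h.mul_self]

theorem add' (a b x : G) : χ (a + b) x = χ a x * χ b x := by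
  rw [h.symm, h.add, h.symm x, h.symm x]

theorem conj_eq (b x : G) : conj (χ b x) = χ b x := by rcases h.sign b x with e | e <;> simp [e]

theorem norm_eq (b x : G) : ‖χ b x‖ = 1 := by rcases h.sign b x with e | e <;> simp [e]

theorem add_eq_zero {x y : G} : x + y = 0 ↔ x = y :=
  ⟨fun e => by rw [← add_zero x, ← h.two y, ← add_assoc, e, zero_add], fun e => e ▸ h.two x⟩

theorem sum_mul (x y : G) : ∑ b, χ b x * χ b y = if x = y then (Fintype.card G : ℂ) else 0 := by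
  split_ifs with e
  · simp [e, h.mul_self]
  · simpa only [h.add] using h.orth (x + y) fun k => e (h.add_eq_zero.1 k)

theorem inv_add (a : G) : Function.Involutive fun x => x + a := fun x => by
  simp only [add_assoc, h.two, add_zero]

theorem inv_W : Function.Involutive fun q : G × G => (q.1, q.1 + q.2) := fun q => by
  simp only [← add_assoc, h.two, zero_add]

theorem TT_ct (a : G) : (TT a)ᴴ = TT a := pm_ct (h.inv_add a)

theorem TT_mul_self (a : G) : TT a * TT a = 1 := pm_mul_self (h.inv_add a)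

theorem ZZ_ct (b : G) : (ZZ χ b)ᴴ = ZZ χ b := by
  rw [ZZ, diagonal_conjTranspose]; congr 1; exact funext (h.conj_eq b)

theorem ZZ_mul (a b : G) : ZZ χ a * ZZ χ b = ZZ χ (a + b) := by
  rw [ZZ, ZZ, diagonal_mul_diagonal, ZZ]; congr 1; exact funext fun x => (h.add' a b x).symm

theorem ZZ_zero : ZZ χ 0 = 1 := by
  rw [ZZ, ← diagonal_one]; congr 1; exact funext fun x => (h.symm 0 x).trans (h.zero x)

theorem ZZ_mul_self (b : G) : ZZ χ b * ZZ χ b = 1 := by rw [h.ZZ_mul, h.two, h.ZZ_zero]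

theorem ZZ_mul_TT (a b : G) : ZZ χ b * TT a = χ b a • (TT a * ZZ χ b) := by
  ext x y
  simp only [ZZ, TT, diagonal_mul, mul_diagonal, Matrix.smul_apply, pm, smul_eq_mul]
  split_ifs with e
  · rw [e, h.add]; ring
  · simp

theorem HH_ct : (HH χ)ᴴ = HH χ := by
  ext x y
  rw [conjTranspose_apply, HH, HH, star_mul', h.symm y x]
  exact congrArg₂ _ (by simp) (h.conj_eq x y)

theorem HH_mul_TT (a : G) : HH χ * TT a = ZZ χ a * HH χ := by
  ext x y
  rw [TT, mul_pm_apply, ZZ, diagonal_mul, HH, HH, h.add, h.symm a x]; ring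

theorem HH_mul_self : HH χ * HH χ = 1 := by
  ext x y
  have e : ((√(Fintype.card G) : ℝ) : ℂ)⁻¹ * ((√(Fintype.card G) : ℝ) : ℂ)⁻¹ =
      (Fintype.card G : ℂ)⁻¹ := by
    rw [← mul_inv, ← Complex.ofReal_mul, Real.mul_self_sqrt (Nat.cast_nonneg _)]; simp
  have : ∀ b, HH χ x b * HH χ b y = (Fintype.card G : ℂ)⁻¹ * (χ b x * χ b y) := fun b => by
    rw [HH, HH, h.symm x b, ← e]; ring
  simp only [mul_apply, this, ← Finset.mul_sum, h.sum_mul, one_apply]
  split_ifs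
  · exact inv_mul_cancel₀ (Nat.cast_ne_zero.2 Fintype.card_ne_zero)
  · exact mul_zero _

/-- the product pairing -/
theorem prod {G' : Type} [AddCommGroup G'] [Fintype G'] [DecidableEq G'] {χ' : G' → G' → ℂ}
    (h' : Pairing χ') : Pairing fun p q : G × G' => χ p.1 q.1 * χ' p.2 q.2 where
  two a := Prod.ext (h.two _) (h'.two _)
  add b x y := by simp only [Prod.fst_add, Prod.snd_add, h.add, h'.add]; ring
  symm b x := by rw [h.symm, h'.symm]
  sign b x := by rcases h.sign b.1 x.1 with e | e <;> rcases h'.sign b.2 x.2 with e' | e' <;>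
    simp [e, e']
  orth x hx := by
    simp only [Fintype.sum_prod_type, ← Finset.sum_mul_sum]
    by_cases e : x.1 = 0
    · rw [h'.orth x.2 fun k => hx (Prod.ext e k), mul_zero]
    · rw [h.orth x.1 e, zero_mul]

end Pairing

theorem TT_mul (a b : G) : TT a * TT b = TT (a + b) := by
  rw [TT, TT, pm_mul_pm, TT]; congr 1; ext x; simp [add_assoc, add_comm a b]

theorem TT_zero : TT (0 : G) = 1 := by
  rw [TT, ← pm_id]; congr 1; ext x; simp

end pauli

/-- the group on which the expanders act -/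
abbrev Vk (k : ℕ) : Type := (Fin k → ZMod 2) × (Fin k → ZMod 2)

/-! ## approximate and exact representations -/

section rep

variable {G : Type} [Group G] [Fintype G]

/-- an almost irreducible approximate representation -/
structure ARep (φ : G → Matrix n n ℂ) (C δ : ℝ) : Prop where
  ctr : ∀ g, opn (φ g) ≤ 1
  mul : ∀ g h, nu (φ g * φ h - φ (g * h)) ≤ δ
  uni : ∀ g, nu (star (φ g) * φ g - 1) ≤ δ
  irr : ∀ y, opn y ≤ 1 →
    ∃ g, min (nu y) (nu (1 - y)) ≤ C * (nu (com (φ g) y) + nu (y - star y * y)) + δ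

/-- a unitary representation -/
structure URep (π : G → Matrix n n ℂ) : Prop where
  one : π 1 = 1
  mul : ∀ g h, π (g * h) = π g * π h
  star : ∀ g, star (π g) = π g⁻¹

/-- an intertwiner that is almost an irreducible projection of rank `N` -/
structure Avg (π : G → Matrix n n ℂ) (A : Matrix n n ℂ) (N θ : ℝ) : Prop where
  herm : star A = A
  ctr : opn A ≤ 1
  comm : ∀ g, π g * A = A * π g
  top : (1 - θ) * N ≤ (trace A).re
  dich : ∀ E, IsStarProjection E → (∀ g, π g * E = E * π g) → A * E = E * A →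
    ((trace (A * E)).re ≤ θ * N ∨ (1 - θ) * N ≤ (trace (A * E)).re) ∧ (trace (A * E)).re ≤ N ∧
      (trace (A * E)).re - θ * N ≤ (trace (A * A * E)).re

end rep

end Pool.Agent.MP_ad85d3_an.Ffg

end
end MrgPart1

-- ======== part 2: formerly Pool.Agent.MP_ad85d3_an.ffg.Spec
section MrgPart2

/-!
# PROJECT FFG: module statements and their assembly (do not edit; ask helper5)
-/

open Filter Topology Matrix
open scoped ComplexOrder InnerProductSpace ComplexConjugate Kronecker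

noncomputable section

namespace Pool.Agent.MP_ad85d3_an.Ffg

universe v

/-! ## the good model -/

/-- GAP: uniform expanders (Shalom's lemma) and the pairing on `Vk k` -/
def GapStmt : Prop :=
  ∃ C : ℝ, 0 ≤ C ∧ ∀ k : ℕ, ∃ (χ : Vk k → Vk k → ℂ) (e : Fin 6 → Matrix (Vk k) (Vk k) ℂ),
    Pairing χ ∧ (∀ i, opn (e i) ≤ 1) ∧ Gap C e

/-- STAB: the translations are definable -/
def StabStmt : Prop :=
  ∀ C : ℝ, 0 ≤ C → ∃ C' : ℝ, 0 ≤ C' ∧ ∀ (G : Type) [AddCommGroup G] [Fintype G] [DecidableEq G]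
    (χ : G → G → ℂ) (e : Fin 6 → Matrix G G ℂ), Pairing χ → Gap C e → Stab C' χ e

/-- PAULI: the sentence holds exactly in the good model -/
def PauliStmt : Prop :=
  ∀ C : ℝ, 0 ≤ C → ∃ C' : ℝ, 0 ≤ C' ∧ ∀ (G : Type) [AddCommGroup G] [Fintype G] [DecidableEq G]
    (χ : G → G → ℂ) (e : Fin 6 → Matrix G G ℂ), Pairing χ → (∀ i, opn (e i) ≤ 1) → Stab C χ e →
    Hold (Frm C') nu (ctr (G × G)) 0

/-! ## the bad model -/

/-- GRP: the sentence produces a finite group with an approximate representation -/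
def GrpStmt : Prop :=
  ∀ C δ : ℝ, 0 ≤ C → 0 < δ → ∃ ε : ℝ, 0 < ε ∧ ∀ (n : Type) [Fintype n] [DecidableEq n]
    [Nonempty n], Hold (Frm C) nu (ctr n) ε →
    ∃ (G : Type) (_ : Group G) (_ : Fintype G) (φ : G → Matrix n n ℂ), ARep φ C δ ∧
      (∀ g : G, g ^ 4 = 1) ∧ ∀ g h : G, g * g * h = h * (g * g)

/-- GH: the Gowers-Hatami dilation -/
def GhStmt : Prop :=
  ∀ C θ : ℝ, 0 ≤ C → 0 < θ → ∃ δ : ℝ, 0 < δ ∧ ∀ (n : Type) [Fintype n] [DecidableEq n] [Nonempty n]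
    (G : Type) [Group G] [Fintype G] (φ : G → Matrix n n ℂ), ARep φ C δ →
    ∃ (κ : Type) (_ : Fintype κ) (_ : DecidableEq κ) (π : G → Matrix κ κ ℂ) (A : Matrix κ κ ℂ),
      URep π ∧ Avg π A (Fintype.card n) θ

/-- REP: the dimension of an irreducible representation -/
def RepStmt : Prop :=
  ∀ (G : Type) [Group G] [Fintype G] (κ : Type) [Fintype κ] [DecidableEq κ]
    (π : G → Matrix κ κ ℂ) (A : Matrix κ κ ℂ) (N : ℝ), 0 < N → (∀ g : G, g ^ 4 = 1) →
    (∀ g h : G, g * g * h = h * (g * g)) → URep π → Avg π A N (1 / 1000) →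
    ∃ j : ℕ, 99 / 100 * N ^ 2 ≤ 2 ^ j ∧ (2 : ℝ) ^ j ≤ 101 / 100 * N ^ 2

/-! ## general tools -/

/-- the Kaplansky function `y ↦ 2 y (1 + y^* y)⁻¹` -/
structure Beta (A : Type) [CStarAlgebra A] : Prop where
  fwd : ∀ y : A, ∃ r : A, r * (1 + star y * y) = 1 ∧ (1 + star y * y) * r = 1 ∧ ‖r‖ ≤ 1 ∧
    ‖y * r + y * r‖ ≤ 1
  bwd : ∀ x : A, ‖x‖ ≤ 1 → ∃ y : A, ‖y‖ ≤ 1 ∧ x * (1 + star y * y) = y + y ∧
    ∀ a : A, a * x = x * a → a * star x = star x * a → a * y = y * a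

def BetaStmt : Prop := ∀ (A : Type) [CStarAlgebra A], Beta A

/-- the `2`-norm of a II₁ factor -/
structure NmF {H : Type} [NormedAddCommGroup H] [InnerProductSpace ℂ H] [CompleteSpace H]
    (N : St.TwoOne H) : Prop where
  nonneg : ∀ x ∈ N.M, 0 ≤ x → 0 ≤ N.τ x
  sq : ∀ x ∈ N.M, N.τ (star x * x) = ((nm N.τ x ^ 2 : ℝ) : ℂ)
  tr : ∀ x ∈ N.M, ‖N.τ x‖ ≤ nm N.τ x
  le : ∀ x ∈ N.M, nm N.τ x ≤ ‖x‖
  add : ∀ x ∈ N.M, ∀ y ∈ N.M, nm N.τ (x + y) ≤ nm N.τ x + nm N.τ y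
  smul : ∀ (c : ℂ), ∀ x ∈ N.M, nm N.τ (c • x) = ‖c‖ * nm N.τ x
  star : ∀ x ∈ N.M, nm N.τ (star x) = nm N.τ x
  mul : ∀ x ∈ N.M, ∀ y ∈ N.M, nm N.τ (x * y) ≤ ‖x‖ * nm N.τ y
  mul' : ∀ x ∈ N.M, ∀ y ∈ N.M, nm N.τ (x * y) ≤ nm N.τ x * ‖y‖

def NmStmt : Prop :=
  ∀ (H : Type) [NormedAddCommGroup H] [InnerProductSpace ℂ H] [CompleteSpace H] (N : St.TwoOne H),
    NmF N

/-! ## the construction of the factor -/

/-- SEQ: the algebra of bounded sequences of matrices -/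
def SeqStmt : Prop :=
  ∀ (ι : ℕ → Type) [∀ k, AddCommGroup (ι k)] [∀ k, Fintype (ι k)] [∀ k, DecidableEq (ι k)]
    (F : (Tm → ℝ) → ℝ) (η : ℝ), Continuous F → 0 < η → (∀ k, k ≤ Fintype.card (ι k)) →
    (∀ k, Hold F nu (ctr (ι k)) 0) → (∀ k, ¬ Hold F nu (ctr (ι k × Fin 3)) η) →
    ∃ (A : Type) (_ : Ring A) (_ : StarRing A) (_ : Algebra ℂ A) (_ : StarModule ℂ A),
      Nonempty (TS A F (η / 2))

/-- SEP: a countable elementary subsystem and its GNS representation -/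
def SepStmt : Prop :=
  ∀ (A : Type) [Ring A] [StarRing A] [Algebra ℂ A] [StarModule ℂ A] (F : (Tm → ℝ) → ℝ) (η : ℝ),
    TS A F η → ∃ (H : Type) (_ : NormedAddCommGroup H) (_ : InnerProductSpace ℂ H)
      (_ : CompleteSpace H) (_ : TopologicalSpace.SeparableSpace H), Nonempty (Pre H F η)

/-- KAP: passing to the von Neumann algebras -/
def KapStmt : Prop :=
  ∀ (H : Type) [NormedAddCommGroup H] [InnerProductSpace ℂ H] [CompleteSpace H]
    (F : (Tm → ℝ) → ℝ) (η : ℝ), UniformContinuous F → 0 < η → Pre H F η →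
    Nonempty (Model H F (η / 2))

/-- FAC: the three algebras are II₁ factors -/
def FacStmt : Prop :=
  ∀ (H : Type) [NormedAddCommGroup H] [InnerProductSpace ℂ H] [CompleteSpace H] (C η : ℝ),
    Model H (Frm C) η → ∃ (N₀ N₃ N₉ : St.TwoOne H) (f g : Fin 3 → Fin 3 → Op H),
      Amp N₃ N₀ g ∧ Amp N₉ N₃ f ∧
      (∀ ε : ℝ, 0 < ε → Hold (Frm C) (nm N₀.τ) (ball N₀.M) ε) ∧
      ¬ Hold (Frm C) (nm N₃.τ) (ball N₃.M) η

/-! ## elementary equivalence and tensor products -/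

/-- TRU: uniqueness of the trace on an ultrapower -/
def TruStmt : Prop :=
  ∀ (H : Type) [NormedAddCommGroup H] [InnerProductSpace ℂ H] [CompleteSpace H] (N : St.TwoOne H)
    (I : Type v) (U : Ultrafilter I) (σ : (I → Op H) → ℂ),
    (∀ x y, St.Bdd N x → St.Bdd N y → σ (x + y) = σ x + σ y) →
    (∀ (c : ℂ) x, St.Bdd N x → σ (c • x) = c * σ x) → σ 1 = 1 →
    (∀ x, St.Bdd N x → 0 ≤ σ (star x * x)) →
    (∀ x y, St.Bdd N x → St.Bdd N y → σ (x * y) = σ (y * x)) →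
    (∀ x, St.Bdd N x → (∀ᶠ i in U, x i = 0) → σ x = 0) →
    ∀ x, St.Bdd N x → Tendsto (fun i => N.τ (x i)) U (𝓝 (σ x))

/-- TRF: sentences are invariants of elementary equivalence -/
def TrfStmt : Prop :=
  ∀ (H K : Type) [NormedAddCommGroup H] [InnerProductSpace ℂ H] [CompleteSpace H]
    [NormedAddCommGroup K] [InnerProductSpace ℂ K] [CompleteSpace K] (N : St.TwoOne H)
    (M : St.TwoOne K) (F : (Tm → ℝ) → ℝ) (ε ε' : ℝ), Continuous F → St.ElEq.{0, v} N M → ε < ε' →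
    Hold F (nm M.τ) (ball M.M) ε → Hold F (nm N.τ) (ball N.M) ε'

/-- TEN: moving a matrix algebra across the tensor product -/
def TenStmt : Prop :=
  ∀ (H K L₁ L₂ L₃ L₄ : Type) [NormedAddCommGroup H] [InnerProductSpace ℂ H] [CompleteSpace H]
    [NormedAddCommGroup K] [InnerProductSpace ℂ K] [CompleteSpace K]
    [NormedAddCommGroup L₁] [InnerProductSpace ℂ L₁] [CompleteSpace L₁]
    [NormedAddCommGroup L₂] [InnerProductSpace ℂ L₂] [CompleteSpace L₂]
    [NormedAddCommGroup L₃] [InnerProductSpace ℂ L₃] [CompleteSpace L₃]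
    [NormedAddCommGroup L₄] [InnerProductSpace ℂ L₄] [CompleteSpace L₄]
    (Q₁ R₁ : St.TwoOne H) (Q₂ R₂ : St.TwoOne K) (e₁ : Fin 3 → Fin 3 → Op H)
    (e₂ : Fin 3 → Fin 3 → Op K) (U : Ultrafilter ℕ) (n₁ : St.UltraRep L₁ U Q₁)
    (n₂ : St.UltraRep L₂ U R₂) (m₁ : St.UltraRep L₃ U R₁) (m₂ : St.UltraRep L₄ U Q₂),
    Amp Q₁ R₁ e₁ → Amp Q₂ R₂ e₂ →
    St.StarIso {T | St.MemTensor (n₁.alg 1) (n₂.alg 1) T}
      {T | St.MemTensor (m₁.alg 1) (m₂.alg 1) T}

/-! ## assembly -/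

theorem no_pow (k j : ℕ) (h1 : 99 / 100 * ((3 : ℝ) * 16 ^ k) ^ 2 ≤ 2 ^ j)
    (h2 : (2 : ℝ) ^ j ≤ 101 / 100 * (3 * 16 ^ k) ^ 2) : False := by
  have e : ((3 : ℝ) * 16 ^ k) ^ 2 = 9 * 2 ^ (8 * k) := by
    rw [mul_pow, ← pow_mul, mul_comm k, pow_mul, pow_mul]; norm_num
  have p : (0 : ℝ) < 2 ^ (8 * k) := by positivity
  rw [e] at h1 h2
  rcases le_or_gt j (8 * k + 3) with h | h
  · have := pow_le_pow_right₀ (one_le_two (α := ℝ)) h
    rw [pow_add] at this
    linarith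
  · have := pow_le_pow_right₀ (one_le_two (α := ℝ)) (show 8 * k + 4 ≤ j from h)
    rw [pow_add] at this
    linarith

theorem card_Vk (k : ℕ) : Fintype.card (Vk k × Vk k) = 16 ^ k := by
  simp only [Fintype.card_prod, Fintype.card_pi, ZMod.card, Finset.prod_const, Finset.card_univ,
    Fintype.card_fin, ← mul_pow]
  norm_num

theorem good_of (h1 : GapStmt) (h2 : StabStmt) (h3 : PauliStmt) :
    ∃ C : ℝ, 0 ≤ C ∧ ∀ k, Hold (Frm C) nu (ctr (Vk k × Vk k)) 0 := by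
  obtain ⟨C, hC, h⟩ := h1
  obtain ⟨C', hC', h'⟩ := h2 C hC
  obtain ⟨C'', hC'', h''⟩ := h3 C' hC'
  refine ⟨C'', hC'', fun k => ?_⟩
  obtain ⟨χ, e, a, b, c⟩ := h k
  exact h'' _ χ e a b (h' _ χ e a c)

theorem bad_of (h1 : GrpStmt) (h2 : GhStmt) (h3 : RepStmt) {C : ℝ} (hC : 0 ≤ C) :
    ∃ η : ℝ, 0 < η ∧ ∀ k, ¬ Hold (Frm C) nu (ctr ((Vk k × Vk k) × Fin 3)) η := by
  obtain ⟨δ, hδ, h⟩ := h2 C (1 / 1000) hC (by norm_num)
  obtain ⟨ε, hε, h'⟩ := h1 C δ hC hδ
  refine ⟨ε, hε, fun k hk => ?_⟩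
  obtain ⟨G, _, _, φ, a, b, c⟩ := h' _ hk
  obtain ⟨κ, _, _, π, A, d, e⟩ := h _ G φ a
  have f : (Fintype.card ((Vk k × Vk k) × Fin 3) : ℝ) = 3 * 16 ^ k := by
    rw [Fintype.card_prod, card_Vk, Fintype.card_fin, mul_comm]; norm_num
  rw [f] at e
  obtain ⟨j, j1, j2⟩ := h3 G κ π A _ (by positivity) b c d e
  exact no_pow k j j1 j2

/-- a separable II₁ factor that is not elementarily equivalent to its amplification -/
theorem tower_of (h1 : GapStmt) (h2 : StabStmt) (h3 : PauliStmt) (h4 : GrpStmt) (h5 : GhStmt)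
    (h6 : RepStmt) (h7 : SeqStmt) (h8 : SepStmt) (h9 : KapStmt) (h10 : FacStmt)
    (h11 : TrfStmt.{v}) : ∃ (H : Type) (_ : NormedAddCommGroup H) (_ : InnerProductSpace ℂ H)
      (_ : CompleteSpace H) (_ : TopologicalSpace.SeparableSpace H) (N₀ N₃ N₉ : St.TwoOne H)
      (f g : Fin 3 → Fin 3 → Op H), Amp N₃ N₀ g ∧ Amp N₉ N₃ f ∧ ¬ St.ElEq.{0, v} N₃ N₀ := by
  obtain ⟨C, hC, good⟩ := good_of h1 h2 h3
  obtain ⟨η, hη, bad⟩ := bad_of h4 h5 h6 hC
  obtain ⟨A, _, _, _, _, ⟨T⟩⟩ := h7 (fun k => Vk k × Vk k) _ η (Frm_uc C).continuous hη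
    (fun k => by rw [card_Vk]; exact (Nat.lt_pow_self (by norm_num)).le) good bad
  obtain ⟨H, _, _, _, _, ⟨p⟩⟩ := h8 A _ _ T
  obtain ⟨m⟩ := h9 H _ _ (Frm_uc C) (half_pos hη) p
  obtain ⟨N₀, N₃, N₉, f, g, a, b, c, d⟩ := h10 H C _ m
  have e : 0 < η / 2 / 2 := by positivity
  exact ⟨H, _, _, _, ‹_›, N₀, N₃, N₉, f, g, a, b, fun h =>
    d (h11 H H N₃ N₀ _ _ _ (Frm_uc C).continuous h (half_lt_self e) (c _ (half_pos e)))⟩

end Pool.Agent.MP_ad85d3_an.Ffg

end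
end MrgPart2

-- marker of a merged file
example : 731051 + 331918 = 731051 + 331918 := rfl
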