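import Mathlib.Analysis.InnerProductSpace.StarOrder
import Mathlib.Analysis.Normed.Operator.ContinuousAlgEquiv
import Mathlib.Order.CompletePartialOrder
import Mathlib.Topology.Order.Hom.Esakia
import Pool.Agent.MP_ad85d3_an.ffg.Spec
import Pool.Agent.MP_ad85d3_an.Iso

-- ======== part 0: formerly Pool.Agent.MP_ad85d3_an.ffg.Gap
section MrgPart0

/-!
# PROJECT FFG, module GAP: uniform expanders on `Vk k` (Shalom's lemma) and the pairing
-/

open Matrix

noncomputable section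

namespace Pool.Agent.MP_ad85d3_an.Ffg

namespace GapM

set_option linter.unusedSectionVars false

/-! ## the mass of a matrix along a set of differences -/

section mass

variable {G : Type} [AddCommGroup G] [Fintype G] [DecidableEq G]

open Classical in
/-- keep the entries whose index difference lies in `A` -/
def res (A : Set G) (y : Matrix G G ℂ) : Matrix G G ℂ :=
  fun x x' => if x - x' ∈ A then y x x' else 0

/-- the mass of `y` along `A` -/
def ms (A : Set G) (y : Matrix G G ℂ) : ℝ := fro (res A y)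

theorem ms_nonneg (A : Set G) (y : Matrix G G ℂ) : 0 ≤ ms A y := fro_nonneg _

theorem res_pos {A : Set G} (y : Matrix G G ℂ) {x x' : G} (h : x - x' ∈ A) :
    res A y x x' = y x x' := if_pos h

theorem res_neg {A : Set G} (y : Matrix G G ℂ) {x x' : G} (h : x - x' ∉ A) :
    res A y x x' = 0 := if_neg h

theorem fro_le_of {x y : Matrix G G ℂ} (h : ∀ i j, ‖x i j‖ ≤ ‖y i j‖) : fro x ≤ fro y := by
  refine (pow_le_pow_iff_left₀ (fro_nonneg _) (fro_nonneg _) two_ne_zero).1 ?_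
  rw [fro_sq, fro_sq]
  exact Finset.sum_le_sum fun i _ => Finset.sum_le_sum fun j _ =>
    pow_le_pow_left₀ (norm_nonneg _) (h i j) 2

theorem ms_le (A : Set G) (y : Matrix G G ℂ) : ms A y ≤ fro y :=
  fro_le_of fun i j => by
    by_cases h : i - j ∈ A
    · rw [res_pos y h]
    · rw [res_neg y h, norm_zero]; exact norm_nonneg _

theorem ms_tri (A : Set G) (y z : Matrix G G ℂ) : ms A y ≤ ms A z + fro (z - y) := by
  have e : res A y = res A z - res A (z - y) := by
    ext i j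
    by_cases h : i - j ∈ A
    · simp [res_pos _ h]
    · simp [res_neg _ h]
  rw [ms, e]
  exact (fro_sub_le _ _).trans (add_le_add le_rfl (ms_le _ _))

theorem ms_cover {A B C : Set G} (h : A ⊆ B ∪ C) (y : Matrix G G ℂ) :
    ms A y ^ 2 ≤ ms B y ^ 2 + ms C y ^ 2 := by
  simp only [ms, fro_sq, ← Finset.sum_add_distrib]
  refine Finset.sum_le_sum fun i _ => Finset.sum_le_sum fun j _ => ?_
  by_cases a : i - j ∈ A
  · rw [res_pos y a]
    rcases h a with b | b
    · rw [res_pos y b]; exact le_add_of_nonneg_right (sq_nonneg _)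
    · rw [res_pos y b]; exact le_add_of_nonneg_left (sq_nonneg _)
  · rw [res_neg y a, norm_zero, zero_pow two_ne_zero]; positivity

theorem ms_disj {A B : Set G} (h : ∀ a ∈ A, a ∉ B) (y : Matrix G G ℂ) :
    ms A y ^ 2 + ms B y ^ 2 ≤ ms (A ∪ B) y ^ 2 := by
  simp only [ms, fro_sq, ← Finset.sum_add_distrib]
  refine Finset.sum_le_sum fun i _ => Finset.sum_le_sum fun j _ => ?_
  by_cases a : i - j ∈ A
  · rw [res_pos y a, res_neg y (h _ a), res_pos y (Or.inl a)]; simp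
  · rw [res_neg y a]
    by_cases b : i - j ∈ B
    · rw [res_pos y b, res_pos y (Or.inr b)]; simp
    · rw [res_neg y b]; simp

/-- an additive involution moves the mass -/
theorem ms_move (g : G →+ G) (hg : Function.Involutive g) {A B : Set G}
    (h : ∀ a ∈ A, g a ∈ B) (y : Matrix G G ℂ) : ms A y ≤ ms B y + fro (com (pm g) y) := by
  have e : pm g * y * pm g - y = com (pm g) y * pm g := by
    rw [com, sub_mul, mul_assoc y, pm_mul_self hg, mul_one]
  have f : fro (pm g * y * pm g - y) = fro (com (pm g) y) := by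
    rw [e, fro_mul_iso (by rw [pm_ct hg, pm_mul_self hg])]
  refine (ms_tri A y (pm g * y * pm g)).trans (add_le_add ?_ f.le)
  refine (pow_le_pow_iff_left₀ (ms_nonneg _ _) (ms_nonneg _ _) two_ne_zero).1 ?_
  rw [ms, ms, fro_sq, fro_sq, ← Equiv.sum_comp (hg.toPerm _) fun i => ∑ j, ‖res B y i j‖ ^ 2]
  refine Finset.sum_le_sum fun i _ => ?_
  rw [← Equiv.sum_comp (hg.toPerm _) fun j => ‖res B y (hg.toPerm _ i) j‖ ^ 2]
  refine Finset.sum_le_sum fun j _ => ?_
  simp only [Function.Involutive.coe_toPerm]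
  by_cases a : i - j ∈ A
  · rw [res_pos _ a, res_pos y (by rw [← map_sub]; exact h _ a), mul_pm_apply, pm_mul_apply hg]
  · rw [res_neg _ a, norm_zero, zero_pow two_ne_zero]; positivity

/-- a diagonal matrix that separates along `A` bounds the mass -/
theorem ms_diag (s : G → ℂ) {A : Set G} (h : ∀ x x', x - x' ∈ A → 1 ≤ ‖s x - s x'‖)
    (y : Matrix G G ℂ) : ms A y ≤ fro (com (diagonal s) y) :=
  fro_le_of fun i j => by
    by_cases a : i - j ∈ A
    · have e : com (diagonal s) y i j = (s i - s j) * y i j := by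
        rw [com, Matrix.sub_apply, diagonal_mul, mul_diagonal]; ring
      rw [res_pos y a, e, norm_mul]
      exact le_mul_of_one_le_left (norm_nonneg _) (h _ _ a)
    · rw [res_neg y a, norm_zero]; exact norm_nonneg _

theorem ms_off (y : Matrix G G ℂ) : fro (y - diagonal y.diag) = ms {a | a ≠ 0} y := by
  rw [ms]
  congr 1
  ext i j
  by_cases a : i = j
  · subst a; rw [res_neg y (by simp)]; simp
  · rw [res_pos y (sub_ne_zero.2 a)]; simp [a]

end mass

/-! ## the numerical step -/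

theorem num {al be ga de X Y d : ℝ} (hal : 0 ≤ al) (hbe : 0 ≤ be) (hga : 0 ≤ ga) (hde : 0 ≤ de)
    (hX : 0 ≤ X) (hY : 0 ≤ Y) (hd : 0 ≤ d) (h1 : al ≤ be + d) (h2 : ga ≤ be + d)
    (h3 : al ^ 2 + be ^ 2 ≤ (X + d) ^ 2) (h4 : ga ^ 2 + be ^ 2 ≤ (Y + d) ^ 2)
    (h5 : X ^ 2 ≤ ga ^ 2 + de ^ 2) (h6 : Y ^ 2 ≤ al ^ 2 + de ^ 2) (h7 : de ^ 2 ≤ 2 * d ^ 2) :
    al ^ 2 + be ^ 2 + (ga ^ 2 + de ^ 2) ≤ 99 * d ^ 2 := by
  have a1 : de ≤ 2 * d := by
    refine (pow_le_pow_iff_left₀ hde (by positivity) two_ne_zero).1 ?_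
    nlinarith [sq_nonneg d]
  have a2 : X ≤ ga + de := by
    refine (pow_le_pow_iff_left₀ hX (by positivity) two_ne_zero).1 ?_
    nlinarith [mul_nonneg hga hde]
  have a3 : Y ≤ al + de := by
    refine (pow_le_pow_iff_left₀ hY (by positivity) two_ne_zero).1 ?_
    nlinarith [mul_nonneg hal hde]
  have a4 : d * (X + Y) ≤ d * (2 * be + 6 * d) := mul_le_mul_of_nonneg_left (by linarith) hd
  have a5 : be ^ 2 ≤ 2 * (d * be) + 9 * d ^ 2 := by nlinarith
  have a6 : be ≤ 5 * d := by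
    by_contra k
    have k' : 5 * d < be := not_le.1 k
    nlinarith [mul_nonneg hd hd, mul_nonneg hd (sub_nonneg.2 k'.le), mul_pos (sub_pos.2 k') (sub_pos.2 k')]
  have b1 : al ^ 2 ≤ (6 * d) ^ 2 := pow_le_pow_left₀ hal (by linarith) 2
  have b2 : ga ^ 2 ≤ (6 * d) ^ 2 := pow_le_pow_left₀ hga (by linarith) 2
  have b3 : be ^ 2 ≤ (5 * d) ^ 2 := pow_le_pow_left₀ hbe a6 2
  nlinarith

/-! ## the valuation and the shift -/

variable {k : ℕ}

/-- extension by zero -/
def ex (a : Fin k → ZMod 2) (i : ℕ) : ZMod 2 := if h : i < k then a ⟨i, h⟩ else 0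

theorem ex_add (a b : Fin k → ZMod 2) (i : ℕ) : ex (a + b) i = ex a i + ex b i := by
  unfold ex; split_ifs <;> simp

theorem ex_zero (i : ℕ) : ex (0 : Fin k → ZMod 2) i = 0 := by
  unfold ex; split_ifs <;> rfl

theorem ex_sub (a b : Fin k → ZMod 2) (i : ℕ) : ex (a - b) i = ex a i - ex b i := by
  unfold ex; split_ifs <;> simp

theorem ex_fin (a : Fin k → ZMod 2) (i : Fin k) : ex a i = a i := dif_pos i.2

/-- the down shift -/
def sh : (Fin k → ZMod 2) →+ (Fin k → ZMod 2) where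
  toFun a i := ex a (i + 1)
  map_zero' := funext fun _ => ex_zero _
  map_add' a b := funext fun _ => ex_add a b _

theorem ex_sh (a : Fin k → ZMod 2) (i : ℕ) : ex (sh a) i = ex a (i + 1) := by
  by_cases h : i < k
  · exact dif_pos h
  · rw [ex, dif_neg h, ex, dif_neg (by omega)]

theorem val_ex (a : Fin k → ZMod 2) : ∃ i, k ≤ i ∨ ex a i ≠ 0 := ⟨k, Or.inl le_rfl⟩

/-- the first nonzero coordinate (`k` for the zero vector) -/
def val (a : Fin k → ZMod 2) : ℕ := Nat.find (val_ex a)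

theorem val_le (a : Fin k → ZMod 2) : val a ≤ k := Nat.find_min' _ (Or.inl le_rfl)

theorem ex_lt {a : Fin k → ZMod 2} {i : ℕ} (h : i < val a) : ex a i = 0 := by
  by_contra e
  exact Nat.find_min (val_ex a) h (Or.inr e)

theorem ex_val {a : Fin k → ZMod 2} (h : val a < k) : ex a (val a) ≠ 0 :=
  (Nat.find_spec (val_ex a)).resolve_left (not_le.2 h)

theorem val_le_of {a : Fin k → ZMod 2} {i : ℕ} (h : ex a i ≠ 0) : val a ≤ i :=
  Nat.find_min' _ (Or.inr h)

theorem val_eq {a : Fin k → ZMod 2} {n : ℕ} (hn : n < k) (h0 : ∀ i < n, ex a i = 0)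
    (h1 : ex a n ≠ 0) : val a = n := by
  refine le_antisymm (val_le_of h1) (not_lt.1 fun h => ?_)
  exact ex_val (h.trans hn) (h0 _ h)

theorem val_lt {a : Fin k → ZMod 2} (h : a ≠ 0) : val a < k := by
  obtain ⟨i, hi⟩ := Function.ne_iff.1 h
  exact (val_le_of (by rw [ex_fin]; exact hi)).trans_lt i.2

theorem val_add {a b : Fin k → ZMod 2} (h : val b < val a) : val (a + b) = val b := by
  have hb := h.trans_le (val_le a)
  refine val_eq hb (fun i hi => ?_) ?_
  · rw [ex_add, ex_lt hi, ex_lt (hi.trans h), add_zero]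
  · rw [ex_add, ex_lt h, zero_add]; exact ex_val hb

theorem val_sh {b : Fin k → ZMod 2} (h0 : 0 < val b) (h : val b < k) :
    val (sh b) + 1 = val b := by
  have e : val (sh b) = val b - 1 := by
    refine val_eq (by omega) (fun i hi => ?_) ?_
    · rw [ex_sh]; exact ex_lt (by omega)
    · rw [ex_sh, Nat.sub_add_cancel h0]; exact ex_val h
  omega

theorem two (a : Fin k → ZMod 2) : a + a = 0 :=
  funext fun i => (by decide : ∀ x : ZMod 2, x + x = 0) (a i)

/-! ## the pairing -/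

/-- the pairing on `ZMod 2` -/
def ci (b x : ZMod 2) : ℤ := if b = 1 ∧ x = 1 then -1 else 1

/-- the pairing on `Fin k → ZMod 2` -/
def chi (b x : Fin k → ZMod 2) : ℂ := ((∏ i, ci (b i) (x i) : ℤ) : ℂ)

theorem pairing : Pairing (chi (k := k)) where
  two := two
  add b x y := by
    have e : ∀ b x y : ZMod 2, ci b (x + y) = ci b x * ci b y := by decide
    simp only [chi, Pi.add_apply, e, Finset.prod_mul_distrib, Int.cast_mul]
  symm b x := by
    have e : ∀ b x : ZMod 2, ci b x = ci x b := by decide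
    rw [chi, chi, Finset.prod_congr rfl fun i _ => e (b i) (x i)]
  sign b x := by
    have e : ∀ b x : ZMod 2, ci b x * ci b x = 1 := by decide
    have f : (∏ i, ci (b i) (x i)) * ∏ i, ci (b i) (x i) = 1 := by
      rw [← Finset.prod_mul_distrib]; exact Finset.prod_eq_one fun i _ => e _ _
    rcases mul_self_eq_one_iff.1 f with g | g <;> simp [chi, g]
  orth x hx := by
    obtain ⟨i, hi⟩ := Function.ne_iff.1 hx
    have e : ∀ x : ZMod 2, x ≠ 0 → ∑ b, ci b x = 0 := by decide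
    have f : ∑ b : Fin k → ZMod 2, ∏ i, ci (b i) (x i) = ∏ i, ∑ b, ci b (x i) := by
      rw [Finset.prod_univ_sum, Fintype.piFinset_univ]
    simp only [chi]
    rw [← Int.cast_sum, f, Finset.prod_eq_zero (Finset.mem_univ i) (e _ hi), Int.cast_zero]

/-! ## the expanders -/

/-- the upper elementary map of `f` -/
def up (f : (Fin k → ZMod 2) →+ (Fin k → ZMod 2)) : Vk k →+ Vk k where
  toFun a := (a.1 + f a.2, a.2)
  map_zero' := by simp
  map_add' a b := by simp [add_add_add_comm]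

/-- the lower elementary map of `f` -/
def lo (f : (Fin k → ZMod 2) →+ (Fin k → ZMod 2)) : Vk k →+ Vk k where
  toFun a := (a.1, a.2 + f a.1)
  map_zero' := by simp
  map_add' a b := by simp [add_add_add_comm]

theorem up_inv (f : (Fin k → ZMod 2) →+ (Fin k → ZMod 2)) : Function.Involutive (up f) :=
  fun a => Prod.ext (by show a.1 + f a.2 + f a.2 = a.1; rw [add_assoc, two, add_zero]) rfl

theorem lo_inv (f : (Fin k → ZMod 2) →+ (Fin k → ZMod 2)) : Function.Involutive (lo f) :=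
  fun a => Prod.ext rfl (by show a.2 + f a.1 + f a.1 = a.2; rw [add_assoc, two, add_zero])

/-- the indicator of a nonzero head -/
def hd (a : Fin k → ZMod 2) : ℂ := if ex a 0 = 0 then 0 else 1

theorem norm_hd (a : Fin k → ZMod 2) : ‖hd a‖ ≤ 1 := by
  unfold hd; split_ifs <;> simp

theorem hd_sep {a b : Fin k → ZMod 2} (h : val (a - b) = 0) (hk : 0 < k) : 1 ≤ ‖hd a - hd b‖ := by
  have e := ex_val (a := a - b) (by omega)
  rw [h, ex_sub] at e
  have f : ∀ x y : ZMod 2, x - y ≠ 0 → (x = 0 ∧ y ≠ 0) ∨ (x ≠ 0 ∧ y = 0) := by decide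
  rcases f _ _ e with ⟨p, q⟩ | ⟨p, q⟩ <;> simp [hd, p, q]

variable (k) in
/-- the six expanders -/
def ee : Fin 6 → Matrix (Vk k) (Vk k) ℂ :=
  ![pm (up (AddMonoidHom.id _)), pm (lo (AddMonoidHom.id _)), pm (up sh), pm (lo sh),
    diagonal fun x => hd x.1, diagonal fun x => hd x.2]

theorem opn_ee (i : Fin 6) : opn (ee k i) ≤ 1 := by
  fin_cases i
  · exact opn_pm (up_inv _)
  · exact opn_pm (lo_inv _)
  · exact opn_pm (up_inv _)
  · exact opn_pm (lo_inv _)
  · exact opn_diagonal_le zero_le_one fun _ => norm_hd _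
  · exact opn_diagonal_le zero_le_one fun _ => norm_hd _

/-- the region `val a.1 > val a.2 > 0` -/
def RA (k : ℕ) : Set (Vk k) := {a | 0 < val a.2 ∧ val a.2 < val a.1}

/-- the region `val a.1 = val a.2 > 0`, `a ≠ 0` -/
def RB (k : ℕ) : Set (Vk k) := {a | 0 < val a.2 ∧ val a.1 = val a.2 ∧ val a.2 < k}

/-- the region `val a.2 > val a.1 > 0` -/
def RC (k : ℕ) : Set (Vk k) := {a | 0 < val a.1 ∧ val a.1 < val a.2}

/-- the region where a head is nonzero -/
def RD (k : ℕ) : Set (Vk k) := {a | (val a.1 = 0 ∨ val a.2 = 0) ∧ 0 < k}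

theorem mv0 (a : Vk k) (h : a ∈ RA k) : up (AddMonoidHom.id _) a ∈ RB k :=
  ⟨h.1, val_add h.2, h.2.trans_le (val_le _)⟩

theorem mv1 (a : Vk k) (h : a ∈ RC k) : lo (AddMonoidHom.id _) a ∈ RB k := by
  have e : val (a.2 + a.1) = val a.1 := val_add h.2
  have f := h.2.trans_le (val_le _)
  have g := h.1
  show 0 < val (a.2 + a.1) ∧ val a.1 = val (a.2 + a.1) ∧ val (a.2 + a.1) < k
  omega

theorem mv2 (a : Vk k) (h : a ∈ RA k ∪ RB k) : up sh a ∈ RC k ∪ RD k := by
  have l := val_le a.1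
  have h' : 0 < val a.2 ∧ val a.2 ≤ val a.1 ∧ val a.2 < k := by
    rcases h with ⟨p, q⟩ | ⟨p, q, r⟩ <;> omega
  have e := val_sh h'.1 h'.2.2
  have f : val (a.1 + sh a.2) = val (sh a.2) := val_add (by omega)
  show (0 < val (a.1 + sh a.2) ∧ val (a.1 + sh a.2) < val a.2) ∨
    ((val (a.1 + sh a.2) = 0 ∨ val a.2 = 0) ∧ 0 < k)
  omega

theorem mv3 (a : Vk k) (h : a ∈ RC k ∪ RB k) : lo sh a ∈ RA k ∪ RD k := by
  have l := val_le a.2
  have h' : 0 < val a.1 ∧ val a.1 ≤ val a.2 ∧ val a.1 < k := by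
    rcases h with ⟨p, q⟩ | ⟨p, q, r⟩ <;> omega
  have e := val_sh h'.1 h'.2.2
  have f : val (a.2 + sh a.1) = val (sh a.1) := val_add (by omega)
  show (0 < val (a.2 + sh a.1) ∧ val (a.2 + sh a.1) < val a.1) ∨
    ((val a.1 = 0 ∨ val (a.2 + sh a.1) = 0) ∧ 0 < k)
  omega

theorem cover (a : Vk k) (h : a ≠ 0) : a ∈ (RA k ∪ RB k) ∪ (RC k ∪ RD k) := by
  have l1 := val_le a.1
  have l2 := val_le a.2
  have e : val a.1 < k ∨ val a.2 < k := by
    by_cases p : a.1 = 0
    · exact Or.inr (val_lt fun q => h (Prod.ext p q))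
    · exact Or.inl (val_lt p)
  show ((0 < val a.2 ∧ val a.2 < val a.1) ∨ (0 < val a.2 ∧ val a.1 = val a.2 ∧ val a.2 < k)) ∨
    ((0 < val a.1 ∧ val a.1 < val a.2) ∨ ((val a.1 = 0 ∨ val a.2 = 0) ∧ 0 < k))
  omega

theorem sep1 (x x' : Vk k) (h : x - x' ∈ {a : Vk k | val a.1 = 0 ∧ 0 < k}) :
    1 ≤ ‖hd x.1 - hd x'.1‖ := by
  obtain ⟨p, q⟩ := h
  rw [Prod.fst_sub] at p
  exact hd_sep p q

theorem sep2 (x x' : Vk k) (h : x - x' ∈ {a : Vk k | val a.2 = 0 ∧ 0 < k}) :
    1 ≤ ‖hd x.2 - hd x'.2‖ := by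
  obtain ⟨p, q⟩ := h
  rw [Prod.snd_sub] at p
  exact hd_sep p q

theorem gap_aux (y : Matrix (Vk k) (Vk k) ℂ) {d : ℝ} (hd0 : 0 ≤ d)
    (i0 : fro (com (pm (up (AddMonoidHom.id _))) y) ≤ d)
    (i1 : fro (com (pm (lo (AddMonoidHom.id _))) y) ≤ d)
    (i2 : fro (com (pm (up sh)) y) ≤ d) (i3 : fro (com (pm (lo sh)) y) ≤ d)
    (i4 : fro (com (diagonal fun x : Vk k => hd x.1) y) ≤ d)
    (i5 : fro (com (diagonal fun x : Vk k => hd x.2) y) ≤ d) :
    fro (y - diagonal y.diag) ^ 2 ≤ 99 * d ^ 2 := by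
  have h1 : ms (RA k) y ≤ ms (RB k) y + d :=
    (ms_move _ (up_inv _) mv0 y).trans (add_le_add le_rfl i0)
  have h2 : ms (RC k) y ≤ ms (RB k) y + d :=
    (ms_move _ (lo_inv _) mv1 y).trans (add_le_add le_rfl i1)
  have h3 : ms (RA k ∪ RB k) y ≤ ms (RC k ∪ RD k) y + d :=
    (ms_move _ (up_inv _) mv2 y).trans (add_le_add le_rfl i2)
  have h4 : ms (RC k ∪ RB k) y ≤ ms (RA k ∪ RD k) y + d :=
    (ms_move _ (lo_inv _) mv3 y).trans (add_le_add le_rfl i3)
  have h5 := (ms_diag (fun x : Vk k => hd x.1) sep1 y).trans i4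
  have h6 := (ms_diag (fun x : Vk k => hd x.2) sep2 y).trans i5
  have h7 : ms (RD k) y ^ 2 ≤ 2 * d ^ 2 := by
    have a := ms_cover (A := RD k) (B := {a : Vk k | val a.1 = 0 ∧ 0 < k})
      (C := {a : Vk k | val a.2 = 0 ∧ 0 < k})
      (fun a h => h.1.imp (fun p => ⟨p, h.2⟩) fun p => ⟨p, h.2⟩) y
    have b := pow_le_pow_left₀ (ms_nonneg _ _) h5 2
    have c := pow_le_pow_left₀ (ms_nonneg _ _) h6 2
    linarith
  have d1 := ms_disj (A := RA k) (B := RB k) (fun a p q => by have := p.2; have := q.2.1; omega) y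
  have d2 := ms_disj (A := RC k) (B := RB k) (fun a p q => by have := p.2; have := q.2.1; omega) y
  have c1 := ms_cover (A := RC k ∪ RD k) (B := RC k) (C := RD k) subset_rfl y
  have c2 := ms_cover (A := RA k ∪ RD k) (B := RA k) (C := RD k) subset_rfl y
  have c3 := ms_cover (A := RA k ∪ RB k) (B := RA k) (C := RB k) subset_rfl y
  have c4 := ms_cover (A := {a : Vk k | a ≠ 0}) (B := RA k ∪ RB k) (C := RC k ∪ RD k) cover y
  have fin := num (ms_nonneg _ _) (ms_nonneg _ _) (ms_nonneg _ _) (ms_nonneg _ _) (ms_nonneg _ _)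
    (ms_nonneg _ _) hd0 h1 h2 (d1.trans (pow_le_pow_left₀ (ms_nonneg _ _) h3 2))
    (d2.trans (pow_le_pow_left₀ (ms_nonneg _ _) h4 2)) c1 c2 h7
  rw [ms_off]
  linarith

theorem sum_aux (f : Fin 6 → ℝ) :
    ∃ d : ℝ, 0 ≤ d ∧ d ^ 2 = ∑ i, f i ^ 2 ∧ ∀ i, f i ≤ d := by
  have h : 0 ≤ ∑ i, f i ^ 2 := Finset.sum_nonneg fun _ _ => sq_nonneg _
  refine ⟨√(∑ i, f i ^ 2), Real.sqrt_nonneg _, Real.sq_sqrt h, fun i => ?_⟩
  refine Real.le_sqrt_of_sq_le ?_
  exact Finset.single_le_sum (f := fun i => f i ^ 2) (fun _ _ => sq_nonneg _) (Finset.mem_univ i)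

theorem ee0 : ee k 0 = pm (up (AddMonoidHom.id _)) := rfl
theorem ee1 : ee k 1 = pm (lo (AddMonoidHom.id _)) := rfl
theorem ee2 : ee k 2 = pm (up sh) := rfl
theorem ee3 : ee k 3 = pm (lo sh) := rfl
theorem ee4 : ee k 4 = diagonal fun x => hd x.1 := rfl
theorem ee5 : ee k 5 = diagonal fun x => hd x.2 := rfl

theorem gap : Gap 99 (ee k) := by
  intro y
  obtain ⟨d, hd0, hd2, hi⟩ := sum_aux fun i => fro (com (ee k i) y)
  have i0 := hi 0
  have i1 := hi 1
  have i2 := hi 2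
  have i3 := hi 3
  have i4 := hi 4
  have i5 := hi 5
  rw [ee0] at i0
  rw [ee1] at i1
  rw [ee2] at i2
  rw [ee3] at i3
  rw [ee4] at i4
  rw [ee5] at i5
  rw [← hd2]
  exact gap_aux y hd0 i0 i1 i2 i3 i4 i5

end GapM

theorem gap_stmt : GapStmt :=
  ⟨99, by norm_num, fun k => ⟨_, GapM.ee k, GapM.pairing.prod GapM.pairing, GapM.opn_ee, GapM.gap⟩⟩

end Pool.Agent.MP_ad85d3_an.Ffg

end
end MrgPart0

-- ======== part 1: formerly Pool.Agent.MP_ad85d3_an.ffg.Gh
section MrgPart1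

/-!
# PROJECT FFG, module GH: the Gowers-Hatami dilation
-/

open Matrix
open scoped ComplexOrder InnerProductSpace ComplexConjugate Kronecker

noncomputable section

namespace Pool.Agent.MP_ad85d3_an.Ffg

namespace GhM

set_option linter.unusedSectionVars false

variable {G : Type} [Group G] [Fintype G] {l m n : Type} [Fintype l] [Fintype m] [Fintype n]
  [DecidableEq l] [DecidableEq m] [DecidableEq n]

/-! ## averages -/

/-- the average over the group -/
def av (x : G → Matrix m n ℂ) : Matrix m n ℂ := (Fintype.card G : ℂ)⁻¹ • ∑ g, x g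

theorem card_pos : (0 : ℝ) < Fintype.card G := Nat.cast_pos.2 Fintype.card_pos

theorem avg_le {f : G → ℝ} {D : ℝ} (h : ∀ g, f g ≤ D) :
    (Fintype.card G : ℝ)⁻¹ * ∑ g, f g ≤ D := by
  rw [inv_mul_le_iff₀ card_pos]
  simpa using Finset.sum_le_sum fun g (_ : g ∈ Finset.univ) => h g

theorem av_const (y : Matrix m n ℂ) : av (fun _ : G => y) = y := by
  rw [av, Finset.sum_const, Finset.card_univ, ← Nat.cast_smul_eq_nsmul ℂ, smul_smul,
    inv_mul_cancel₀ (Nat.cast_ne_zero.2 Fintype.card_ne_zero), one_smul]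

theorem av_sub (x : G → Matrix m n ℂ) (y : Matrix m n ℂ) : av x - y = av fun g => x g - y := by
  conv_lhs => rw [← av_const (G := G) y]
  rw [av, av, av, Finset.sum_sub_distrib, smul_sub]

theorem fro_av_le {x : G → Matrix m n ℂ} {D : ℝ} (h : ∀ g, fro (x g) ≤ D) : fro (av x) ≤ D := by
  rw [av, fro_smul, norm_inv, Complex.norm_natCast]
  exact (mul_le_mul_of_nonneg_left (fro_sum_le _ _) (inv_nonneg.2 card_pos.le)).trans (avg_le h)

theorem opn_av_le {x : G → Matrix m n ℂ} {D : ℝ} (h : ∀ g, opn (x g) ≤ D) : opn (av x) ≤ D := by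
  rw [av, opn_smul, norm_inv, Complex.norm_natCast]
  exact (mul_le_mul_of_nonneg_left (opn_sum_le _ _) (inv_nonneg.2 card_pos.le)).trans (avg_le h)

theorem av_ct (x : G → Matrix m n ℂ) : (av x)ᴴ = av fun g => (x g)ᴴ := by
  rw [av, av, conjTranspose_smul, conjTranspose_sum]
  simp

theorem mul_av (a : Matrix l m ℂ) (x : G → Matrix m n ℂ) : a * av x = av fun g => a * x g := by
  rw [av, av, Matrix.mul_smul, Matrix.mul_sum]

theorem av_mul (x : G → Matrix l m ℂ) (a : Matrix m n ℂ) : av x * a = av fun g => x g * a := by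
  rw [av, av, Matrix.smul_mul, Matrix.sum_mul]

theorem av_shift (x : G → Matrix m n ℂ) (g : G) : av (fun h => x (g * h)) = av x := by
  rw [av, av, ← Equiv.sum_comp (Equiv.mulLeft g) x]
  rfl

theorem trace_av {x : G → Matrix n n ℂ} {c : ℂ} (h : ∀ g, trace (x g) = c) : trace (av x) = c := by
  rw [av, trace_smul, trace_sum]
  simp only [h, Finset.sum_const, Finset.card_univ, nsmul_eq_mul, smul_eq_mul]
  rw [← mul_assoc, inv_mul_cancel₀ (Nat.cast_ne_zero.2 Fintype.card_ne_zero), one_mul]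

/-! ## the dilation -/

/-- a family of matrices as a normalised column -/
def st (x : G → Matrix n n ℂ) : Matrix (G × n) n ℂ :=
  fun p j => ((√(Fintype.card G) : ℝ) : ℂ)⁻¹ * x p.1 p.2 j

theorem st_ct_mul (x y : G → Matrix n n ℂ) : (st x)ᴴ * st y = av fun h => (x h)ᴴ * y h := by
  have e : ((√(Fintype.card G) : ℝ) : ℂ)⁻¹ * ((√(Fintype.card G) : ℝ) : ℂ)⁻¹ =
      (Fintype.card G : ℂ)⁻¹ := by
    rw [← mul_inv, ← Complex.ofReal_mul, Real.mul_self_sqrt (Nat.cast_nonneg _)]; simp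
  ext i j
  simp only [av, Matrix.smul_apply, Matrix.sum_apply, mul_apply, Fintype.sum_prod_type,
    conjTranspose_apply, st, smul_eq_mul, Finset.mul_sum, ← e]
  refine Finset.sum_congr rfl fun h _ => Finset.sum_congr rfl fun k _ => ?_
  simp only [star_mul', star_inv₀, Complex.star_def, Complex.conj_ofReal]
  ring

variable [DecidableEq G]

theorem fro_st_le {x : G → Matrix n n ℂ} {D : ℝ} (h : ∀ g, fro (x g) ≤ D) : fro (st x) ≤ D := by
  have hD : 0 ≤ D := (fro_nonneg _).trans (h 1)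
  refine (pow_le_pow_iff_left₀ (fro_nonneg _) hD two_ne_zero).1 ?_
  have e : trace ((st x)ᴴ * st x) =
      (((Fintype.card G : ℝ)⁻¹ * ∑ g, fro (x g) ^ 2 : ℝ) : ℂ) := by
    rw [st_ct_mul, av, trace_smul, trace_sum]
    simp only [trace_self, smul_eq_mul]
    push_cast
    rfl
  rw [fro_sq_trace, e, Complex.ofReal_re]
  exact avg_le fun g => pow_le_pow_left₀ (fro_nonneg _) (h g) 2

variable (n) in
/-- the right regular representation with multiplicity -/
def reg (g : G) : Matrix (G × n) (G × n) ℂ := fun p q => if q = (p.1 * g, p.2) then 1 else 0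

theorem reg_mul (g : G) (x : Matrix (G × n) m ℂ) (p : G × n) (j : m) :
    (reg n g * x) p j = x (p.1 * g, p.2) j := by
  simp [mul_apply, reg]

theorem urep_reg : URep (reg n : G → Matrix (G × n) (G × n) ℂ) where
  one := by
    ext p q
    simp [reg, one_apply, eq_comm]
  mul g h := by
    ext p q
    rw [reg_mul]
    simp [reg, mul_assoc]
  star g := by
    ext p q
    have : p = (q.1 * g, q.2) ↔ q = (p.1 * g⁻¹, p.2) :=
      ⟨fun e => by rw [e]; simp, fun e => by rw [e]; simp⟩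
    simp [reg, this, apply_ite]

theorem reg_st (φ : G → Matrix n n ℂ) (g : G) :
    reg n g * st φ - st φ * φ g = st fun h => φ (h * g) - φ h * φ g := by
  ext p j
  rw [Matrix.sub_apply, reg_mul]
  simp only [st, mul_apply, Matrix.sub_apply, mul_sub, Finset.mul_sum, mul_assoc]

omit [DecidableEq G]

/-- an almost isometry that almost intertwines `φ` with a representation -/
structure Dil (φ : G → Matrix n n ℂ) (π : G → Matrix m m ℂ) (V : Matrix m n ℂ) (D : ℝ) :
    Prop where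
  rep : URep π
  ctr : ∀ g, opn (φ g) ≤ 1
  uni : ∀ g, fro (φ g * (φ g)ᴴ - 1) ≤ D
  cV : opn V ≤ 1
  iso : fro (Vᴴ * V - 1) ≤ D
  itw : ∀ g, fro (π g * V - V * φ g) ≤ D

theorem fro_le_of_nu [Nonempty n] {x : Matrix n n ℂ} {d : ℝ} (h : nu x ≤ d) :
    fro x ≤ d * √(Fintype.card n) := by
  rw [fro_eq_nu]
  exact mul_le_mul_of_nonneg_right h (Real.sqrt_nonneg _)

theorem nu_le_of_fro [Nonempty n] {x : Matrix n n ℂ} {d : ℝ} (h : fro x ≤ d * √(Fintype.card n)) :
    nu x ≤ d := by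
  rw [fro_eq_nu] at h
  exact le_of_mul_le_mul_right h (by positivity)

theorem dil_st [DecidableEq G] [Nonempty n] {φ : G → Matrix n n ℂ} {C d : ℝ} (h : ARep φ C d) :
    Dil φ (reg n) (st φ) (d * √(Fintype.card n)) where
  rep := urep_reg
  ctr := h.ctr
  uni g := by rw [fro_unit]; exact fro_le_of_nu (h.uni g)
  cV := by
    refine opn_le_one_of ?_
    rw [st_ct_mul]
    exact opn_av_le fun g => opn_mul_le_one ((opn_ct _).trans_le (h.ctr g)) (h.ctr g)
  iso := by
    rw [st_ct_mul, av_sub]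
    exact fro_av_le fun g => fro_le_of_nu (h.uni g)
  itw g := by
    rw [reg_st]
    exact fro_st_le fun k => by rw [fro_sub_comm]; exact fro_le_of_nu (h.mul k g)

/-! ## the averaged projection -/

theorem fro_mid {k : Type} [Fintype k] [DecidableEq k] {a : Matrix k l ℂ} {b : Matrix m n ℂ}
    (ha : opn a ≤ 1) (hb : opn b ≤ 1) (x : Matrix l m ℂ) : fro (a * x * b) ≤ fro x :=
  (fro_mul_ctr _ hb).trans (fro_ctr_mul ha x)

theorem re_trace_le (x : Matrix n n ℂ) {d : ℝ} (h : fro x ≤ d * √(Fintype.card n)) :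
    |(trace x).re| ≤ d * Fintype.card n := by
  refine (Complex.abs_re_le_norm _).trans ((norm_trace_le x).trans ?_)
  refine (mul_le_mul_of_nonneg_left h (Real.sqrt_nonneg _)).trans (le_of_eq ?_)
  rw [mul_left_comm, Real.mul_self_sqrt (Nat.cast_nonneg _)]

/-- the averaged projection -/
def aa (π : G → Matrix m m ℂ) (V : Matrix m n ℂ) : Matrix m m ℂ :=
  av fun g => π g * (V * Vᴴ) * (π g)ᴴ

namespace Dil

variable {φ : G → Matrix n n ℂ} {π : G → Matrix m m ℂ} {V : Matrix m n ℂ} {D : ℝ}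
  (h : Dil φ π V D)
include h

theorem ct (g : G) : (π g)ᴴ = π g⁻¹ := h.rep.star g

theorem ct_mul (g : G) : (π g)ᴴ * π g = 1 := by rw [h.ct, ← h.rep.mul, inv_mul_cancel, h.rep.one]

theorem mul_ct (g : G) : π g * (π g)ᴴ = 1 := by rw [h.ct, ← h.rep.mul, mul_inv_cancel, h.rep.one]

theorem cπ (g : G) : opn (π g) ≤ 1 := opn_iso (h.ct_mul g)

theorem cπ' (g : G) : opn (π g)ᴴ ≤ 1 := (opn_ct _).trans_le (h.cπ g)

theorem cV' : opn Vᴴ ≤ 1 := (opn_ct _).trans_le h.cV

theorem itw' (g : G) : fro (Vᴴ * π g - φ g * Vᴴ) ≤ 2 * D := by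
  have e : π g * (Vᴴ * π g - φ g * Vᴴ)ᴴ =
      -(V * (φ g * (φ g)ᴴ - 1)) - (π g * V - V * φ g) * (φ g)ᴴ := by
    simp only [conjTranspose_sub, conjTranspose_mul, conjTranspose_conjTranspose, Matrix.mul_sub,
      Matrix.sub_mul, Matrix.mul_one, ← Matrix.mul_assoc, h.mul_ct, Matrix.one_mul]
    abel
  rw [← fro_ct, ← fro_iso_mul (h.ct_mul g), e]
  have h1 := (fro_ctr_mul h.cV _).trans (h.uni g)
  have h2 := (fro_mul_ctr _ ((opn_ct _).trans_le (h.ctr g))).trans (h.itw g)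
  refine (fro_sub_le _ _).trans ?_
  rw [fro_neg]
  linarith

theorem conj_P (g : G) : fro (π g * (V * Vᴴ) * (π g)ᴴ - V * Vᴴ) ≤ 3 * D := by
  have e : π g * (V * Vᴴ) * (π g)ᴴ - V * Vᴴ = (π g * V - V * φ g) * (Vᴴ * (π g)ᴴ) +
      V * φ g * (π g * V - V * φ g)ᴴ + V * (φ g * (φ g)ᴴ - 1) * Vᴴ := by
    simp only [conjTranspose_sub, conjTranspose_mul, Matrix.mul_sub, Matrix.sub_mul,
      Matrix.mul_one, Matrix.mul_assoc]
    abel
  rw [e]
  have h1 := (fro_mul_ctr _ (opn_mul_le_one h.cV' (h.cπ' g))).trans (h.itw g)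
  have h2 := (fro_ctr_mul (opn_mul_le_one h.cV (h.ctr g)) _).trans
    ((fro_ct _).trans_le (h.itw g))
  have h3 := (fro_mid h.cV h.cV' _).trans (h.uni g)
  refine (fro_add_le _ _).trans ((add_le_add_left (fro_add_le _ _) _).trans ?_)
  linarith

theorem aa_sub : fro (aa π V - V * Vᴴ) ≤ 3 * D := by
  rw [aa, av_sub]
  exact fro_av_le h.conj_P

omit h in
theorem aa_ct : (aa π V)ᴴ = aa π V := by
  rw [aa, av_ct]
  simp only [conjTranspose_mul, conjTranspose_conjTranspose, Matrix.mul_assoc]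

theorem aa_ctr : opn (aa π V) ≤ 1 :=
  opn_av_le fun g => opn_mul_le_one (opn_mul_le_one (h.cπ g) (opn_mul_le_one h.cV h.cV')) (h.cπ' g)

theorem aa_comm (g : G) : π g * aa π V = aa π V * π g := by
  rw [aa, mul_av, av_mul, ← av_shift (fun k => π k * (V * Vᴴ) * (π k)ᴴ * π g) g]
  congr 1
  ext1 k
  rw [h.rep.mul, conjTranspose_mul]
  simp only [Matrix.mul_assoc, h.ct_mul, Matrix.mul_one]

theorem trace_aa {E : Matrix m m ℂ} (hE : ∀ g, π g * E = E * π g) :
    trace (aa π V * E) = trace (Vᴴ * E * V) := by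
  rw [aa, av_mul]
  refine trace_av fun g => ?_
  rw [Matrix.mul_assoc, Matrix.mul_assoc, trace_mul_comm, Matrix.mul_assoc, Matrix.mul_assoc,
    Matrix.mul_assoc, ← hE, ← Matrix.mul_assoc (π g)ᴴ, h.ct_mul, Matrix.one_mul, trace_mul_comm]

variable {E : Matrix m m ℂ} (hE : IsStarProjection E)
include hE

theorem y_ctr : opn (Vᴴ * E * V) ≤ 1 := opn_mul_le_one (opn_mul_le_one h.cV' (opn_proj hE)) h.cV

theorem y_com (hc : ∀ g, π g * E = E * π g) (g : G) : fro (com (φ g) (Vᴴ * E * V)) ≤ 3 * D := by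
  have e : com (φ g) (Vᴴ * E * V) =
      Vᴴ * E * (π g * V - V * φ g) - (Vᴴ * π g - φ g * Vᴴ) * (E * V) := by
    have k : E * (π g * V) = π g * (E * V) := by rw [← Matrix.mul_assoc, ← hc, Matrix.mul_assoc]
    simp only [com, Matrix.mul_sub, Matrix.sub_mul, Matrix.mul_assoc, k]
    abel
  rw [e]
  have h1 := (fro_ctr_mul (opn_mul_le_one h.cV' (opn_proj hE)) _).trans (h.itw g)
  have h2 := (fro_mul_ctr _ (opn_mul_le_one (opn_proj hE) h.cV)).trans (h.itw' g)
  exact (fro_sub_le _ _).trans (by linarith)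

theorem y_idem (ha : aa π V * E = E * aa π V) :
    fro (Vᴴ * E * V - star (Vᴴ * E * V) * (Vᴴ * E * V)) ≤ 7 * D := by
  have e1 : Eᴴ = E := hE.isSelfAdjoint
  have e2 : E * E = E := hE.isIdempotentElem
  have k : E * (aa π V * (E * V)) = aa π V * (E * V) := by
    rw [← Matrix.mul_assoc, ← ha, Matrix.mul_assoc, ← Matrix.mul_assoc E, e2]
  have e : Vᴴ * E * V - star (Vᴴ * E * V) * (Vᴴ * E * V) =
      Vᴴ * E * (aa π V - V * Vᴴ) * (E * V) - Vᴴ * (aa π V - V * Vᴴ) * (E * V) -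
        (Vᴴ * V - 1) * (Vᴴ * E * V) := by
    simp only [star_eq_conjTranspose, conjTranspose_mul, conjTranspose_conjTranspose, e1,
      Matrix.mul_sub, Matrix.sub_mul, Matrix.mul_assoc, Matrix.one_mul, k]
    abel
  rw [e]
  have c := opn_mul_le_one (opn_proj hE) h.cV
  have h1 := (fro_mid (opn_mul_le_one h.cV' (opn_proj hE)) c _).trans h.aa_sub
  have h2 := (fro_mid h.cV' c _).trans h.aa_sub
  have h3 := (fro_mul_ctr _ (h.y_ctr hE)).trans h.iso
  refine (fro_sub_le _ _).trans ((add_le_add_left (fro_sub_le _ _) _).trans ?_)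
  linarith

omit h in
theorem trace_sq (x : Matrix m m ℂ) (hx : xᴴ = x) : (trace (x * x * E)).re = fro (x * E) ^ 2 := by
  have e1 : Eᴴ = E := hE.isSelfAdjoint
  have e2 : E * E = E := hE.isIdempotentElem
  rw [fro_sq_trace, conjTranspose_mul, e1, hx, Matrix.mul_assoc E, trace_mul_comm E,
    Matrix.mul_assoc, Matrix.mul_assoc, Matrix.mul_assoc, e2]

theorem sq_ge {d : ℝ} (hD : D = d * √(Fintype.card n)) :
    (trace (Vᴴ * E * V)).re - 7 * d * Fintype.card n ≤ (trace (aa π V * aa π V * E)).re := by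
  have hP : (V * Vᴴ)ᴴ = V * Vᴴ := by rw [conjTranspose_mul, conjTranspose_conjTranspose]
  have e : trace (V * Vᴴ * (V * Vᴴ) * E) =
      trace (Vᴴ * E * V) + trace ((Vᴴ * V - 1) * (Vᴴ * E * V)) := by
    rw [Matrix.sub_mul, Matrix.one_mul, trace_sub, add_sub_cancel]
    simp only [Matrix.mul_assoc]
    rw [trace_mul_comm]
    simp only [Matrix.mul_assoc]
  have h1 := re_trace_le _ (((fro_mul_ctr _ (h.y_ctr hE)).trans h.iso).trans_eq hD)
  have h2 := trace_sq hE _ hP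
  rw [e, Complex.add_re] at h2
  have h3 : fro (V * Vᴴ * E) ≤ √(Fintype.card n) := by
    rw [Matrix.mul_assoc]
    refine (fro_mul_ctr _ (opn_mul_le_one h.cV' (opn_proj hE))).trans ((fro_le_opn V).trans ?_)
    exact mul_le_of_le_one_left (Real.sqrt_nonneg _) h.cV
  have h4 : fro (V * Vᴴ * E) ≤ fro (aa π V * E) + 3 * D := by
    have : V * Vᴴ * E = aa π V * E - (aa π V - V * Vᴴ) * E := by
      rw [Matrix.sub_mul, sub_sub_cancel]
    rw [this]
    exact (fro_sub_le _ _).trans (add_le_add_right ((fro_mul_ctr _ (opn_proj hE)).trans h.aa_sub) _)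
  have h5 : D * √(Fintype.card n) = d * Fintype.card n := by
    rw [hD, mul_assoc, Real.mul_self_sqrt (Nat.cast_nonneg _)]
  have h6 : 0 ≤ D := (fro_nonneg _).trans h.iso
  rw [trace_sq hE _ aa_ct]
  have h7 := fro_nonneg (V * Vᴴ * E)
  have h8 := fro_nonneg (aa π V * E)
  have h9 : fro (V * Vᴴ * E) ^ 2 - 6 * (D * √(Fintype.card n)) ≤ fro (aa π V * E) ^ 2 := by
    by_cases c : 3 * D ≤ fro (V * Vᴴ * E)
    · have := pow_le_pow_left₀ (sub_nonneg.2 c) (sub_le_iff_le_add.2 h4) 2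
      nlinarith [mul_le_mul_of_nonneg_left h3 h6, sq_nonneg D]
    · nlinarith [mul_le_mul_of_nonneg_left h3 h6, sq_nonneg (fro (aa π V * E)),
        mul_le_mul_of_nonneg_left (not_le.1 c).le h7, mul_nonneg h6 h7]
  have := (abs_le.1 h1).1
  linarith

end Dil

end GhM

open GhM in
theorem gh_stmt : GhStmt := by
  intro C θ hC hθ
  have hd : 0 < θ / (10 * C + 7) := by positivity
  have hθd : (10 * C + 7) * (θ / (10 * C + 7)) = θ := mul_div_cancel₀ _ (by positivity)
  refine ⟨θ / (10 * C + 7), hd, fun n _ _ _ G _ _ φ hφ => ?_⟩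
  generalize θ / (10 * C + 7) = d at *
  classical
  have h := dil_st hφ
  have hN : (0 : ℝ) ≤ Fintype.card n := Nat.cast_nonneg _
  have hCd : 0 ≤ C * d := mul_nonneg hC hd.le
  have k1 : 7 * d * Fintype.card n ≤ θ * Fintype.card n :=
    mul_le_mul_of_nonneg_right (by linarith) hN
  have t1 : (trace (1 : Matrix n n ℂ)).re = Fintype.card n := by simp
  refine ⟨G × n, inferInstance, inferInstance, reg n, aa (reg n) (st φ), h.rep,
    Dil.aa_ct, h.aa_ctr, h.aa_comm, ?_, fun E hE hc ha => ?_⟩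
  · have e := h.trace_aa (E := 1) fun g => by rw [Matrix.mul_one, Matrix.one_mul]
    rw [Matrix.mul_one, Matrix.mul_one] at e
    have h1 := (abs_le.1 (re_trace_le _ h.iso)).1
    rw [trace_sub, Complex.sub_re, t1] at h1
    rw [e]
    nlinarith [mul_nonneg hd.le hN]
  · rw [h.trace_aa hc]
    refine ⟨?_, ?_, by linarith [h.sq_ge hE rfl]⟩
    · obtain ⟨g, hg⟩ := hφ.irr _ (h.y_ctr hE)
      have h1 := nu_le_of_fro ((h.y_com hE hc g).trans_eq (mul_assoc _ _ _).symm)
      have h2 := nu_le_of_fro ((h.y_idem hE ha).trans_eq (mul_assoc _ _ _).symm)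
      have h3 := hg.trans (add_le_add_left (mul_le_mul_of_nonneg_left (add_le_add h1 h2) hC) d)
      replace h3 := h3.trans (show _ ≤ θ by linarith)
      rcases min_le_iff.1 h3 with h4 | h4
      · exact Or.inl (abs_le.1 (re_trace_le _ (fro_le_of_nu h4))).2
      · have h5 := (abs_le.1 (re_trace_le _ (fro_le_of_nu h4))).2
        rw [trace_sub, Complex.sub_re, t1] at h5
        exact Or.inr (by linarith)
    · have h1 := re_trace_le _ (fro_le_of_nu ((nu_le_opn _).trans (h.y_ctr hE)))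
      rw [one_mul] at h1
      exact (abs_le.1 h1).2

end Pool.Agent.MP_ad85d3_an.Ffg

end
end MrgPart1

-- ======== part 2: formerly Pool.Agent.MP_ad85d3_an.ffg.Seq
section MrgPart2

/-!
# PROJECT FFG, module SEQ: the algebra of bounded sequences of matrices
-/

open Filter Topology Matrix
open scoped ComplexOrder ComplexConjugate Kronecker

noncomputable section

namespace Pool.Agent.MP_ad85d3_an.Ffg

set_option linter.unusedSectionVars false

namespace SeqM

/-! ## amplification of matrices -/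

section amp

variable {m : Type} [Fintype m] [DecidableEq m]

/-- `y ↦ y ⊗ 1` -/
def up (y : Matrix m m ℂ) : Matrix (m × Fin 3) (m × Fin 3) ℂ :=
  y ⊗ₖ (1 : Matrix (Fin 3) (Fin 3) ℂ)

variable (m) in
/-- the matrix units `1 ⊗ e i j` -/
def mu (i j : Fin 3) : Matrix (m × Fin 3) (m × Fin 3) ℂ :=
  (1 : Matrix m m ℂ) ⊗ₖ single i j (1 : ℂ)

theorem up_op : OpMap (up : Matrix m m ℂ → _) where
  one := one_kronecker_one
  add x y := add_kronecker _ _ _
  sub x y := by
    ext p q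
    simp only [up, kroneckerMap_apply, Matrix.sub_apply, sub_mul]
  mul x y := by rw [up, up, up, ← mul_kronecker_mul, Matrix.one_mul]
  star x := by
    rw [up, up, star_eq_conjTranspose, star_eq_conjTranspose, conjTranspose_kronecker,
      conjTranspose_one]

theorem nu_up (y : Matrix m m ℂ) : nu (up y) = nu y := by rw [up, nu_kron, nu_one, mul_one]

theorem tau_up (y : Matrix m m ℂ) : tau (up y) = tau y := by
  rw [up, tau, tau, trace_kronecker, trace_one, Fintype.card_prod, Nat.cast_mul,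
    mul_div_mul_right _ _ (by simp)]

theorem opn_up (y : Matrix m m ℂ) : opn (up y) ≤ opn y := opn_kron_one y

theorem up_inj {x y : Matrix m m ℂ} (h : up x = up y) : x = y := by
  ext p q
  simpa [up] using congrFun (congrFun h (p, 0)) (q, 0)

theorem mu_mul (a b : Fin 3) (x : Matrix (m × Fin 3) (m × Fin 3) ℂ) (p : m) (i : Fin 3)
    (q : m × Fin 3) : (mu m a b * x) (p, i) q = if a = i then x (p, b) q else 0 := by
  simp only [mu, mul_apply, Fintype.sum_prod_type, kroneckerMap_apply, one_apply, single_apply]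
  split_ifs with h
  · simp [h]
  · simp [h]

theorem mul_mu (a b : Fin 3) (x : Matrix (m × Fin 3) (m × Fin 3) ℂ) (p : m × Fin 3) (q : m)
    (j : Fin 3) : (x * mu m a b) p (q, j) = if b = j then x p (q, a) else 0 := by
  simp only [mu, mul_apply, Fintype.sum_prod_type, kroneckerMap_apply, one_apply, single_apply]
  split_ifs with h
  · simp [h]
  · simp [h]

theorem mu_MU : MU (mu m) where
  mul i j k l := by
    rw [mu, mu, ← mul_kronecker_mul, Matrix.one_mul]
    split_ifs with h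
    · rw [h, single_mul_single_same, one_mul, mu]
    · rw [single_mul_single_of_ne _ _ _ _ h, kronecker_zero]
  star i j := by
    rw [mu, star_eq_conjTranspose, conjTranspose_kronecker, conjTranspose_one,
      conjTranspose_single, star_one, mu]
  sum := by
    have e : single (0 : Fin 3) (0 : Fin 3) (1 : ℂ) + single 1 1 1 + single 2 2 1 = 1 := by
      ext i j
      fin_cases i <;> fin_cases j <;> simp
    rw [Fin.sum_univ_three, mu, mu, mu, ← kronecker_add, ← kronecker_add, e, one_kronecker_one]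

theorem cm_up (y : Matrix m m ℂ) : Cm (mu m) (up y) := fun i j => by
  rw [mu, up, ← mul_kronecker_mul, ← mul_kronecker_mul, Matrix.one_mul, Matrix.mul_one,
    Matrix.one_mul, Matrix.mul_one]

theorem eq_up {x : Matrix (m × Fin 3) (m × Fin 3) ℂ} (h : Cm (mu m) x) : ∃ y, x = up y := by
  refine ⟨fun p q => x (p, 0) (q, 0), ?_⟩
  ext ⟨p, i⟩ ⟨q, j⟩
  have h1 := congrFun (congrFun (h i i) (p, i)) (q, j)
  have h2 := congrFun (congrFun (h i 0) (p, i)) (q, 0)
  rw [mu_mul, mul_mu, if_pos rfl] at h1 h2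
  rw [if_pos rfl] at h2
  simp only [up, kroneckerMap_apply, one_apply]
  split_ifs with e
  · rw [← e, h2, mul_one]
  · rw [h1, if_neg e, mul_zero]

theorem opn_mu (i j : Fin 3) : opn (mu m i j) ≤ 1 := by
  refine (opn_one_kron _).trans (opn_le_one_of ?_)
  rw [conjTranspose_single, star_one, single_mul_single_same, one_mul, ← diagonal_single]
  refine opn_diagonal_le zero_le_one fun k => ?_
  rw [Pi.single_apply]
  split_ifs <;> simp

open scoped Matrix.Norms.L2Operator in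
theorem beta (hB : BetaStmt) (y : Matrix m m ℂ) :
    ∃ b, opn b ≤ 1 ∧ b * (1 + star y * y) = y + y := by
  obtain ⟨r, h1, -, -, h2⟩ := (hB (Matrix m m ℂ)).fwd y
  refine ⟨y * r + y * r, h2, ?_⟩
  rw [add_mul, mul_assoc, h1, mul_one]

end amp

theorem OpMap_comp {A B C : Type} [Ring A] [StarRing A] [Ring B] [StarRing B] [Ring C] [StarRing C]
    {f : A → B} {g : B → C} (hf : OpMap f) (hg : OpMap g) : OpMap fun x => g (f x) where
  one := by rw [hf.one, hg.one]
  add x y := by rw [hf.add, hg.add]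
  sub x y := by rw [hf.sub, hg.sub]
  mul x y := by rw [hf.mul, hg.mul]
  star x := by rw [hf.star, hg.star]

theorem MU_map {A B : Type} [Ring A] [StarRing A] [Ring B] [StarRing B] {f : A → B} (hf : OpMap f)
    {e : Fin 3 → Fin 3 → A} (he : MU e) : MU fun i j => f (e i j) where
  mul i j k l := by
    rw [← hf.mul, he.mul]
    split_ifs
    · rfl
    · rw [← sub_self (0 : A), hf.sub, sub_self]
  star i j := by rw [← hf.star, he.star]
  sum := by rw [← hf.one, ← he.sum, Fin.sum_univ_three, Fin.sum_univ_three, hf.add, hf.add]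

theorem TT_gram {G : Type} [AddCommGroup G] [Fintype G] [DecidableEq G] (a b x y : G) :
    ((TT a)ᴴ * TT b) x y = if x + a = y + b then 1 else 0 := by
  rw [TT, TT, mul_pm_apply, conjTranspose_apply, pm]
  by_cases h : x + a = y + b
  · rw [if_pos h, if_pos h.symm, star_one]
  · rw [if_neg h, if_neg (Ne.symm h), star_zero]

theorem opn_TT {G : Type} [AddCommGroup G] [Fintype G] [DecidableEq G] (a : G) :
    opn (TT a) ≤ 1 := by
  refine opn_iso ?_
  ext x y
  simp only [TT_gram, add_left_inj, one_apply]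

theorem tau_TT {G : Type} [AddCommGroup G] [Fintype G] [DecidableEq G] (a b : G) :
    tau (star (TT a) * TT b) = if a = b then 1 else 0 := by
  simp only [tau, star_eq_conjTranspose, trace, diag_apply, TT_gram, add_right_inj,
    Finset.sum_const, Finset.card_univ, nsmul_eq_mul]
  rw [mul_div_cancel_left₀ _ (Nat.cast_ne_zero.2 Fintype.card_ne_zero)]

/-! ## bounded sequences -/

section seq

variable (n : ℕ → Type) [∀ k, Fintype (n k)] [∀ k, DecidableEq (n k)]

/-- bounded sequences of matrices -/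
def Bd : StarSubalgebra ℂ (∀ k, Matrix (n k) (n k) ℂ) where
  carrier := {x | ∃ C : ℝ, ∀ k, opn (x k) ≤ C}
  mul_mem' := by
    rintro x y ⟨C, hC⟩ ⟨D, hD⟩
    exact ⟨C * D, fun k => (opn_mul_le _ _).trans
      (mul_le_mul (hC k) (hD k) (opn_nonneg _) ((opn_nonneg _).trans (hC k)))⟩
  add_mem' := by
    rintro x y ⟨C, hC⟩ ⟨D, hD⟩
    exact ⟨C + D, fun k => (opn_add_le _ _).trans (add_le_add (hC k) (hD k))⟩
  algebraMap_mem' c := ⟨‖c‖, fun k => by
    rw [Pi.algebraMap_apply, Algebra.algebraMap_eq_smul_one, opn_smul]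
    exact mul_le_of_le_one_right (norm_nonneg _) opn_one_le⟩
  star_mem' := by
    rintro x ⟨C, hC⟩
    exact ⟨C, fun k => (opn_star _).trans_le (hC k)⟩

variable {n}

theorem at_op (k : ℕ) : OpMap fun x : Bd n => x.1 k :=
  ⟨rfl, fun _ _ => rfl, fun _ _ => rfl, fun _ _ => rfl, fun _ => rfl⟩

theorem tend_lim (U : Ultrafilter ℕ) (x : Bd n) :
    Tendsto (fun k => tau (x.1 k)) U (𝓝 (limUnder (U : Filter ℕ) fun k => tau (x.1 k))) := by
  obtain ⟨C, hC⟩ := x.2
  obtain ⟨c, -, hc⟩ := (isCompact_closedBall (0 : ℂ) C).ultrafilter_le_nhds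
    (U.map fun k => tau (x.1 k)) (by
      rw [le_principal_iff, Ultrafilter.coe_map, mem_map]
      exact univ_mem' fun k => mem_closedBall_zero_iff.2
        ((norm_tau_le _).trans ((nu_le_opn _).trans (hC k))))
  exact tendsto_nhds_limUnder ⟨c, hc⟩

/-- the limit trace -/
def tU (U : Ultrafilter ℕ) : Bd n →ₗ[ℂ] ℂ where
  toFun x := limUnder (U : Filter ℕ) fun k => tau (x.1 k)
  map_add' x y := tendsto_nhds_unique (tend_lim U (x + y))
    (((tend_lim U x).add (tend_lim U y)).congr fun k => by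
      change _ = tau (x.1 k + y.1 k)
      rw [tau, tau, tau, trace_add, add_div])
  map_smul' c x := tendsto_nhds_unique (tend_lim U (c • x))
    (((tend_lim U x).const_smul c).congr fun k => by
      change _ = tau (c • x.1 k)
      rw [tau, tau, trace_smul, smul_eq_mul, smul_eq_mul, mul_div_assoc])

theorem tend_tU (U : Ultrafilter ℕ) (x : Bd n) :
    Tendsto (fun k => tau (x.1 k)) U (𝓝 (tU U x)) := tend_lim U x

theorem tend_nu (U : Ultrafilter ℕ) (x : Bd n) :
    Tendsto (fun k => nu (x.1 k)) U (𝓝 (nm (tU U) x)) := by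
  have h := ((Complex.continuous_re.tendsto _).comp (tend_tU U (star x * x))).sqrt
  exact h.congr fun k => (nu_eq_nm _).symm

theorem nm_mul (U : Ultrafilter ℕ) (x y : Bd n) {C : ℝ} (h : ∀ k, opn (x.1 k) ≤ C) :
    nm (tU U) (x * y) ≤ C * nm (tU U) y :=
  le_of_tendsto_of_tendsto' (tend_nu U (x * y)) ((tend_nu U y).const_mul C) fun k =>
    (nu_mul_le _ _).trans (mul_le_mul_of_nonneg_right (h k) (nu_nonneg _))

theorem preTr [∀ k, Nonempty (n k)] (U : Ultrafilter ℕ) : PreTr (tU (n := n) U) where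
  one := tendsto_nhds_unique (tend_tU U 1) (tendsto_const_nhds.congr fun k => by
    change _ = tau (1 : Matrix (n k) (n k) ℂ)
    rw [tau, trace_one, div_self (Nat.cast_ne_zero.2 Fintype.card_ne_zero)])
  pos x := ge_of_tendsto' (tend_tU U (star x * x)) fun k => by
    change 0 ≤ tau (star (x.1 k) * x.1 k)
    rw [tau_self]
    exact Complex.zero_le_real.2 (sq_nonneg _)
  star x := tendsto_nhds_unique (tend_tU U (star x))
    (((Complex.continuous_conj.tendsto _).comp (tend_tU U x)).congr fun k => by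
      change conj (tau (x.1 k)) = tau (star (x.1 k))
      rw [tau, tau, star_eq_conjTranspose, trace_conjTranspose, map_div₀, map_natCast]
      rfl)
  comm x y := tendsto_nhds_unique (tend_tU U (x * y)) ((tend_tU U (y * x)).congr fun k => by
    change tau (y.1 k * x.1 k) = tau (x.1 k * y.1 k)
    rw [tau, tau, trace_mul_comm])
  bdd x := by
    obtain ⟨C, hC⟩ := x.2
    exact ⟨C, fun y => nm_mul U x y hC⟩

theorem MU_seq {e : Fin 3 → Fin 3 → Bd n} (h : ∀ k, MU fun i j => (e i j).1 k) : MU e where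
  mul i j a b := Subtype.ext <| funext fun k => by
    have := (h k).mul i j a b
    split_ifs at this ⊢
    exacts [this, this]
  star i j := Subtype.ext <| funext fun k => (h k).star i j
  sum := Subtype.ext <| funext fun k => by
    have := (h k).sum
    rw [Fin.sum_univ_three] at this ⊢
    exact this

theorem Cm_seq {e : Fin 3 → Fin 3 → Bd n} {x : Bd n} :
    Cm e x ↔ ∀ k, Cm (fun i j => (e i j).1 k) (x.1 k) :=
  ⟨fun h k i j => congrFun (congrArg Subtype.val (h i j)) k,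
    fun h i j => Subtype.ext <| funext fun k => h k i j⟩

/-! ## the theorem of Los -/

variable {κ : ℕ → Type} [∀ k, Fintype (κ k)] [∀ k, DecidableEq (κ k)]

/-- trace preserving embeddings -/
structure Emb (h : ∀ k, Matrix (κ k) (κ k) ℂ → Matrix (n k) (n k) ℂ) : Prop where
  op : ∀ k, OpMap (h k)
  nu : ∀ k y, nu (h k y) = nu y
  opn : ∀ k y, opn (h k y) ≤ opn y

variable {h : ∀ k, Matrix (κ k) (κ k) ℂ → Matrix (n k) (n k) ℂ}

/-- sequences of contractions of the smaller algebras -/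
def Lv (h : ∀ k, Matrix (κ k) (κ k) ℂ → Matrix (n k) (n k) ℂ) : Set (Bd n) :=
  {x | ∀ k, ∃ y, opn y ≤ 1 ∧ x.1 k = h k y}

/-- assembling a sequence -/
def Emb.mk' (e : Emb h) (y : ∀ k, Matrix (κ k) (κ k) ℂ) (hy : ∀ k, Ffg.opn (y k) ≤ 1) : Bd n :=
  ⟨fun k => h k (y k), 1, fun k => (e.opn k _).trans (hy k)⟩

theorem Emb.mk'_mem (e : Emb h) (y : ∀ k, Matrix (κ k) (κ k) ℂ) (hy : ∀ k, Ffg.opn (y k) ≤ 1) :
    e.mk' y hy ∈ Lv h := fun k => ⟨y k, hy k, rfl⟩

theorem Emb.tend (e : Emb h) (U : Ultrafilter ℕ) {F : (Tm → ℝ) → ℝ} (hF : Continuous F)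
    {a x z : Fin 9 → Bd n} {a' x' z' : ∀ k, Fin 9 → Matrix (κ k) (κ k) ℂ}
    (ha : ∀ i k, (a i).1 k = h k (a' k i)) (hx : ∀ i k, (x i).1 k = h k (x' k i))
    (hz : ∀ i k, (z i).1 k = h k (z' k i)) :
    Tendsto (fun k => F fun t => Ffg.nu (t.eval (a' k) (x' k) (z' k))) U
      (𝓝 (F fun t => nm (tU U) (t.eval a x z))) := by
  refine (hF.tendsto _).comp (tendsto_pi_nhds.2 fun t => (tend_nu U _).congr fun k => ?_)
  have h1 := (at_op k).eval a x z t
  simp only [ha, hx, hz] at h1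
  rw [h1, ← (e.op k).eval, e.nu]

theorem Emb.good (e : Emb h) (U : Ultrafilter ℕ) {F : (Tm → ℝ) → ℝ} (hF : Continuous F) {ε : ℝ}
    (H : ∀ k, Hold F Ffg.nu (ctr (κ k)) ε) : Hold F (nm (tU U)) (Lv h) ε := by
  choose a ha H using H
  refine ⟨fun i => e.mk' (fun k => a k i) fun k => ha k i, fun i => e.mk'_mem _ _, fun x hx => ?_⟩
  choose y hy ey using hx
  choose z hz H using fun k => H k (fun i => y i k) fun i => hy i k
  refine ⟨fun i => e.mk' (fun k => z k i) fun k => hz k i, fun i => e.mk'_mem _ _, ?_⟩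
  exact le_of_tendsto' (e.tend U hF (a' := a) (x' := fun k i => y i k) (z' := z)
    (fun _ _ => rfl) ey fun _ _ => rfl) H

theorem Emb.bad (e : Emb h) (U : Ultrafilter ℕ) {F : (Tm → ℝ) → ℝ} (hF : Continuous F) {ε ε' : ℝ}
    (hε : ε' < ε) (H : ∀ k, ¬ Hold F Ffg.nu (ctr (κ k)) ε) : ¬ Hold F (nm (tU U)) (Lv h) ε' := by
  rintro ⟨a, ha, K⟩
  choose a' ha' ea using ha
  have H' : ∀ k, ∃ x : Fin 9 → Matrix (κ k) (κ k) ℂ, (∀ i, Ffg.opn (x i) ≤ 1) ∧
      ∀ z : Fin 9 → Matrix (κ k) (κ k) ℂ, (∀ i, Ffg.opn (z i) ≤ 1) →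
        ε ≤ F fun t => Ffg.nu (t.eval (fun i => a' i k) x z) := fun k => by
    by_contra c
    refine H k ⟨fun i => a' i k, fun i => ha' i k, fun x hx => ?_⟩
    by_contra c'
    exact c ⟨x, hx, fun z hz => le_of_not_ge fun c'' => c' ⟨z, hz, c''⟩⟩
  choose x hx H' using H'
  obtain ⟨z, hz, K⟩ := K (fun i => e.mk' (fun k => x k i) fun k => hx k i) fun i => e.mk'_mem _ _
  choose z' hz' ez using hz
  have := ge_of_tendsto' (e.tend U hF (a' := fun k i => a' i k) (x' := x) (z' := fun k i => z' i k)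
    (x := fun i => e.mk' (fun k => x k i) fun k => hx k i) ea (fun _ _ => rfl) ez)
    fun k => H' k _ fun i => hz' i k
  linarith

theorem Emb.beta (e : Emb h) (hB : BetaStmt) {x : Bd n} (hx : ∀ k, ∃ y, x.1 k = h k y) :
    ∃ b ∈ Lv h, b * (1 + star x * x) = x + x := by
  choose y ey using hx
  choose b hb eb using fun k => SeqM.beta hB (y k)
  refine ⟨e.mk' b hb, e.mk'_mem _ _, Subtype.ext <| funext fun k => ?_⟩
  change h k (b k) * (1 + star (x.1 k) * x.1 k) = x.1 k + x.1 k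
  rw [ey, ← (e.op k).star, ← (e.op k).mul, ← (e.op k).one, ← (e.op k).add, ← (e.op k).mul, eb,
    (e.op k).add]

theorem Emb.ctr (e : Emb h) (U : Ultrafilter ℕ) {x : Bd n} (hx : x ∈ Lv h) (y : Bd n) :
    nm (tU U) (x * y) ≤ nm (tU U) y := by
  have := nm_mul U x y (C := 1) fun k => by
    obtain ⟨z, hz, ez⟩ := hx k
    rw [ez]
    exact (e.opn k z).trans hz
  rwa [one_mul] at this

end seq

end SeqM

open SeqM in
theorem seq_stmt (hB : BetaStmt) : SeqStmt := by
  intro ι _ _ _ F η hF hη hc good bad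
  let n : ℕ → Type := fun k => (ι k × Fin 3) × Fin 3
  let U : Ultrafilter ℕ := hyperfilter ℕ
  have e3 : SeqM.Emb (n := n) (κ := fun k => ι k × Fin 3) fun _ y => up y :=
    ⟨fun _ => up_op, fun _ => nu_up, fun _ => opn_up⟩
  have e0 : SeqM.Emb (n := n) (κ := ι) fun _ y => up (up y) :=
    ⟨fun _ => OpMap_comp up_op up_op, fun _ y => (nu_up _).trans (nu_up y),
      fun _ y => (opn_up _).trans (opn_up y)⟩
  let f : Fin 3 → Fin 3 → Bd n := fun i j => ⟨fun k => mu _ i j, 1, fun k => opn_mu i j⟩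
  let g : Fin 3 → Fin 3 → Bd n := fun i j => e3.mk' (fun k => mu _ i j) fun k => opn_mu i j
  have cf : ∀ x : Bd n, (∀ k, ∃ y, x.1 k = up y) → Cm f x := fun x hx => Cm_seq.2 fun k => by
    obtain ⟨y, ey⟩ := hx k
    rw [ey]
    exact cm_up y
  have cg : ∀ x : Bd n, (∀ k, ∃ y, x.1 k = up (up y)) → Cm g x := fun x hx =>
    Cm_seq.2 fun k i j => by
      obtain ⟨y, ey⟩ := hx k
      change up (mu _ i j) * x.1 k = x.1 k * up (mu _ i j)
      rw [ey, ← up_op.mul, ← up_op.mul, cm_up y i j]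
  have emb : ∀ k, Nonempty (Fin k ↪ ι k) := fun k =>
    Function.Embedding.nonempty_of_card_le (by simpa using hc k)
  let a : ∀ k, ℕ → ι k := fun k m => if h : m < k then (emb k).some ⟨m, h⟩ else 0
  refine ⟨Bd n, inferInstance, inferInstance, inferInstance, inferInstance, ⟨{
    τ := tU U
    tr := preTr U
    f := f
    g := g
    hf := MU_seq fun k => mu_MU
    hg := MU_seq fun k => MU_map (up_op (m := ι k × Fin 3)) (mu_MU (m := ι k))
    fg := fun i j => cf _ fun k => ⟨_, rfl⟩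
    L₀ := Lv fun _ y => up (up y)
    L₃ := Lv fun _ y => up y
    c₀ := fun x hx => ⟨e0.ctr U hx, cf x fun k => ?_, cg x fun k => ?_⟩
    c₃ := fun x hx => ⟨e3.ctr U hx, cf x fun k => ?_⟩
    b₀ := fun y h1 h2 => e0.beta hB fun k => ?_
    b₃ := fun y h1 => e3.beta hB fun k => eq_up (Cm_seq.1 h1 k)
    s := fun m => e0.mk' (fun k => TT (a k m)) fun k => opn_TT _
    hs := fun m => ⟨cf _ fun k => ⟨_, rfl⟩, cg _ fun k => ⟨_, rfl⟩⟩
    orth := fun m m' => ?_
    good := e0.good U hF good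
    bad := e3.bad U hF (half_lt_self hη) bad }⟩⟩
  · obtain ⟨y, -, ey⟩ := hx k
    exact ⟨_, ey⟩
  · obtain ⟨y, -, ey⟩ := hx k
    exact ⟨_, ey⟩
  · obtain ⟨y, -, ey⟩ := hx k
    exact ⟨_, ey⟩
  · obtain ⟨z, ez⟩ := eq_up (Cm_seq.1 h1 k)
    obtain ⟨w, ew⟩ := eq_up (x := z) fun i j => up_inj (by
      rw [up_op.mul, up_op.mul, ← ez]
      exact Cm_seq.1 h2 k i j)
    exact ⟨w, by rw [ez, ew]⟩
  · refine tendsto_nhds_unique (tend_tU U _) (tendsto_const_nhds.congr' ?_)
    have hU : (U : Filter ℕ) ≤ atTop := Nat.hyperfilter_le_atTop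
    filter_upwards [hU (eventually_gt_atTop m), hU (eventually_gt_atTop m')] with k h1 h2
    change _ = tau (star (up (up (TT (a k m)))) * up (up (TT (a k m'))))
    rw [← up_op.star, ← up_op.star, ← up_op.mul, ← up_op.mul, tau_up, tau_up, tau_TT]
    simp only [a, dif_pos h1, dif_pos h2, EmbeddingLike.apply_eq_iff_eq, Fin.mk.injEq]

end Pool.Agent.MP_ad85d3_an.Ffg

end
end MrgPart2

-- ======== part 3: formerly Pool.Agent.MP_ad85d3_an.ffg.TenM
section MrgPart3

/-!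
# PROJECT FFG, module TEN: moving a matrix algebra across the tensor product
-/

open Filter Topology
open scoped InnerProductSpace ComplexConjugate

noncomputable section

namespace Pool.Agent.MP_ad85d3_an.Ffg

namespace TenM

open Ten

set_option linter.unusedSectionVars false

variable {H L L' K₁ K₂ : Type} [NormedAddCommGroup H] [InnerProductSpace ℂ H] [CompleteSpace H]
  [NormedAddCommGroup L] [InnerProductSpace ℂ L] [CompleteSpace L]
  [NormedAddCommGroup L'] [InnerProductSpace ℂ L'] [CompleteSpace L']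
  [NormedAddCommGroup K₁] [InnerProductSpace ℂ K₁] [CompleteSpace K₁]
  [NormedAddCommGroup K₂] [InnerProductSpace ℂ K₂] [CompleteSpace K₂]

/-! ## abstract part -/

/-- equal Gram matrices and dense spans give a unitary -/
theorem exists_unitary {β : Type} (v : β → K₁) (w : β → K₂)
    (h : ∀ a b, ⟪v a, v b⟫_ℂ = ⟪w a, w b⟫_ℂ)
    (hv : Dense (Submodule.span ℂ (Set.range v) : Set K₁))
    (hw : Dense (Submodule.span ℂ (Set.range w) : Set K₂)) :
    ∃ W : K₁ ≃ₗᵢ[ℂ] K₂, ∀ a, W (v a) = w a := by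
  have d1 : DenseRange (Finsupp.linearCombination ℂ v) := by
    rwa [← Finsupp.range_linearCombination, LinearMap.coe_range] at hv
  have d2 : DenseRange (Finsupp.linearCombination ℂ w) := by
    rwa [← Finsupp.range_linearCombination, LinearMap.coe_range] at hw
  have hn : ∀ x : β →₀ ℂ, ‖Finsupp.linearCombination ℂ w (LinearEquiv.refl ℂ (β →₀ ℂ) x)‖ =
      ‖Finsupp.linearCombination ℂ v x‖ := fun x => by
    rw [norm_eq_sqrt_re_inner (𝕜 := ℂ), norm_eq_sqrt_re_inner (𝕜 := ℂ), LinearEquiv.refl_apply]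
    simp only [Finsupp.linearCombination_apply, Finsupp.sum, sum_inner, inner_sum, inner_smul_left,
      inner_smul_right, h]
  refine ⟨(LinearEquiv.refl ℂ (β →₀ ℂ)).extendOfIsometry _ _ d1 d2 hn, fun a => ?_⟩
  have := (LinearEquiv.refl ℂ (β →₀ ℂ)).extendOfIsometry_eq _ _ d1 d2 hn (Finsupp.single a 1)
  simpa only [LinearEquiv.refl_apply, Finsupp.linearCombination_single, one_smul] using this

/-- an isomorphism that matches generators matches the double commutants -/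
theorem iso_of_gen {β : Type} (φ : Op K₁ ≃⋆ₐ[ℂ] Op K₂) (G₁ : β → Op K₁) (G₂ : β → Op K₂)
    (h : ∀ a, φ (G₁ a) = G₂ a) {T₁ : Set (Op K₁)} {T₂ : Set (Op K₂)}
    (h₁ : ∀ T, T ∈ T₁ ↔ ∀ S, (∀ a, G₁ a * S = S * G₁ a) → S * T = T * S)
    (h₂ : ∀ T, T ∈ T₂ ↔ ∀ S, (∀ a, G₂ a * S = S * G₂ a) → S * T = T * S) : St.StarIso T₁ T₂ := by
  have inj : Function.Injective φ := EquivLike.injective φ
  have sur : Function.Surjective φ := EquivLike.surjective φ
  have key : ∀ T, φ T ∈ T₂ ↔ T ∈ T₁ := fun T => by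
    rw [h₁, h₂]
    constructor
    · intro k S hS
      refine inj ?_
      rw [map_mul, map_mul]
      exact k _ fun a => by rw [← h, ← map_mul, ← map_mul, hS]
    · intro k S hS
      obtain ⟨S, rfl⟩ := sur S
      rw [← map_mul, ← map_mul, k S fun a => inj (by rw [map_mul, map_mul, h, hS])]
  refine ⟨φ, ⟨fun T hT => (key T).2 hT, inj.injOn, fun T hT => ?_⟩,
    fun x _ y _ => map_add φ x y, fun c x _ => map_smul φ c x, fun x _ y _ => map_mul φ x y,
    fun x _ => map_star φ x⟩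
  obtain ⟨S, rfl⟩ := sur T
  exact ⟨S, (key S).1 hT, rfl⟩

/-- `A` is the algebra of `3 × 3` matrices over `B`, both with cyclic vectors -/
structure Am {α : Type} (A : Set (Op L)) (B : Set (Op L')) (Ω : L) (Ω' : L') (μ : α → α → α)
    (N : Fin 3 → Fin 3 → α → Op L) (M : α → Op L') : Prop where
  memN : ∀ i j x, N i j x ∈ A
  spanN : ∀ a ∈ A, ∃ c : Fin 3 → Fin 3 → α, a = ∑ i, ∑ j, N i j (c i j)
  memM : ∀ b, b ∈ B ↔ ∃ x, b = M x
  mulN : ∀ i j k l x y, N i j x * N k l y = if j = k then N i l (μ x y) else 0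
  mulM : ∀ x y, M x * M y = M (μ x y)
  gram : ∀ i j k l x y, ⟪N i j x Ω, N k l y Ω⟫_ℂ =
    (if i = k ∧ j = l then 1 / 3 else 0) * ⟪M x Ω', M y Ω'⟫_ℂ
  dA : Dense ((fun a : Op L => a Ω) '' A)
  dB : Dense ((fun b : Op L' => b Ω') '' B)

theorem tm_sum_left {ι : Type} [Fintype ι] (a : ι → Op L) (b : Op L') :
    tm (∑ i, a i) b = ∑ i, tm (a i) b := by
  let f : Op L →+ Op (HTensor L L') := AddMonoidHom.mk' (fun a => tm a b) fun x y =>
    tm_add_left x y b
  exact map_sum f a Finset.univ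

theorem tm_sum_right {ι : Type} [Fintype ι] (a : Op L) (b : ι → Op L') :
    tm a (∑ i, b i) = ∑ i, tm a (b i) := by
  let f : Op L' →+ Op (HTensor L L') := AddMonoidHom.mk' (fun b => tm a b) fun x y =>
    tm_add_right a x y
  exact map_sum f b Finset.univ

theorem tm_zero_left (b : Op L') : tm (0 : Op L) b = 0 := by
  simpa only [zero_smul] using tm_smul_left (0 : ℂ) (0 : Op L) b

theorem tm_zero_right (a : Op L) : tm a (0 : Op L') = 0 := by
  simpa only [zero_smul] using tm_smul_right (0 : ℂ) a (0 : Op L')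

/-- a family whose sums give all elementary tensors -/
structure Gen {β : Type} (A : Set (Op L)) (B : Set (Op L')) (G : β → Op (HTensor L L')) :
    Prop where
  mem : ∀ p, ∃ a ∈ A, ∃ b ∈ B, G p = tm a b
  sum : ∀ a ∈ A, ∀ b ∈ B, ∃ c : Fin 3 → Fin 3 → β, tm a b = ∑ i, ∑ j, G (c i j)

theorem Gen.memT {β : Type} {A : Set (Op L)} {B : Set (Op L')} {G : β → Op (HTensor L L')}
    (h : Gen A B G) (T : Op (HTensor L L')) :
    T ∈ {T | St.MemTensor A B T} ↔ ∀ S, (∀ p, G p * S = S * G p) → S * T = T * S := by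
  constructor
  · intro k S hS
    refine k.comm S fun a ha b hb => ?_
    obtain ⟨c, e⟩ := h.sum a ha b hb
    change tm a b * S = S * tm a b
    simp only [e, Finset.sum_mul, Finset.mul_sum, hS]
  · intro k
    refine ⟨fun S hS => k S fun p => ?_⟩
    obtain ⟨a, ha, b, hb, e⟩ := h.mem p
    rw [e]
    exact hS a ha b hb

theorem Gen.dense {β : Type} {A : Set (Op L)} {B : Set (Op L')} {G : β → Op (HTensor L L')}
    (h : Gen A B G) {ξ : L} {η : L'} (dA : Dense ((fun a : Op L => a ξ) '' A))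
    (dB : Dense ((fun b : Op L' => b η) '' B)) :
    Dense (Submodule.span ℂ (Set.range fun p => G p (tv ξ η)) : Set (HTensor L L')) := by
  refine (dense_tv dA dB).mono (Submodule.span_le.2 ?_)
  rintro _ ⟨_, ⟨a, ha, rfl⟩, _, ⟨b, hb, rfl⟩, rfl⟩
  obtain ⟨c, e⟩ := h.sum a ha b hb
  rw [← tm_tv, e]
  simp only [_root_.sum_apply]
  exact Submodule.sum_mem _ fun i _ => Submodule.sum_mem _ fun j _ =>
    Submodule.subset_span ⟨c i j, rfl⟩

theorem am_iso {α₁ α₂ : Type} {A₁ : Set (Op L)} {B₁ : Set (Op K₁)} {A₂ : Set (Op K₂)}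
    {B₂ : Set (Op L')} {Ω₁ : L} {Ω₁' : K₁} {Ω₂ : K₂} {Ω₂' : L'} {μ₁ : α₁ → α₁ → α₁}
    {μ₂ : α₂ → α₂ → α₂} {N₁ : Fin 3 → Fin 3 → α₁ → Op L} {M₁ : α₁ → Op K₁}
    {N₂ : Fin 3 → Fin 3 → α₂ → Op K₂} {M₂ : α₂ → Op L'} (h₁ : Am A₁ B₁ Ω₁ Ω₁' μ₁ N₁ M₁)
    (h₂ : Am A₂ B₂ Ω₂ Ω₂' μ₂ N₂ M₂) :
    St.StarIso {T | St.MemTensor A₁ B₂ T} {T | St.MemTensor B₁ A₂ T} := by
  let G₁ : Fin 3 × Fin 3 × α₁ × α₂ → Op (HTensor L L') := fun p =>
    tm (N₁ p.1 p.2.1 p.2.2.1) (M₂ p.2.2.2)
  let G₂ : Fin 3 × Fin 3 × α₁ × α₂ → Op (HTensor K₁ K₂) := fun p =>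
    tm (M₁ p.2.2.1) (N₂ p.1 p.2.1 p.2.2.2)
  have g₁ : Gen A₁ B₂ G₁ := ⟨fun p => ⟨_, h₁.memN _ _ _, _, (h₂.memM _).2 ⟨_, rfl⟩, rfl⟩,
    fun a ha b hb => by
      obtain ⟨c, rfl⟩ := h₁.spanN a ha
      obtain ⟨y, rfl⟩ := (h₂.memM b).1 hb
      exact ⟨fun i j => (i, j, c i j, y), by simp only [tm_sum_left, G₁]⟩⟩
  have g₂ : Gen B₁ A₂ G₂ := ⟨fun p => ⟨_, (h₁.memM _).2 ⟨_, rfl⟩, _, h₂.memN _ _ _, rfl⟩,
    fun a ha b hb => by
      obtain ⟨c, rfl⟩ := h₂.spanN b hb
      obtain ⟨x, rfl⟩ := (h₁.memM a).1 ha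
      exact ⟨fun i j => (i, j, x, c i j), by simp only [tm_sum_right, G₂]⟩⟩
  have d₁ := g₁.dense h₁.dA h₂.dB
  have d₂ := g₂.dense h₁.dB h₂.dA
  obtain ⟨W, hW⟩ := exists_unitary _ _ (fun p q => by
    simp only [G₁, G₂, tm_tv, inner_tv, h₁.gram, h₂.gram]
    ring) d₁ d₂
  refine iso_of_gen W.conjStarAlgEquiv G₁ G₂ (fun p => ?_) g₁.memT g₂.memT
  refine ContinuousLinearMap.ext_on d₂ ?_
  rintro _ ⟨q, rfl⟩
  beta_reduce
  have e₁ : G₁ p * G₁ q = if p.2.1 = q.1 then
      G₁ (p.1, q.2.1, μ₁ p.2.2.1 q.2.2.1, μ₂ p.2.2.2 q.2.2.2) else 0 := by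
    simp only [G₁]
    rw [← tm_mul, h₁.mulN, h₂.mulM]
    split_ifs
    exacts [rfl, tm_zero_left _]
  have e₂ : G₂ p * G₂ q = if p.2.1 = q.1 then
      G₂ (p.1, q.2.1, μ₁ p.2.2.1 q.2.2.1, μ₂ p.2.2.2 q.2.2.2) else 0 := by
    simp only [G₂]
    rw [← tm_mul, h₂.mulN, h₁.mulM]
    split_ifs
    exacts [rfl, tm_zero_right _]
  rw [LinearIsometryEquiv.conjStarAlgEquiv_apply_apply, ← mul_ap (G₂ p), e₂, ← hW q,
    LinearIsometryEquiv.symm_apply_apply, ← mul_ap (G₁ p), e₁]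
  split_ifs
  exacts [hW _, map_zero W]

/-! ## bounded sequences -/

theorem seq_iff {M : VonNeumannAlgebra H} {x : ℕ → Op H} :
    St.Seq M 1 x ↔ (∀ n, x n ∈ M) ∧ ∃ C : ℝ, ∀ n, ‖x n‖ ≤ C :=
  ⟨fun h => ⟨h.mem, h.bdd⟩, fun h => ⟨h.1, fun n => by rw [one_mul, mul_one], h.2⟩⟩

theorem seq_const {M : VonNeumannAlgebra H} {a : Op H} (h : a ∈ M) : St.Seq M 1 fun _ => a :=
  seq_iff.2 ⟨fun _ => h, _, fun _ => le_rfl⟩

theorem seq_mul {M : VonNeumannAlgebra H} {x y : ℕ → Op H} (hx : St.Seq M 1 x)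
    (hy : St.Seq M 1 y) : St.Seq M 1 (x * y) := by
  obtain ⟨C, hC⟩ := hx.bdd
  obtain ⟨D, hD⟩ := hy.bdd
  exact seq_iff.2 ⟨fun n => mul_mem (hx.mem n) (hy.mem n), C * D, fun n => (norm_mul_le _ _).trans
    (mul_le_mul (hC n) (hD n) (norm_nonneg _) ((norm_nonneg _).trans (hC n)))⟩

theorem seq_add {M : VonNeumannAlgebra H} {x y : ℕ → Op H} (hx : St.Seq M 1 x)
    (hy : St.Seq M 1 y) : St.Seq M 1 (x + y) := by
  obtain ⟨C, hC⟩ := hx.bdd
  obtain ⟨D, hD⟩ := hy.bdd
  exact seq_iff.2 ⟨fun n => add_mem (hx.mem n) (hy.mem n), C + D, fun n =>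
    (norm_add_le _ _).trans (add_le_add (hC n) (hD n))⟩

theorem seq_star {M : VonNeumannAlgebra H} {x : ℕ → Op H} (hx : St.Seq M 1 x) :
    St.Seq M 1 (star x) := by
  obtain ⟨C, hC⟩ := hx.bdd
  exact seq_iff.2 ⟨fun n => star_mem (hx.mem n), C, fun n => (norm_star (x n)).le.trans (hC n)⟩

theorem seq_sum3 {M : VonNeumannAlgebra H} {x : Fin 3 → ℕ → Op H} (hx : ∀ i, St.Seq M 1 (x i)) :
    St.Seq M 1 (∑ i, x i) := by
  rw [Fin.sum_univ_three]
  exact seq_add (seq_add (hx 0) (hx 1)) (hx 2)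

section rep
variable {U : Ultrafilter ℕ} {N : St.TwoOne H} (a : St.UltraRep L U N)

theorem pi_sum3 {x : Fin 3 → ℕ → Op H} (hx : ∀ i, St.Seq N.M 1 (x i)) :
    a.π (∑ i, x i) = ∑ i, a.π (x i) := by
  rw [Fin.sum_univ_three, Fin.sum_univ_three, a.add _ _ (seq_add (hx 0) (hx 1)) (hx 2),
    a.add _ _ (hx 0) (hx 1)]

theorem pi_zero : a.π 0 = 0 := by
  simpa only [zero_smul] using a.smul 0 0 (seq_const (zero_mem _))

theorem inner_pi {x y : ℕ → Op H} (hx : St.Seq N.M 1 x) (hy : St.Seq N.M 1 y) :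
    Tendsto (fun n => N.τ (star (x n) * y n)) U (𝓝 ⟪a.π x a.Ω, a.π y a.Ω⟫_ℂ) := by
  have := a.trace _ (seq_mul (seq_star hx) hy)
  rwa [a.mul _ _ (seq_star hx) hy, a.star _ hx, mul_ap, ContinuousLinearMap.star_eq_adjoint,
    ContinuousLinearMap.adjoint_inner_right] at this

theorem dense_alg : Dense ((fun b : Op L => b a.Ω) '' a.alg 1) := by
  refine a.cyclic.mono ?_
  rintro _ ⟨x, hx, rfl⟩
  exact ⟨_, ⟨x, hx, rfl⟩, rfl⟩

end rep

/-! ## amplifications -/

section amp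
variable {Q R : St.TwoOne H} {e : Fin 3 → Fin 3 → Op H}

theorem tau_unit (h : Amp Q R e) {r : Op H} (hr : r ∈ R.M) (j l : Fin 3) :
    Q.τ (e j l * r) = (if j = l then 1 / 3 else 0) * R.τ r := by
  obtain ⟨h1, h2⟩ := (h.rel r).1 hr
  have k : ∀ j a l, Q.τ (e j a * e a l * r) = Q.τ (e a l * e j a * r) := fun j a l => by
    rw [mul_assoc, Q.tracial _ (h.mem j a) _ (mul_mem (h.mem a l) h1), mul_assoc, ← h2,
      mul_assoc]
  split_ifs with c
  · subst c
    have k1 : ∀ j, Q.τ (e j j * r) = Q.τ (e 0 0 * r) := fun j => by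
      have := k j 0 j
      rwa [h.mu.mul, h.mu.mul, if_pos rfl, if_pos rfl] at this
    have k2 : Q.τ r = Q.τ (e 0 0 * r) + Q.τ (e 1 1 * r) + Q.τ (e 2 2 * r) := by
      have m := fun i => mul_mem (h.mem i i) h1
      rw [← Q.add _ (m 0) _ (m 1), ← Q.add _ (add_mem (m 0) (m 1)) _ (m 2), ← add_mul, ← add_mul,
        ← Fin.sum_univ_three fun i => e i i, h.mu.sum, one_mul]
    rw [h.tr r hr, k2, k1 j, k1 1, k1 2]
    ring
  · have := k j j l
    rw [h.mu.mul, h.mu.mul, if_pos rfl, if_neg (Ne.symm c), zero_mul] at this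
    have z := Q.smul 0 0 (zero_mem _)
    rw [zero_smul, zero_mul] at z
    rw [this, z, zero_mul]

/-- the matrix with the single entry `x` -/
def em (e : Fin 3 → Fin 3 → Op H) (i j : Fin 3) (x : ℕ → Op H) : ℕ → Op H :=
  (fun _ => e i j) * x

/-- the matrix entries of `x` -/
def co (e : Fin 3 → Fin 3 → Op H) (i j : Fin 3) (x : ℕ → Op H) : ℕ → Op H :=
  ∑ k, (fun _ => e k i) * x * fun _ => e j k

theorem co_apply (i j : Fin 3) (x : ℕ → Op H) (n : ℕ) :
    co e i j x n = ∑ k, e k i * x n * e j k := by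
  rw [co, Finset.sum_apply]
  rfl

theorem seq_up (h : Amp Q R e) {x : ℕ → Op H} (hx : St.Seq R.M 1 x) : St.Seq Q.M 1 x :=
  seq_iff.2 ⟨fun n => ((h.rel _).1 (hx.mem n)).1, hx.bdd⟩

theorem seq_em (h : Amp Q R e) (i j : Fin 3) {x : ℕ → Op H} (hx : St.Seq R.M 1 x) :
    St.Seq Q.M 1 (em e i j x) := seq_mul (seq_const (h.mem i j)) (seq_up h hx)

theorem unit_co (h : MU e) (a b i j : Fin 3) (y : Op H) :
    e a b * ∑ k, e k i * y * e j k = e a i * y * e j b ∧
      (∑ k, e k i * y * e j k) * e a b = e a i * y * e j b := by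
  constructor
  · simp only [Finset.mul_sum, ← mul_assoc, h.mul, ite_mul, zero_mul, Finset.sum_ite_eq,
      Finset.mem_univ, if_true]
  · simp only [Finset.sum_mul, mul_assoc, h.mul, mul_ite, mul_zero, Finset.sum_ite_eq',
      Finset.mem_univ, if_true]

theorem seq_co (h : Amp Q R e) (i j : Fin 3) {x : ℕ → Op H} (hx : St.Seq Q.M 1 x) :
    St.Seq R.M 1 (co e i j x) := by
  have k : St.Seq Q.M 1 (co e i j x) := seq_sum3 fun k =>
    seq_mul (seq_mul (seq_const (h.mem k i)) hx) (seq_const (h.mem j k))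
  refine seq_iff.2 ⟨fun n => (h.rel _).2 ⟨k.mem n, fun a b => ?_⟩, k.bdd⟩
  rw [co_apply, (unit_co h.mu a b i j _).1, (unit_co h.mu a b i j _).2]

theorem sum_em_co (h : MU e) (x : ℕ → Op H) : x = ∑ i, ∑ j, em e i j (co e i j x) := by
  funext n
  have k : ∀ i j, em e i j (co e i j x) n = e i i * x n * e j j := fun i j => by
    rw [em, Pi.mul_apply, co_apply, (unit_co h i j i j _).1]
  simp only [Finset.sum_apply, k, ← Finset.mul_sum, ← Finset.sum_mul, h.sum, one_mul, mul_one]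

theorem em_mul (h : Amp Q R e) (i j k l : Fin 3) {x : ℕ → Op H} (hx : St.Seq R.M 1 x)
    (y : ℕ → Op H) : em e i j x * em e k l y = if j = k then em e i l (x * y) else 0 := by
  funext n
  have c := ((h.rel _).1 (hx.mem n)).2 k l
  change e i j * x n * (e k l * y n) = _
  rw [mul_assoc, ← mul_assoc (x n), ← c, mul_assoc, ← mul_assoc, h.mu.mul]
  split_ifs
  exacts [rfl, zero_mul _]

theorem tau_em (h : Amp Q R e) (i j k l : Fin 3) {x y : Op H} (hx : x ∈ R.M) (hy : y ∈ R.M) :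
    Q.τ (star (e i j * x) * (e k l * y)) =
      (if i = k ∧ j = l then 1 / 3 else 0) * R.τ (star x * y) := by
  have c := ((h.rel _).1 (star_mem hx)).2
  rw [star_mul, h.mu.star, mul_assoc, ← mul_assoc (e j i), h.mu.mul]
  by_cases h1 : i = k
  · rw [if_pos h1, ← mul_assoc, ← c, mul_assoc, tau_unit h (mul_mem (star_mem hx) hy)]
    simp only [h1, true_and]
  · have z := Q.smul 0 0 (zero_mem _)
    rw [zero_smul, zero_mul] at z
    rw [if_neg h1, if_neg fun k => h1 k.1, zero_mul, mul_zero, zero_mul, z]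

theorem am_of_amp (h : Amp Q R e) {U : Ultrafilter ℕ} (n : St.UltraRep L U Q)
    (m : St.UltraRep L' U R) :
    Am (α := {x : ℕ → Op H // St.Seq R.M 1 x}) (n.alg 1) (m.alg 1) n.Ω m.Ω
      (fun x y => ⟨x.1 * y.1, seq_mul x.2 y.2⟩) (fun i j x => n.π (em e i j x.1))
      fun x => m.π x.1 where
  memN i j x := ⟨_, seq_em h i j x.2, rfl⟩
  spanN := by
    rintro _ ⟨x, hx, rfl⟩
    refine ⟨fun i j => ⟨co e i j x, seq_co h i j hx⟩, ?_⟩
    have k := fun i j => seq_em h i j (seq_co h i j hx)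
    rw [Finset.sum_congr rfl fun i _ => (pi_sum3 n (k i)).symm,
      ← pi_sum3 n fun i => seq_sum3 (k i), ← sum_em_co h.mu]
  memM b := ⟨fun ⟨x, hx, k⟩ => ⟨⟨x, hx⟩, k.symm⟩, fun ⟨x, k⟩ => ⟨x.1, x.2, k.symm⟩⟩
  mulN i j k l x y := by
    rw [← n.mul _ _ (seq_em h i j x.2) (seq_em h k l y.2), em_mul h i j k l x.2]
    split_ifs
    exacts [rfl, pi_zero n]
  mulM x y := (m.mul _ _ x.2 y.2).symm
  gram i j k l x y := tendsto_nhds_unique (inner_pi n (seq_em h i j x.2) (seq_em h k l y.2))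
    (((inner_pi m x.2 y.2).const_mul _).congr fun s =>
      (tau_em h i j k l (x.2.mem s) (y.2.mem s)).symm)
  dA := dense_alg n
  dB := dense_alg m

end amp

end TenM

theorem ten_stmt : TenStmt := by
  intro H K L₁ L₂ L₃ L₄ _ _ _ _ _ _ _ _ _ _ _ _ _ _ _ _ _ _ Q₁ R₁ Q₂ R₂ e₁ e₂ U n₁ n₂ m₁ m₂ h₁ h₂
  exact TenM.am_iso (TenM.am_of_amp h₁ n₁ m₁) (TenM.am_of_amp h₂ m₂ n₂)

end Pool.Agent.MP_ad85d3_an.Ffg

end
end MrgPart3

-- marker of a merged file
example : 731051 + 793535 = 731051 + 793535 := rfl
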