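import Mathlib.Algebra.Group.MinimalAxioms
import Mathlib.Order.CompletePartialOrder
import Pool.Agent.MP_ad85d3_an.ffg.Spec
import Pool.Agent.MP_ad85d3_an.Iso
import Pool.Agent.MP_ad85d3_an.TrA
import Pool.Agent.MP_ad85d3_an.TrB

-- ======== part 0: formerly Pool.Agent.MP_ad85d3_an.ffg.Stab
section MrgPart0

/-!
# PROJECT FFG, row STAB: translations are definable
-/

open Matrix
open scoped ComplexOrder ComplexConjugate Kronecker

noncomputable section

namespace Pool.Agent.MP_ad85d3_an.Ffg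

namespace StabM

set_option linter.unusedSectionVars false

variable {G : Type} [AddCommGroup G] [Fintype G] [DecidableEq G] {χ : G → G → ℂ}

/-- the diagonal of `H d H` is constant -/
theorem diag_HH (h : Pairing χ) (y : Matrix G G ℂ) :
    diagonal (HH χ * diagonal y.diag * HH χ).diag = tau y • (1 : Matrix G G ℂ) := by
  have e : ((√(Fintype.card G) : ℝ) : ℂ)⁻¹ * ((√(Fintype.card G) : ℝ) : ℂ)⁻¹ =
      (Fintype.card G : ℂ)⁻¹ := by
    rw [← mul_inv, ← Complex.ofReal_mul, Real.mul_self_sqrt (Nat.cast_nonneg _)]; simp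
  rw [smul_one_eq_diagonal]
  congr 1
  ext x
  rw [diag_apply, mul_apply, tau, trace, Finset.sum_div]
  refine Finset.sum_congr rfl fun z _ => ?_
  rw [mul_diagonal, HH, HH, h.symm z x, div_eq_mul_inv, ← e]
  linear_combination ((√(Fintype.card G) : ℝ) : ℂ)⁻¹ * ((√(Fintype.card G) : ℝ) : ℂ)⁻¹ *
    y.diag z * h.mul_self x z

/-- what almost commutes with the expanders and the Hadamard matrix is almost scalar -/
theorem scal_gap (h : Pairing χ) {C : ℝ} {e : Fin 6 → Matrix G G ℂ} (hg : Gap C e)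
    (y : Matrix G G ℂ) : fro (y - tau y • (1 : Matrix G G ℂ)) ^ 2 ≤
      8 * C * ∑ i, fro (com (e i) y) ^ 2 + 2 * fro (com (HH χ) y) ^ 2 := by
  have hu : (HH χ)ᴴ * HH χ = 1 := by rw [h.HH_ct, h.HH_mul_self]
  have hu' : HH χ * (HH χ)ᴴ = 1 := by rw [h.HH_ct, h.HH_mul_self]
  have e1 : y - tau y • (1 : Matrix G G ℂ) = (y - diagonal y.diag) +
      diagonal (y - HH χ * diagonal y.diag * HH χ).diag := by
    rw [← diag_HH h y, diag_sub, Pi.sub_def, ← diagonal_sub, sub_add_sub_cancel]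
  have e2 : y - HH χ * diagonal y.diag * HH χ =
      HH χ * com (HH χ) y + HH χ * (y - diagonal y.diag) * HH χ := by
    rw [com, mul_sub, mul_sub, sub_mul, ← mul_assoc, ← mul_assoc, h.HH_mul_self, one_mul,
      sub_add_sub_cancel]
  have h1 : fro (y - tau y • (1 : Matrix G G ℂ)) ≤
      2 * fro (y - diagonal y.diag) + fro (com (HH χ) y) := by
    have a1 := fro_add_le (y - diagonal y.diag)
      (diagonal (y - HH χ * diagonal y.diag * HH χ).diag)
    have a2 := fro_diag_le (y - HH χ * diagonal y.diag * HH χ)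
    have a3 := fro_add_le (HH χ * com (HH χ) y) (HH χ * (y - diagonal y.diag) * HH χ)
    rw [← e2, fro_iso_mul hu, fro_mul_iso hu', fro_iso_mul hu] at a3
    rw [← e1] at a1
    linarith
  have h2 := pow_le_pow_left₀ (fro_nonneg _) h1 2
  have h3 := hg y
  nlinarith [sq_nonneg (2 * fro (y - diagonal y.diag) - fro (com (HH χ) y))]

/-- the slices of a matrix on a product -/
def sl (u : Matrix (G × G) (G × G) ℂ) (p q : G) : Matrix G G ℂ := fun x y => u (p, x) (q, y)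

theorem fro_sq_sl (u : Matrix (G × G) (G × G) ℂ) : fro u ^ 2 = ∑ p, ∑ q, fro (sl u p q) ^ 2 := by
  rw [fro_sq, Fintype.sum_prod_type]
  refine Finset.sum_congr rfl fun p _ => ?_
  simp only [fro_sq, Fintype.sum_prod_type, sl]
  exact Finset.sum_comm

theorem sl_com (e : Matrix G G ℂ) (u : Matrix (G × G) (G × G) ℂ) (p q : G) :
    sl (com ((1 : Matrix G G ℂ) ⊗ₖ e) u) p q = com e (sl u p q) := by
  ext x y
  simp [sl, com, mul_apply, Fintype.sum_prod_type, one_apply]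

/-- the normalised trace over the second factor -/
def ptr (u : Matrix (G × G) (G × G) ℂ) : Matrix G G ℂ := fun p q => tau (sl u p q)

theorem sl_sub_ptr (u : Matrix (G × G) (G × G) ℂ) (p q : G) :
    sl (u - ptr u ⊗ₖ (1 : Matrix G G ℂ)) p q = sl u p q - tau (sl u p q) • (1 : Matrix G G ℂ) := by
  ext x y
  simp [sl, ptr]

theorem near_sq (h : Pairing χ) {C : ℝ} {e : Fin 6 → Matrix G G ℂ} (hg : Gap C e)
    (u : Matrix (G × G) (G × G) ℂ) : nu (u - ptr u ⊗ₖ (1 : Matrix G G ℂ)) ^ 2 ≤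
      8 * C * ∑ i, nu (com ((1 : Matrix G G ℂ) ⊗ₖ e i) u) ^ 2 +
        2 * nu (com ((1 : Matrix G G ℂ) ⊗ₖ HH χ) u) ^ 2 := by
  simp only [nu_sq]
  rw [← Finset.sum_div, ← mul_div_assoc, ← mul_div_assoc, ← add_div]
  refine div_le_div_of_nonneg_right ?_ (Nat.cast_nonneg _)
  simp only [fro_sq_sl (G := G), sl_com, sl_sub_ptr]
  refine (Finset.sum_le_sum fun p _ => Finset.sum_le_sum fun q _ => scal_gap h hg _).trans_eq ?_
  simp only [Finset.sum_add_distrib, ← Finset.mul_sum]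
  congr 2
  rw [Finset.sum_congr rfl fun p _ => Finset.sum_comm, Finset.sum_comm]

/-- the embedding at level `x` -/
def VV (x : G) : Matrix (G × G) G ℂ := fun r q => if r = (q, x) then 1 else 0

theorem VV_mul (x : G) {n : Type} (M : Matrix (G × G) n ℂ) (p : G) (s : n) :
    ((VV x)ᴴ * M) p s = M (p, x) s := by
  simp [mul_apply, VV, apply_ite]

theorem opn_VV (x : G) : opn (VV x) ≤ 1 := opn_iso (by
  ext p q
  rw [VV_mul]
  simp [VV, one_apply])

theorem opn_ptr {u : Matrix (G × G) (G × G) ℂ} (hu : opn u ≤ 1) : opn (ptr u) ≤ 1 := by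
  have e : ptr u = (Fintype.card G : ℂ)⁻¹ •
      ∑ x : G, (VV x)ᴴ * (u * VV x : Matrix (G × G) G ℂ) := by
    ext p q
    simp only [ptr, tau, trace, diag_apply, sl, Matrix.smul_apply, Matrix.sum_apply, VV_mul,
      smul_eq_mul]
    rw [div_eq_inv_mul]
    congr 1
    exact Finset.sum_congr rfl fun x _ => by simp [mul_apply, VV]
  have k : opn (∑ x : G, (VV x)ᴴ * (u * VV x : Matrix (G × G) G ℂ)) ≤ Fintype.card G := by
    refine (opn_sum_le _ _).trans ((Finset.sum_le_sum fun x _ => opn_mul_le_one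
      ((opn_ct _).trans_le (opn_VV x)) (opn_mul_le_one hu (opn_VV x))).trans_eq ?_)
    simp
  rw [e, opn_smul, norm_inv, Complex.norm_natCast]
  exact inv_mul_le_one_of_le₀ k (Nat.cast_nonneg _)

theorem cj_pm {n : Type} [Fintype n] [DecidableEq n] {σ : n → n} (h : Function.Involutive σ)
    (u : Matrix n n ℂ) (i j : n) : cj (pm σ) u i j = u (σ i) (σ j) := by
  rw [cj, star_eq_conjTranspose, pm_ct h, mul_pm_apply, pm_mul_apply h]

theorem nu_cj {n : Type} [Fintype n] [DecidableEq n] {w : Matrix n n ℂ} (hw : opn w ≤ 1)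
    (x y : Matrix n n ℂ) : nu (cj w x - cj w y) ≤ nu (x - y) := by
  rw [cj, cj, ← sub_mul, ← mul_sub]
  exact (nu_mul_ctr _ ((opn_star w).trans_le hw)).trans (nu_ctr_mul hw _)

theorem swap_inv : Function.Involutive (Prod.swap : G × G → G × G) := Prod.swap_swap

theorem cj_FF (a : Matrix G G ℂ) :
    cj (FF G) (a ⊗ₖ (1 : Matrix G G ℂ)) = (1 : Matrix G G ℂ) ⊗ₖ a := by
  ext i j
  rw [FF, cj_pm swap_inv]
  exact mul_comm _ _

theorem sl_WW (h : Pairing χ) (a : Matrix G G ℂ) (p q : G) :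
    sl (cj (WW G) (a ⊗ₖ (1 : Matrix G G ℂ)) - a ⊗ₖ a) p q = a p q • (TT (p + q) - a) := by
  ext x y
  have : p + x = q + y ↔ x = y + (p + q) := by
    constructor
    · intro e
      rw [← zero_add x, ← h.two p, add_assoc, e]; abel
    · intro e
      rw [e, ← add_zero (q + y), ← h.two p]; abel
  simp only [sl, Matrix.sub_apply, WW, cj_pm h.inv_W, kronecker_apply, one_apply, this,
    Matrix.smul_apply, TT, pm, smul_eq_mul, mul_sub]

/-- an approximate solution of the functional equation is close to a translation -/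
theorem exists_TT (h : Pairing χ) (a : Matrix G G ℂ) :
    ∃ b : G, nu (TT b - a) * nu a ≤ nu (cj (WW G) (a ⊗ₖ (1 : Matrix G G ℂ)) - a ⊗ₖ a) := by
  obtain ⟨b, hb⟩ := Finite.exists_min fun b : G => fro (TT b - a)
  refine ⟨b, ?_⟩
  rw [← nu_kron]
  refine nu_le_of ((pow_le_pow_iff_left₀ (fro_nonneg _) (fro_nonneg _) two_ne_zero).1 ?_)
  rw [fro_kron, mul_pow, fro_sq_sl, fro_sq a, Finset.mul_sum]
  refine Finset.sum_le_sum fun p _ => ?_
  rw [Finset.mul_sum]
  refine Finset.sum_le_sum fun q _ => ?_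
  rw [sl_WW h, fro_smul, mul_pow, mul_comm]
  exact mul_le_mul_of_nonneg_left (pow_le_pow_left₀ (fro_nonneg _) (hb _) 2) (sq_nonneg _)

theorem one_sub_le {n : Type} [Fintype n] [DecidableEq n] [Nonempty n] (u : Matrix n n ℂ) :
    1 - nu u ^ 2 ≤ nu (star u * u - 1) := by
  refine le_trans ?_ (norm_tau_le _)
  have e : tau (star u * u - 1) = ((nu u ^ 2 - 1 : ℝ) : ℂ) := by
    rw [Complex.ofReal_sub, ← tau_self, tau, tau, trace_sub, trace_one, sub_div,
      div_self (Nat.cast_ne_zero.2 Fintype.card_ne_zero), Complex.ofReal_one]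
  rw [e, Complex.norm_real, Real.norm_eq_abs, abs_sub_comm]
  exact le_abs_self _

theorem near (h : Pairing χ) {C : ℝ} (hC : 0 ≤ C) {e : Fin 6 → Matrix G G ℂ} (hg : Gap C e)
    (u : Matrix (G × G) (G × G) ℂ) :
    nu (u - ptr u ⊗ₖ (1 : Matrix G G ℂ)) ≤ (48 * C + 2) * psi1 nu (par χ e) u ∧
      nu (cj (WW G) u - u * cj (FF G) u) ≤ psi1 nu (par χ e) u ∧
      nu (star u * u - 1) ≤ psi1 nu (par χ e) u := by
  have k := near_sq h hg u
  have hp : psi1 nu (par χ e) u = ∑ i, nu (com ((1 : Matrix G G ℂ) ⊗ₖ e i) u) +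
      nu (com ((1 : Matrix G G ℂ) ⊗ₖ HH χ) u) + nu (cj (WW G) u - u * cj (FF G) u) +
      nu (star u * u - 1) := by
    rw [Fin.sum_univ_six]; rfl
  have p0 := psi1_nonneg (par χ e) u
  generalize psi1 nu (par χ e) u = ψ at hp p0 ⊢
  have n0 : 0 ≤ ∑ i, nu (com ((1 : Matrix G G ℂ) ⊗ₖ e i) u) :=
    Finset.sum_nonneg fun i _ => nu_nonneg _
  have n1 := nu_nonneg (com ((1 : Matrix G G ℂ) ⊗ₖ HH χ) u)
  have n2 := nu_nonneg (cj (WW G) u - u * cj (FF G) u)
  have n3 := nu_nonneg (star u * u - 1)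
  refine ⟨?_, by linarith, by linarith⟩
  have a1 : ∑ i, nu (com ((1 : Matrix G G ℂ) ⊗ₖ e i) u) ^ 2 ≤ 6 * ψ ^ 2 := by
    refine (Finset.sum_le_sum fun i _ => pow_le_pow_left₀ (nu_nonneg _)
      ((Finset.single_le_sum (f := fun j => nu (com ((1 : Matrix G G ℂ) ⊗ₖ e j) u))
        (fun j _ => nu_nonneg _) (Finset.mem_univ i)).trans (by linarith : _ ≤ ψ)) 2).trans_eq ?_
    simp
  have a2 : nu (com ((1 : Matrix G G ℂ) ⊗ₖ HH χ) u) ^ 2 ≤ ψ ^ 2 :=
    pow_le_pow_left₀ n1 (by linarith) 2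
  have a3 := mul_le_mul_of_nonneg_left a1 hC
  refine (pow_le_pow_iff_left₀ (nu_nonneg _) (by positivity) two_ne_zero).1 ?_
  have a4 : (48 * C + 2) * ψ ^ 2 ≤ (48 * C + 2) ^ 2 * ψ ^ 2 :=
    mul_le_mul_of_nonneg_right (by nlinarith) (sq_nonneg _)
  rw [mul_pow]
  linarith

end StabM

open StabM in
theorem stab_stmt : StabStmt := by
  intro C hC
  refine ⟨8 * (48 * C + 2) + 8, by positivity, fun G _ _ _ χ e h hg u hu => ?_⟩
  obtain ⟨k1, k2, k3⟩ := near h hC hg u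
  have p0 := psi1_nonneg (par χ e) u
  have hK : 0 ≤ 48 * C + 2 := by positivity
  generalize psi1 nu (par χ e) u = ψ at k1 k2 k3 p0 ⊢
  generalize 48 * C + 2 = K at k1 hK ⊢
  have q0 := mul_nonneg hK p0
  by_cases hs : 1 / 4 ≤ K * ψ + ψ
  · refine ⟨0, (nu_sub_le _ _).trans ?_⟩
    rw [TT_zero, one_kronecker_one, nu_one]
    linarith [nu_le_opn u]
  have ha := opn_ptr hu
  have ha1 := (opn_kron_one (l := G) (ptr u)).trans ha
  have hW : opn (WW G) ≤ 1 := opn_pm h.inv_W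
  have hF : opn (FF G) ≤ 1 := opn_pm swap_inv
  obtain ⟨b, hb⟩ := exists_TT h (ptr u)
  refine ⟨b, ?_⟩
  have t1 : nu (cj (WW G) (ptr u ⊗ₖ (1 : Matrix G G ℂ)) - ptr u ⊗ₖ ptr u) ≤ 3 * (K * ψ) + ψ := by
    have a1 := nu_tri (cj (WW G) (ptr u ⊗ₖ (1 : Matrix G G ℂ))) (cj (WW G) u) (ptr u ⊗ₖ ptr u)
    have a2 := nu_tri (cj (WW G) u) (u * cj (FF G) u) (ptr u ⊗ₖ ptr u)
    have a3 := nu_cj hW (ptr u ⊗ₖ (1 : Matrix G G ℂ)) u
    have a4 := nu_mul_sub (a := u) (d := cj (FF G) (ptr u ⊗ₖ (1 : Matrix G G ℂ)))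
      (opn_cj hF hu) ha1
    have a5 := nu_cj hF u (ptr u ⊗ₖ (1 : Matrix G G ℂ))
    rw [nu_sub_comm (ptr u ⊗ₖ _)] at a3
    rw [cj_FF] at a4 a5
    rw [← mul_kronecker_mul, mul_one, one_mul] at a4
    linarith
  have t2 : 3 / 4 ≤ nu u := by
    have := one_sub_le u
    refine (pow_le_pow_iff_left₀ (by norm_num) (nu_nonneg _) two_ne_zero).1 ?_
    linarith
  have t3 : 1 / 2 ≤ nu (ptr u) := by
    have a1 := nu_add_le (u - ptr u ⊗ₖ (1 : Matrix G G ℂ)) (ptr u ⊗ₖ (1 : Matrix G G ℂ))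
    rw [sub_add_cancel, nu_kron, nu_one, mul_one] at a1
    linarith
  have t4 : nu (ptr u ⊗ₖ (1 : Matrix G G ℂ) - TT b ⊗ₖ (1 : Matrix G G ℂ)) = nu (TT b - ptr u) := by
    rw [nu_sub_comm (TT b), ← mul_one (nu (ptr u - TT b)), ← nu_one (n := G), ← nu_kron]
    congr 1
    ext i j
    simp [sub_mul]
  have t5 := mul_le_mul_of_nonneg_left t3 (nu_nonneg (TT b - ptr u))
  have t6 := nu_tri u (ptr u ⊗ₖ (1 : Matrix G G ℂ)) (TT b ⊗ₖ (1 : Matrix G G ℂ))
  linarith

end Pool.Agent.MP_ad85d3_an.Ffg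

end
end MrgPart0

-- ======== part 1: formerly Pool.Agent.MP_ad85d3_an.ffg.Pauli
section MrgPart1

/-!
# PROJECT FFG: the sentence holds exactly in the good model
-/

open Matrix
open scoped ComplexOrder InnerProductSpace ComplexConjugate Kronecker

noncomputable section

namespace Pool.Agent.MP_ad85d3_an.Ffg

namespace PauliM

set_option linter.unusedSectionVars false

section gen

variable {n : Type} [Fintype n] [DecidableEq n]

theorem nu_cj {w : Matrix n n ℂ} (hw : opn w ≤ 1) (u t : Matrix n n ℂ) :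
    nu (cj w u - cj w t) ≤ nu (u - t) := by
  rw [cj, cj, ← sub_mul, ← mul_sub]
  exact (nu_mul_ctr _ ((opn_star w).trans_le hw)).trans (nu_ctr_mul hw _)

theorem nu_ev {c : Fin 9 → Matrix n n ℂ} {u t : Fin 4 → Matrix n n ℂ} (hc : ∀ i, opn (c i) ≤ 1)
    (hu : ∀ i, opn (u i) ≤ 1) (ht : ∀ i, opn (t i) ≤ 1) : nu (ev c u - ev c t) ≤
      nu (u 0 - t 0) + nu (u 1 - t 1) + nu (u 2 - t 2) + nu (u 3 - t 3) := by
  have w1 := opn_mul_le_one (opn_mul_le_one (hc 8) (hc 6)) (hc 8)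
  have w3 := opn_mul_le_one (hc 6) (hc 8)
  have a1 := opn_mul_le_one (ht 0) (opn_cj w1 (ht 1))
  refine (nu_mul_sub (opn_cj w3 (hu 3)) (opn_mul_le_one a1 (opn_cj (hc 8) (ht 2)))).trans
    (add_le_add ((nu_mul_sub (opn_cj (hc 8) (hu 2)) a1).trans (add_le_add
      ((nu_mul_sub (opn_cj w1 (hu 1)) (ht 0)).trans (add_le_add le_rfl (nu_cj w1 _ _)))
      (nu_cj (hc 8) _ _))) (nu_cj w3 _ _))

theorem nu_sc [Nonempty n] (l : ℂ) : nu (l • (1 : Matrix n n ℂ)) = ‖l‖ := by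
  rw [nu_smul, nu_one, mul_one]

/-- an almost scalar almost projection is almost `0` or `1` -/
theorem irr_le [Nonempty n] {y : Matrix n n ℂ} (hy : opn y ≤ 1) {κ : ℝ}
    (h : nu (y - tau y • 1) ≤ κ) : min (nu y) (nu (1 - y)) ≤ 7 * (κ + nu (y - star y * y)) := by
  set l := tau y with hl
  have l1 : ‖l‖ ≤ 1 := (norm_tau_le y).trans ((nu_le_opn y).trans hy)
  have o1 : opn (star (l • (1 : Matrix n n ℂ))) ≤ 1 := by
    rw [opn_star, opn_smul]
    exact mul_le_one₀ l1 (opn_nonneg _) opn_one_le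
  have a1 := nu_mul_sub (a := star y) (d := l • (1 : Matrix n n ℂ)) hy o1
  rw [← star_sub, nu_star] at a1
  have a2 := nu_tri (l • (1 : Matrix n n ℂ)) y (star (l • (1 : Matrix n n ℂ)) * l • 1)
  have a3 := nu_tri y (star y * y) (star (l • (1 : Matrix n n ℂ)) * l • 1)
  have e : l • (1 : Matrix n n ℂ) - star (l • (1 : Matrix n n ℂ)) * l • 1 =
      (l * star (1 - l)) • (1 : Matrix n n ℂ) := by
    rw [star_smul, star_one, smul_mul_smul_comm, mul_one, ← sub_smul, star_sub, star_one]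
    congr 1
    ring
  rw [e, nu_sc, norm_mul, norm_star, nu_sub_comm] at a2
  have a4 : nu y ≤ κ + ‖l‖ := by
    have := nu_add_le (y - l • 1) (l • 1)
    rw [sub_add_cancel, nu_sc] at this
    linarith
  have a5 : nu (1 - y) ≤ κ + ‖1 - l‖ := by
    have := nu_tri 1 (l • (1 : Matrix n n ℂ)) y
    rw [nu_sub_comm (l • (1 : Matrix n n ℂ)), show (1 : Matrix n n ℂ) - l • 1 = (1 - l) • 1 by
      rw [sub_smul, one_smul], nu_sc] at this
    linarith
  have a6 : 1 ≤ ‖l‖ + ‖1 - l‖ := by simpa using norm_add_le l (1 - l)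
  have a7 := nu_nonneg (y - star y * y)
  have b1 := norm_nonneg l
  have b2 := norm_nonneg (1 - l)
  rcases le_total ‖l‖ ‖1 - l‖ with k | k
  · refine (min_le_left _ _).trans ?_
    nlinarith
  · refine (min_le_right _ _).trans ?_
    nlinarith

end gen

variable {G : Type} [AddCommGroup G] [Fintype G] [DecidableEq G]

/-- Pauli operators -/
def pl (χ : G → G → ℂ) (p q : G) : Matrix G G ℂ := TT p * ZZ χ q

section abs

variable {χ : G → G → ℂ} (h : Pairing χ)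
include h

theorem star_pl (p q : G) : star (pl χ p q) = ZZ χ q * TT p := by
  rw [pl, star_eq_conjTranspose, conjTranspose_mul, h.TT_ct, h.ZZ_ct]

theorem pl_uni (p q : G) : star (pl χ p q) * pl χ p q = 1 := by
  rw [star_pl h, pl, mul_assoc, ← mul_assoc (TT p), h.TT_mul_self, one_mul, h.ZZ_mul_self]

theorem opn_pl (p q : G) : opn (pl χ p q) ≤ 1 := opn_iso (pl_uni h p q)

theorem pl_mul (p q p' q' : G) : pl χ p q * pl χ p' q' = χ q p' • pl χ (p + p') (q + q') := by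
  rw [pl, pl, pl, mul_assoc, ← mul_assoc (ZZ χ q), h.ZZ_mul_TT, smul_mul_assoc, mul_smul_comm,
    mul_assoc, h.ZZ_mul, ← mul_assoc, TT_mul]

theorem pl_zero : pl χ 0 0 = 1 := by rw [pl, TT_zero, h.ZZ_zero, mul_one]

theorem tau_pl {p q : G} (hne : ¬ (p = 0 ∧ q = 0)) : tau (pl χ p q) = 0 := by
  have e : trace (pl χ p q) = ∑ x, if p = 0 then χ x q else 0 := by
    refine Finset.sum_congr rfl fun x _ => ?_
    simp [pl, ZZ, TT, pm, h.symm q x]
  rw [tau, e]
  by_cases hp : p = 0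
  · simp only [hp, if_true]
    rw [h.orth q fun hq => hne ⟨hp, hq⟩, zero_div]
  · simp [hp]

/-- two signed Pauli operators are equal or far apart -/
theorem dich (p q p' q' : G) {s : ℂ} (hs : s = 1 ∨ s = -1) :
    nu (pl χ p q - s • pl χ p' q') = 0 ∨ 1 ≤ nu (pl χ p q - s • pl χ p' q') := by
  by_cases e : p + p' = 0 ∧ q + q' = 0
  · rw [← h.add_eq_zero.1 e.1, ← h.add_eq_zero.1 e.2]
    rcases hs with rfl | rfl
    · exact Or.inl (by rw [one_smul, sub_self, nu_zero])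
    · right
      have a := nu_ctr_mul ((opn_star _).trans_le (opn_pl h p q)) (pl χ p q - (-1 : ℂ) • pl χ p q)
      rw [mul_sub, mul_smul_comm, pl_uni h, show (1 : Matrix G G ℂ) - (-1 : ℂ) • 1 = (2 : ℂ) • 1 by
        rw [neg_smul, one_smul, sub_neg_eq_add, two_smul], nu_sc] at a
      exact le_trans (by simp) a
  · right
    have a := (norm_tau_le _).trans (nu_ctr_mul (opn_pl h p q) (pl χ p q - s • pl χ p' q'))
    have t : ∀ (a b : ℂ) (x : Matrix G G ℂ), tau (a • 1 - b • x) = a - b * tau x := fun a b x => by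
      have : (Fintype.card G : ℂ) ≠ 0 := Nat.cast_ne_zero.2 Fintype.card_ne_zero
      simp only [tau, trace_sub, trace_smul, trace_one, smul_eq_mul]
      field_simp
    rwa [mul_sub, mul_smul_comm, pl_mul h, pl_mul h, h.two, h.two, pl_zero h, smul_smul, t,
      tau_pl h e, mul_zero, sub_zero, h.norm_eq] at a

theorem twirl (y : Matrix G G ℂ) : ∑ r : G × G, star (pl χ r.1 r.2) * y * pl χ r.1 r.2 =
    ((Fintype.card G : ℂ) * trace y) • (1 : Matrix G G ℂ) := by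
  ext x x'
  have e : ∀ r : G × G, (star (pl χ r.1 r.2) * y * pl χ r.1 r.2) x x' =
      y (x + r.1) (x' + r.1) * (χ r.2 x * χ r.2 x') := fun r => by
    rw [star_pl h, pl, ← mul_assoc, ZZ, mul_diagonal, TT, mul_pm_apply, mul_assoc, diagonal_mul,
      pm_mul_apply (h.inv_add _)]
    ring
  simp only [Matrix.sum_apply, e, Fintype.sum_prod_type, ← Finset.mul_sum, h.sum_mul,
    Matrix.smul_apply, one_apply, smul_eq_mul]
  split_ifs with k
  · rw [k, ← Finset.sum_mul, mul_one, mul_comm]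
    exact congrArg _ (Equiv.sum_comp (Equiv.addLeft x') fun z => y z z)
  · simp

theorem exists_com (y : Matrix G G ℂ) : ∃ p q, nu (y - tau y • 1) ≤ nu (com (pl χ p q) y) := by
  have c0 : (Fintype.card G : ℂ) ≠ 0 := Nat.cast_ne_zero.2 Fintype.card_ne_zero
  have e : (Fintype.card (G × G) : ℂ) • (y - tau y • 1) =
      ∑ r : G × G, star (pl χ r.1 r.2) * com (pl χ r.1 r.2) y := by
    simp only [com, mul_sub, ← mul_assoc, pl_uni h, one_mul, Finset.sum_sub_distrib, twirl h,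
      Finset.sum_const, Finset.card_univ, smul_sub, smul_smul]
    rw [Nat.cast_smul_eq_nsmul, Fintype.card_prod, tau]
    congr 2
    push_cast
    field_simp
  have a : ∑ _r : G × G, nu (y - tau y • 1) ≤ ∑ r : G × G, nu (com (pl χ r.1 r.2) y) := by
    rw [Finset.sum_const, Finset.card_univ, nsmul_eq_mul, ← Complex.norm_natCast, ← nu_smul, e]
    exact (nu_sum_le _ _).trans (Finset.sum_le_sum fun r _ =>
      nu_ctr_mul ((opn_star _).trans_le (opn_pl h _ _)) _)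
  obtain ⟨r, -, hr⟩ := Finset.exists_le_of_sum_le Finset.univ_nonempty a
  exact ⟨_, _, hr⟩

theorem clauses {c : Fin 9 → Matrix G G ℂ} (hc : ∀ i, opn (c i) ≤ 1) {C : ℝ} (hC : 0 ≤ C)
    (hE : ∀ p q, ∃ t : Fin 4 → Matrix G G ℂ, (∀ i, opn (t i) ≤ 1) ∧ psi nu c t = 0 ∧
      ev c t = pl χ p q)
    (hS : ∀ u : Fin 4 → Matrix G G ℂ, (∀ i, opn (u i) ≤ 1) →
      ∃ p q, nu (ev c u - pl χ p q) ≤ C * psi nu c u) : Hold (Frm (2 * C + 7)) nu (ctr G) 0 := by
  refine hold_iff.2 ⟨c, hc, fun u v y hu hv hy => ?_⟩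
  obtain ⟨p, q, h1⟩ := hS u hu
  obtain ⟨p', q', h2⟩ := hS v hv
  obtain ⟨w, w1, w2, w3⟩ := hE (p + p') (q + q')
  obtain ⟨a, b, h3⟩ := exists_com h y
  obtain ⟨t, t1, t2, t3⟩ := hE a b
  have u0 := psi_nonneg c u
  have v0 := psi_nonneg c v
  have u1 := mul_nonneg hC u0
  have v1 := mul_nonneg hC v0
  have ou := opn_ev hc hu
  have ov := opn_ev hc hv
  have sg : ∀ (x z : Matrix G G ℂ) (s : ℂ), (s = 1 ∨ s = -1) →
      min (nu (x - z)) (nu (x + z)) ≤ nu (x - s • z) := by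
    rintro x z s (rfl | rfl)
    · rw [one_smul]
      exact min_le_left _ _
    · rw [neg_smul, one_smul, sub_neg_eq_add]
      exact min_le_right _ _
  have di : ∀ s : ℂ, (s = 1 ∨ s = -1) → min (nu (ev c u - s • ev c v))
      (1 - nu (ev c u - s • ev c v)) ≤ (2 * C + 7) * (psi nu c u + psi nu c v) + 0 := by
    intro s hs
    have a1 : nu (s • pl χ p' q' - s • ev c v) ≤ C * psi nu c v := by
      rw [← smul_sub, nu_smul, nu_sub_comm]
      rcases hs with rfl | rfl <;> simpa using h2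
    have a2 := nu_tri (ev c u) (pl χ p q) (s • ev c v)
    have a3 := nu_tri (pl χ p q) (s • pl χ p' q') (s • ev c v)
    have a4 := nu_tri (pl χ p q) (ev c u) (s • pl χ p' q')
    have a5 := nu_tri (ev c u) (s • ev c v) (s • pl χ p' q')
    rw [nu_sub_comm (pl χ p q) (ev c u)] at a4
    rw [nu_sub_comm (s • ev c v)] at a5
    rcases dich h p q p' q' hs with k | k
    · refine (min_le_left _ _).trans ?_
      linarith
    · refine (min_le_right _ _).trans ?_
      linarith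
  refine ⟨w, t, w1, t1, w2.le, t2.le, ?_, ?_, ?_, ?_, ?_, ?_⟩
  · have a1 := nu_mul_sub (a := ev c u) (d := pl χ p' q') ov (opn_pl h p q)
    rw [pl_mul h, ← w3] at a1
    linarith [sg (ev c u * ev c v) (ev c w) _ (h.sign q p')]
  · simpa only [one_smul] using di 1 (Or.inl rfl)
  · simpa only [neg_smul, one_smul, sub_neg_eq_add] using di (-1) (Or.inr rfl)
  · have a1 := nu_mul_sub (a := star (ev c u)) (d := pl χ p q) ou
      ((opn_star _).trans_le (opn_pl h p q))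
    rw [pl_uni h, ← star_sub, nu_star] at a1
    linarith
  · have a1 := nu_mul_sub (a := ev c u) (d := pl χ p q) ou (opn_pl h p q)
    rw [pl_mul h, h.two, h.two, pl_zero h] at a1
    linarith [sg (ev c u * ev c u) 1 _ (h.sign q p)]
  · have a1 := irr_le hy h3
    rw [t3]
    linarith [mul_nonneg hC (add_nonneg (nu_nonneg (com (pl χ a b) y))
      (nu_nonneg (y - star y * y)))]

end abs

/-! ## the concrete parameters -/

theorem star_FF : star (FF G) = FF G := pm_ct Prod.swap_swap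

theorem flip (x y : Matrix G G ℂ) : FF G * (x ⊗ₖ y) * FF G = y ⊗ₖ x := by
  ext a b
  rw [FF, mul_pm_apply, pm_mul_apply Prod.swap_swap]
  exact mul_comm _ _

theorem TT_kron (a b : G) : TT a ⊗ₖ TT b = TT (a, b) := by
  ext x y
  by_cases h1 : x.1 = y.1 + a <;> simp [TT, pm, Prod.ext_iff, h1]

theorem star_kron (x y : Matrix G G ℂ) : star (x ⊗ₖ y) = xᴴ ⊗ₖ yᴴ := conjTranspose_kronecker x y

variable {χ : G → G → ℂ} (h : Pairing χ) (e : Fin 6 → Matrix G G ℂ)
include h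

theorem par_ctr (he : ∀ i, opn (e i) ≤ 1) (i : Fin 9) : opn (par χ e i) ≤ 1 := by
  have k : ∀ j, opn ((1 : Matrix G G ℂ) ⊗ₖ e j) ≤ 1 := fun j => (opn_one_kron _).trans (he j)
  fin_cases i
  exacts [k 0, k 1, k 2, k 3, k 4, k 5,
    (opn_one_kron _).trans (opn_iso (by rw [h.HH_ct, h.HH_mul_self])), opn_pm h.inv_W,
    opn_pm Prod.swap_swap]

theorem psi1_TT (b : G) : psi1 nu (par χ e) (TT b ⊗ₖ (1 : Matrix G G ℂ)) = 0 := by
  have k : ∀ x : Matrix G G ℂ, com ((1 : Matrix G G ℂ) ⊗ₖ x) (TT b ⊗ₖ (1 : Matrix G G ℂ)) = 0 :=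
    fun x => by rw [com, ← mul_kronecker_mul, ← mul_kronecker_mul, one_mul, mul_one, one_mul,
      mul_one, sub_self]
  have k1 : cj (WW G) (TT b ⊗ₖ (1 : Matrix G G ℂ)) =
      TT b ⊗ₖ (1 : Matrix G G ℂ) * cj (FF G) (TT b ⊗ₖ (1 : Matrix G G ℂ)) := by
    rw [cj, cj, star_FF, flip, ← mul_kronecker_mul, one_mul, mul_one, TT_kron, ← TT_zero, TT_kron,
      star_eq_conjTranspose, WW, pm_ct h.inv_W, TT, pm_mul_pm, pm_mul_pm, TT]
    congr 1
    funext x
    refine Prod.ext rfl ?_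
    show x.1 + b + (x.1 + x.2 + 0) = x.2 + b
    rw [add_zero, add_right_comm, ← add_assoc, h.two, zero_add]
  have k2 : star (TT b ⊗ₖ (1 : Matrix G G ℂ)) * TT b ⊗ₖ (1 : Matrix G G ℂ) = 1 := by
    rw [star_kron, ← mul_kronecker_mul, h.TT_ct, h.TT_mul_self, conjTranspose_one, one_mul,
      one_kronecker_one]
  show nu (com (1 ⊗ₖ e 0) _) + nu (com (1 ⊗ₖ e 1) _) + nu (com (1 ⊗ₖ e 2) _) +
    nu (com (1 ⊗ₖ e 3) _) + nu (com (1 ⊗ₖ e 4) _) + nu (com (1 ⊗ₖ e 5) _) +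
    nu (com (1 ⊗ₖ HH χ) _) + nu (cj (WW G) _ - _ * cj (FF G) _) + _ = 0
  simp only [k, k1, k2, sub_self, nu_zero, add_zero]

theorem ev_TT (b : Fin 4 → G) : ev (par χ e) (fun i => TT (b i) ⊗ₖ (1 : Matrix G G ℂ)) =
    pl (fun p q : G × G => χ p.1 q.1 * χ p.2 q.2) (b 0, b 2) (b 1, b 3) := by
  have hz : ∀ a, HH χ * TT a * HH χ = ZZ χ a := fun a => by
    rw [h.HH_mul_TT, mul_assoc, h.HH_mul_self, mul_one]
  have k1 : cj (FF G * (1 : Matrix G G ℂ) ⊗ₖ HH χ * FF G) (TT (b 1) ⊗ₖ (1 : Matrix G G ℂ)) =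
      ZZ χ (b 1) ⊗ₖ (1 : Matrix G G ℂ) := by
    rw [cj, flip, star_kron, h.HH_ct, ← mul_kronecker_mul, ← mul_kronecker_mul, hz,
      conjTranspose_one, one_mul, one_mul]
  have k2 : ∀ a, FF G * TT a ⊗ₖ (1 : Matrix G G ℂ) * FF G = (1 : Matrix G G ℂ) ⊗ₖ TT a :=
    fun a => flip _ _
  have k3 : cj ((1 : Matrix G G ℂ) ⊗ₖ HH χ * FF G) (TT (b 3) ⊗ₖ (1 : Matrix G G ℂ)) =
      (1 : Matrix G G ℂ) ⊗ₖ ZZ χ (b 3) := by
    rw [cj, star_mul, star_FF, mul_assoc _ (FF G), ← mul_assoc _ (FF G), mul_assoc _ _ (FF G), k2,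
      star_kron, h.HH_ct, ← mul_kronecker_mul, ← mul_kronecker_mul, hz, conjTranspose_one, one_mul,
      one_mul]
  show TT (b 0) ⊗ₖ (1 : Matrix G G ℂ) * cj (FF G * 1 ⊗ₖ HH χ * FF G) _ * cj (FF G) _ *
    cj (1 ⊗ₖ HH χ * FF G) _ = _
  rw [k1, k3, cj, star_FF, k2, ← mul_kronecker_mul, ← mul_kronecker_mul, ← mul_kronecker_mul,
    mul_one, mul_one, one_mul, one_mul, mul_kronecker_mul, TT_kron, pl, ZZ, ZZ, ZZ,
    diagonal_kronecker_diagonal]

theorem opn_TT (b : G) : opn (TT b ⊗ₖ (1 : Matrix G G ℂ)) ≤ 1 :=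
  (opn_kron_one _).trans (opn_pm (h.inv_add b))

end PauliM

open PauliM in
theorem pauli_stmt : PauliStmt := by
  refine fun C hC => ⟨2 * C + 7, by linarith, fun G _ _ _ χ e h he hs => ?_⟩
  refine clauses (h.prod h) (par_ctr h e he) hC (fun p q => ?_) fun u hu => ?_
  · refine ⟨fun i => TT (![p.1, q.1, p.2, q.2] i) ⊗ₖ (1 : Matrix G G ℂ), fun i => opn_TT h _, ?_,
      ev_TT h e _⟩
    simp only [psi, psi1_TT h e, add_zero]
  · choose b hb using fun i => hs (u i) (hu i)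
    refine ⟨(b 0, b 2), (b 1, b 3), ?_⟩
    rw [← ev_TT h e b, psi]
    linarith [nu_ev (par_ctr h e he) hu fun i => opn_TT h (b i), hb 0, hb 1, hb 2, hb 3]

end Pool.Agent.MP_ad85d3_an.Ffg

end
end MrgPart1

-- ======== part 2: formerly Pool.Agent.MP_ad85d3_an.ffg.Grp
section MrgPart2

/-!
# PROJECT FFG, module GRP: an approximate subgroup of matrices gives a finite group
-/

open Matrix

noncomputable section

namespace Pool.Agent.MP_ad85d3_an.Ffg

namespace GrpM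

variable {n : Type} [Fintype n] [DecidableEq n]

/-- an approximate subgroup -/
structure AS (S : Set (Matrix n n ℂ)) (C d : ℝ) : Prop where
  d0 : 0 ≤ d
  d1 : d ≤ 1 / 10
  ne : S.Nonempty
  neg : ∀ g ∈ S, -g ∈ S
  ctr : ∀ g ∈ S, opn g ≤ 1
  mul : ∀ g ∈ S, ∀ h ∈ S, ∃ w ∈ S, nu (g * h - w) ≤ d
  dich : ∀ g ∈ S, ∀ h ∈ S, nu (g - h) ≤ d ∨ 1 - d ≤ nu (g - h)
  uni : ∀ g ∈ S, nu (star g * g - 1) ≤ d
  sq : ∀ g ∈ S, nu (g * g - 1) ≤ d ∨ nu (g * g + 1) ≤ d
  irr : ∀ y, opn y ≤ 1 →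
    ∃ t ∈ S, min (nu y) (nu (1 - y)) ≤ C * (nu (com t y) + nu (y - star y * y)) + d

theorem nu_neg_sub (x y : Matrix n n ℂ) : nu (-x - -y) = nu (x - y) := by
  rw [← nu_neg, neg_sub_neg, neg_sub]

variable {S : Set (Matrix n n ℂ)} {C d : ℝ}

namespace AS

variable (H : AS S C d)

include H

theorem key {g h : Matrix n n ℂ} (hg : g ∈ S) (hh : h ∈ S) (e : nu (g - h) ≤ 8 * d) :
    nu (g - h) ≤ d := (H.dich g hg h hh).resolve_right (by linarith [H.d1])

/-- closeness -/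
def st : Setoid S where
  r g h := nu (g.1 - h.1) ≤ d
  iseqv := ⟨fun g => by rw [sub_self, nu_zero]; exact H.d0, fun e => by rwa [nu_sub_comm],
    fun {g h k} e e' => H.key g.2 k.2 (by linarith [nu_tri g.1 h.1 k.1, H.d0])⟩

/-- the group -/
def Gp : Type := Quotient H.st

/-- the class of an element -/
def cl (g : Matrix n n ℂ) (hg : g ∈ S) : H.Gp := Quotient.mk H.st ⟨g, hg⟩

/-- a representative -/
def out (a : H.Gp) : Matrix n n ℂ := (Quotient.out (s := H.st) a).1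

theorem out_mem (a : H.Gp) : H.out a ∈ S := (Quotient.out (s := H.st) a).2

theorem mk_out (a : H.Gp) : H.cl (H.out a) (H.out_mem a) = a := Quotient.out_eq (s := H.st) a

theorem mk_eq {g h : Matrix n n ℂ} (hg : g ∈ S) (hh : h ∈ S) (e : nu (g - h) ≤ 8 * d) :
    H.cl g hg = H.cl h hh := Quotient.sound (s := H.st) (H.key hg hh e)

theorem near {g h : Matrix n n ℂ} {hg : g ∈ S} {hh : h ∈ S} (e : H.cl g hg = H.cl h hh) :
    nu (g - h) ≤ d := by
  have a : H.st.r ⟨g, hg⟩ ⟨h, hh⟩ := Quotient.exact e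
  exact a

theorem ex (a : H.Gp) : ∃ g hg, a = H.cl g hg := ⟨_, _, (H.mk_out a).symm⟩

instance : Mul H.Gp :=
  ⟨fun a b => H.cl _ (H.mul _ (H.out_mem a) _ (H.out_mem b)).choose_spec.1⟩

theorem mul_mk {g h w : Matrix n n ℂ} (hg : g ∈ S) (hh : h ∈ S) (hw : w ∈ S)
    (e : nu (g * h - w) ≤ 5 * d) : H.cl g hg * H.cl h hh = H.cl w hw := by
  refine H.mk_eq _ hw ?_
  have a := (H.mul _ (H.out_mem (H.cl g hg)) _ (H.out_mem (H.cl h hh))).choose_spec.2
  have b := nu_mul_sub (a := H.out (H.cl g hg)) (d := h) (H.ctr _ (H.out_mem (H.cl h hh)))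
    (H.ctr g hg)
  have c := H.near (H.mk_out (H.cl g hg))
  have c' := H.near (H.mk_out (H.cl h hh))
  rw [nu_sub_comm] at a
  refine (nu_tri _ _ _).trans ((add_le_add a ((nu_tri _ (g * h) _).trans
    (add_le_add (b.trans (add_le_add c c')) e))).trans_eq (by ring))

theorem mul_near {g h w : Matrix n n ℂ} {hg : g ∈ S} {hh : h ∈ S} {hw : w ∈ S}
    (e : H.cl g hg * H.cl h hh = H.cl w hw) : nu (g * h - w) ≤ 2 * d := by
  obtain ⟨v, hv, a⟩ := H.mul g hg h hh
  rw [H.mul_mk hg hh hv (by linarith [H.d0])] at e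
  linarith [nu_tri (g * h) v w, H.near e]

theorem assoc (a b c : H.Gp) : a * b * c = a * (b * c) := by
  obtain ⟨g, hg, rfl⟩ := H.ex a
  obtain ⟨h, hh, rfl⟩ := H.ex b
  obtain ⟨k, hk, rfl⟩ := H.ex c
  have d0 := H.d0
  obtain ⟨u, hu, a1⟩ := H.mul g hg h hh
  obtain ⟨v, hv, a2⟩ := H.mul u hu k hk
  obtain ⟨w, hw, a3⟩ := H.mul h hh k hk
  rw [H.mul_mk hg hh hu (by linarith), H.mul_mk hu hk hv (by linarith),
    H.mul_mk hh hk hw (by linarith), H.mul_mk hg hw hv]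
  have b1 := nu_ctr_mul (H.ctr g hg) (w - h * k)
  have b2 := nu_mul_ctr (g * h - u) (H.ctr k hk)
  rw [mul_sub, nu_sub_comm w, ← mul_assoc] at b1
  rw [sub_mul] at b2
  linarith [nu_tri (g * w) (g * h * k) v, nu_tri (g * h * k) (u * k) v]

theorem exists_one : ∃ e ∈ S, nu (e - 1) ≤ 2 * d := by
  obtain ⟨g, hg⟩ := H.ne
  obtain ⟨w, hw, a⟩ := H.mul g hg g hg
  rw [nu_sub_comm] at a
  rcases H.sq g hg with b | b
  · exact ⟨w, hw, by linarith [nu_tri w (g * g) 1]⟩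
  · refine ⟨-w, H.neg w hw, ?_⟩
    rw [← nu_neg_sub, neg_neg]
    rw [← sub_neg_eq_add] at b
    linarith [nu_tri w (g * g) (-1)]

/-- an approximate unit -/
def e : Matrix n n ℂ := H.exists_one.choose

theorem e_mem : H.e ∈ S := H.exists_one.choose_spec.1

theorem e_near : nu (H.e - 1) ≤ 2 * d := H.exists_one.choose_spec.2

instance : One H.Gp := ⟨H.cl _ H.e_mem⟩

theorem one_def : (1 : H.Gp) = H.cl _ H.e_mem := rfl

theorem e_mul {h : Matrix n n ℂ} (hh : h ∈ S) : nu (H.e * h - h) ≤ 5 * d := by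
  have := nu_mul_ctr (H.e - 1) (H.ctr h hh)
  rw [sub_mul, one_mul] at this
  linarith [H.e_near, H.d0]

theorem mul_e {h : Matrix n n ℂ} (hh : h ∈ S) : nu (h * H.e - h) ≤ 5 * d := by
  have := nu_ctr_mul (H.ctr h hh) (H.e - 1)
  rw [mul_sub, mul_one] at this
  linarith [H.e_near, H.d0]

theorem one_mul' (a : H.Gp) : 1 * a = a := by
  obtain ⟨h, hh, rfl⟩ := H.ex a
  exact H.mul_mk _ hh hh (H.e_mul hh)

theorem sq_e {g : Matrix n n ℂ} (hg : g ∈ S) :
    nu (g * g - H.e) ≤ 5 * d ∨ nu (g * g - -H.e) ≤ 5 * d := by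
  have a := H.e_near
  have d0 := H.d0
  rw [nu_sub_comm] at a
  refine (H.sq g hg).imp (fun b => by linarith [nu_tri (g * g) 1 H.e]) fun b => ?_
  rw [← sub_neg_eq_add] at b
  rw [← nu_neg_sub] at a
  linarith [nu_tri (g * g) (-1) (-H.e)]

theorem exists_inv (a : H.Gp) : ∃ b, b * a = 1 := by
  obtain ⟨g, hg, rfl⟩ := H.ex a
  rcases H.sq_e hg with b | b
  · exact ⟨_, H.mul_mk hg hg H.e_mem b⟩
  · refine ⟨_, H.mul_mk (H.neg g hg) hg H.e_mem ?_⟩
    rwa [← nu_neg_sub, neg_neg, ← neg_mul] at b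

instance : Inv H.Gp := ⟨fun a => (H.exists_inv a).choose⟩

instance : Group H.Gp :=
  Group.ofLeftAxioms H.assoc H.one_mul' fun a => (H.exists_inv a).choose_spec

theorem fin [Nonempty n] : Finite H.Gp := by
  have p : (0 : ℝ) < √(Fintype.card n) := by positivity
  obtain ⟨t, -, ht, hc⟩ := finite_cover_balls_of_compact
    (isCompact_closedBall (0 : EuclideanSpace ℂ (n × n)) √(Fintype.card n))
    (show 0 < √(Fintype.card n) / 4 by positivity)
  have a : ∀ a : H.Gp, ∃ x : t, dist (vz (H.out a)) x < √(Fintype.card n) / 4 := fun a => by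
    have : vz (H.out a) ∈ Metric.closedBall 0 √(Fintype.card n) := by
      rw [mem_closedBall_zero_iff]
      exact (fro_le_opn _).trans (mul_le_of_le_one_left p.le (H.ctr _ (H.out_mem a)))
    obtain ⟨x, hx, h⟩ := Set.mem_iUnion₂.1 (hc this)
    exact ⟨⟨x, hx⟩, h⟩
  choose f hf using a
  have := ht.to_subtype
  refine Finite.of_injective f fun a b e => ?_
  have h1 := dist_triangle_right (vz (H.out a)) (vz (H.out b)) (f a)
  have h2 := hf b
  have h3 := hf a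
  rw [← e] at h2
  rw [dist_eq_norm, ← map_sub] at h1
  have h4 : nu (H.out a - H.out b) < 1 / 2 := by
    rw [nu, fro, div_lt_iff₀ p]
    linarith
  rw [← H.mk_out a, ← H.mk_out b]
  exact Quotient.sound (s := H.st) ((H.dich _ (H.out_mem a) _ (H.out_mem b)).resolve_right
    (by linarith [H.d1]))

theorem sq_cases (a : H.Gp) : a * a = 1 ∨ a * a = H.cl _ (H.neg _ H.e_mem) := by
  obtain ⟨g, hg, rfl⟩ := H.ex a
  exact (H.sq_e hg).imp (H.mul_mk hg hg _) (H.mul_mk hg hg _)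

theorem z_comm (a : H.Gp) : H.cl _ (H.neg _ H.e_mem) * a = a * H.cl _ (H.neg _ H.e_mem) := by
  obtain ⟨h, hh, rfl⟩ := H.ex a
  rw [H.mul_mk _ hh (H.neg h hh) (by rw [neg_mul, nu_neg_sub]; exact H.e_mul hh),
    H.mul_mk hh _ (H.neg h hh) (by rw [mul_neg, nu_neg_sub]; exact H.mul_e hh)]

theorem z_sq : H.cl _ (H.neg _ H.e_mem) * H.cl _ (H.neg _ H.e_mem) = 1 :=
  H.mul_mk _ _ H.e_mem (by rw [neg_mul_neg]; exact H.e_mul H.e_mem)

theorem pow_four (a : H.Gp) : a ^ 4 = 1 := by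
  rw [show a ^ 4 = a * a * (a * a) by simp only [pow_succ, pow_zero, one_mul, mul_assoc]]
  rcases H.sq_cases a with b | b
  · rw [b, one_mul]
  · rw [b, H.z_sq]

theorem sq_comm (a b : H.Gp) : a * a * b = b * (a * a) := by
  rcases H.sq_cases a with c | c
  · rw [c, one_mul, mul_one]
  · rw [c, H.z_comm]

theorem arep [Fintype H.Gp] {δ : ℝ} (hC : 0 ≤ C) (hδ : (2 * C + 2) * d ≤ δ) : ARep H.out C δ := by
  have d0 := H.d0
  have c0 := mul_nonneg hC d0
  refine ⟨fun g => H.ctr _ (H.out_mem g), fun g h => ?_, fun g => ?_, fun y hy => ?_⟩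
  · have := H.mul_near (hg := H.out_mem g) (hh := H.out_mem h) (hw := H.out_mem (g * h))
      (by rw [H.mk_out, H.mk_out, H.mk_out])
    linarith
  · linarith [H.uni _ (H.out_mem g)]
  · obtain ⟨t, ht, a⟩ := H.irr y hy
    refine ⟨H.cl t ht, a.trans ?_⟩
    have b := H.near (H.mk_out (H.cl t ht))
    set s := H.out (H.cl t ht)
    have c : com t y = com s y + (y * (s - t) - (s - t) * y) := by
      simp only [com, mul_sub, sub_mul]; abel
    have e := nu_add_le (com s y) (y * (s - t) - (s - t) * y)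
    rw [← c] at e
    have f : nu (com t y) ≤ nu (com s y) + 2 * d := by
      linarith [nu_sub_le (y * (s - t)) ((s - t) * y), nu_ctr_mul hy (s - t),
        nu_mul_ctr (s - t) hy]
    nlinarith [mul_le_mul_of_nonneg_left f hC]

end AS

theorem as_of {ε : ℝ} (hC : 0 ≤ C) (hε : 0 ≤ ε) (h1 : (2 * C + 1) * ε ≤ 1 / 10)
    (h : Hold (Frm C) nu (ctr n) ε) : ∃ S : Set (Matrix n n ℂ), AS S C ((2 * C + 1) * ε) := by
  obtain ⟨c, hc, h⟩ := hold_iff.1 h
  have z : (0 : Matrix n n ℂ) ∈ ctr n := opn_zero.trans_le zero_le_one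
  have c0 := mul_nonneg hC hε
  set S : Set (Matrix n n ℂ) :=
    {g | ∃ u, (∀ i, u i ∈ ctr n) ∧ psi nu c u ≤ ε ∧ (g = ev c u ∨ g = -ev c u)} with hS
  have neg : ∀ g ∈ S, -g ∈ S := by
    rintro g ⟨u, a, b, rfl | rfl⟩
    exacts [⟨u, a, b, Or.inr rfl⟩, ⟨u, a, b, Or.inl (neg_neg _)⟩]
  have bd : ∀ u v : Fin 4 → Matrix n n ℂ, psi nu c u ≤ ε → psi nu c v ≤ ε →
      C * (psi nu c u + psi nu c v) + ε ≤ (2 * C + 1) * ε := fun u v a b => by
    nlinarith [mul_le_mul_of_nonneg_left (add_le_add a b) hC]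
  refine ⟨S, by positivity, h1, ?_, neg, ?_, ?_, ?_, ?_, ?_, fun y hy => ?_⟩
  · obtain ⟨w, t, a, -, k⟩ := h (fun _ => 0) (fun _ => 0) 0 (fun _ => z) (fun _ => z) z
    exact ⟨_, w, a, k.pw, Or.inl rfl⟩
  · rintro g ⟨u, a, -, rfl | rfl⟩
    exacts [opn_ev hc a, (opn_neg _).trans_le (opn_ev hc a)]
  · rintro g ⟨u, a, b, e⟩ g' ⟨v, a', b', e'⟩
    obtain ⟨w, t, hw, -, k⟩ := h u v 0 a a' z
    have m : ev c w ∈ S := ⟨w, hw, k.pw, Or.inl rfl⟩
    obtain ⟨x, hx, q⟩ : ∃ x ∈ S, nu (ev c u * ev c v - x) ≤ (2 * C + 1) * ε := by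
      rcases min_le_iff.1 (k.mul.trans (bd u v b b')) with q | q
      · exact ⟨_, m, q⟩
      · exact ⟨_, neg _ m, by rwa [sub_neg_eq_add]⟩
    rcases e with rfl | rfl <;> rcases e' with rfl | rfl
    · exact ⟨x, hx, q⟩
    · exact ⟨_, neg x hx, by rwa [mul_neg, nu_neg_sub]⟩
    · exact ⟨_, neg x hx, by rwa [neg_mul, nu_neg_sub]⟩
    · exact ⟨x, hx, by rwa [neg_mul_neg]⟩
  · rintro g ⟨u, a, b, e⟩ g' ⟨v, a', b', e'⟩
    obtain ⟨w, t, -, -, k⟩ := h u v 0 a a' z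
    have q1 := (min_le_iff.1 (k.sub.trans (bd u v b b'))).imp_right sub_le_comm.1
    have q2 := (min_le_iff.1 (k.add.trans (bd u v b b'))).imp_right sub_le_comm.1
    rcases e with rfl | rfl <;> rcases e' with rfl | rfl
    · exact q1
    · rwa [sub_neg_eq_add]
    · rwa [← nu_neg_sub, neg_neg, sub_neg_eq_add]
    · rwa [nu_neg_sub]
  · rintro g ⟨u, a, b, e⟩
    obtain ⟨w, t, -, -, k⟩ := h u u 0 a a z
    have q := k.uni.trans (bd u u b b)
    rcases e with rfl | rfl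
    · exact q
    · rwa [star_neg, neg_mul_neg]
  · rintro g ⟨u, a, b, e⟩
    obtain ⟨w, t, -, -, k⟩ := h u u 0 a a z
    have q := min_le_iff.1 (k.sq.trans (bd u u b b))
    rcases e with rfl | rfl
    · exact q
    · rwa [neg_mul_neg]
  · obtain ⟨w, t, -, ht, k⟩ := h (fun _ => 0) (fun _ => 0) y (fun _ => z) (fun _ => z) hy
    exact ⟨_, ⟨t, ht, k.pt, Or.inl rfl⟩, k.irr.trans (by linarith)⟩

end GrpM

theorem grp_stmt : GrpStmt := by
  intro C δ hC hδ
  have p : 0 < 2 * C + 1 := by positivity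
  have q : 0 < min (1 / 10) (δ / (2 * C + 2)) := lt_min (by norm_num) (by positivity)
  have e : (2 * C + 1) * (min (1 / 10) (δ / (2 * C + 2)) / (2 * C + 1)) =
      min (1 / 10) (δ / (2 * C + 2)) := mul_div_cancel₀ _ p.ne'
  refine ⟨_, div_pos q p, fun n _ _ _ h => ?_⟩
  obtain ⟨S, H⟩ := GrpM.as_of hC (div_pos q p).le (e.trans_le (min_le_left _ _)) h
  have := H.fin
  let _ := Fintype.ofFinite H.Gp
  refine ⟨H.Gp, inferInstance, inferInstance, H.out, H.arep hC ?_, H.pow_four, H.sq_comm⟩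
  rw [e, ← le_div_iff₀' (by positivity)]
  exact min_le_right _ _

end Pool.Agent.MP_ad85d3_an.Ffg

end
end MrgPart2

-- ======== part 3: formerly Pool.Agent.MP_ad85d3_an.ffg.Sep
section MrgPart3

/-!
# PROJECT FFG, module SEP: a countable elementary subsystem and its GNS representation
-/

open Filter Topology
open scoped ComplexOrder InnerProductSpace ComplexConjugate

noncomputable section

namespace Pool.Agent.MP_ad85d3_an.Ffg

namespace SepM

/-- closure under countably many operations -/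
theorem exists_closed {A : Type} (D₀ : Set A) (h₀ : D₀.Countable) (O : Set ((Fin 9 → A) → A))
    (hO : O.Countable) : ∃ D : Set A, D.Countable ∧ D₀ ⊆ D ∧
      ∀ o ∈ O, ∀ v : Fin 9 → A, (∀ i, v i ∈ D) → o v ∈ D := by
  let E : ℕ → Set A := fun n => Nat.rec D₀
    (fun _ S => S ∪ ⋃ o ∈ O, o '' {v : Fin 9 → A | ∀ i, v i ∈ S}) n
  have hc : ∀ n, (E n).Countable := fun n => by
    induction n with
    | zero => exact h₀
    | succ n ih => exact ih.union (hO.biUnion fun o _ => (Set.countable_pi fun _ => ih).image o)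
  have hm : Monotone E := monotone_nat_of_le_succ fun n => Set.subset_union_left
  refine ⟨⋃ n, E n, Set.countable_iUnion hc, Set.subset_iUnion E 0, fun o ho v hv => ?_⟩
  choose n hn using fun i => Set.mem_iUnion.1 (hv i)
  refine Set.mem_iUnion.2 ⟨Finset.univ.sup n + 1, Or.inr (Set.mem_biUnion ho ⟨v, fun i => ?_, rfl⟩)⟩
  exact hm (Finset.le_sup (Finset.mem_univ i)) (hn i)

section alg

variable {A A' : Type} [Ring A] [StarRing A] [Algebra ℂ A] [StarModule ℂ A]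
  [Ring A'] [StarRing A'] [Algebra ℂ A'] [StarModule ℂ A']

/-- the space of the GNS construction -/
theorem gns_space {τ : A →ₗ[ℂ] ℂ} (h : PreTr τ) :
    ∃ (H : Type) (_ : NormedAddCommGroup H) (_ : InnerProductSpace ℂ H) (_ : CompleteSpace H)
      (j : A →ₗ[ℂ] H), DenseRange j ∧ (∀ x y, ⟪j x, j y⟫_ℂ = τ (star x * y)) ∧
      ∀ x, ∃ T : Op H, ∀ y, T (j y) = j (x * y) := by
  let c : PreInnerProductSpace.Core ℂ A :=
    { inner := fun a b => τ (star a * b)
      conj_inner_symm := fun a b => by rw [← h.star, star_mul, star_star]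
      re_inner_nonneg := fun a => (h.pos a).1
      add_left := fun a b d => by rw [star_add, add_mul, map_add]
      smul_left := fun a b r => by rw [star_smul, smul_mul_assoc, map_smul]; rfl }
  let : SeminormedAddCommGroup A := InnerProductSpace.Core.toSeminormedAddCommGroup (c := c)
  let : InnerProductSpace ℂ A := InnerProductSpace.ofCore c
  refine ⟨UniformSpace.Completion A, inferInstance, inferInstance, inferInstance,
    (UniformSpace.Completion.toComplL : A →L[ℂ] _).toLinearMap,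
    UniformSpace.Completion.denseRange_coe, fun x y => UniformSpace.Completion.inner_coe x y,
    fun x => ?_⟩
  exact ⟨((LinearMap.mul ℂ A x).mkContinuousOfExistsBound (h.bdd x)).completion,
    fun y => ContinuousLinearMap.completion_apply_coe _ y⟩

/-- the GNS representation -/
theorem gns {τ : A →ₗ[ℂ] ℂ} (h : PreTr τ) :
    ∃ (H : Type) (_ : NormedAddCommGroup H) (_ : InnerProductSpace ℂ H) (_ : CompleteSpace H)
      (j : A →ₗ[ℂ] H) (π : A →⋆ₐ[ℂ] Op H), DenseRange j ∧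
      (∀ x y, ⟪j x, j y⟫_ℂ = τ (star x * y)) ∧ ∀ x y, π x (j y) = j (x * y) := by
  obtain ⟨H, _, _, _, j, hj, hi, hT⟩ := gns_space h
  choose T hT using hT
  have ext : ∀ S S' : Op H, (∀ y, S (j y) = S' (j y)) → S = S' := fun S S' e =>
    DFunLike.coe_injective (hj.equalizer S.continuous S'.continuous (funext e))
  have h1 : T 1 = 1 := ext _ _ fun y => by rw [hT, one_mul]; rfl
  have hs : ∀ (c : ℂ) x, T (c • x) = c • T x := fun c x => ext _ _ fun y => by
    rw [hT, smul_mul_assoc, map_smul, ← hT]; rfl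
  refine ⟨H, _, _, ‹_›, j,
    { toFun := T
      map_one' := h1
      map_mul' := fun x y => ext _ _ fun z => by
        rw [hT, mul_assoc, ← hT, ← hT]; rfl
      map_zero' := ext _ _ fun z => by rw [hT, zero_mul, map_zero]; rfl
      map_add' := fun x y => ext _ _ fun z => by rw [hT, add_mul, map_add, ← hT, ← hT]; rfl
      commutes' := fun c => by
        rw [Algebra.algebraMap_eq_smul_one, Algebra.algebraMap_eq_smul_one, hs, h1]
      map_star' := fun x => ?_ }, hj, hi, hT⟩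
  refine (ContinuousLinearMap.eq_adjoint_iff _ _).2 fun u v => ?_
  refine hj.induction_on₂ (p := fun u v => ⟪T (star x) u, v⟫_ℂ = ⟪u, T x v⟫_ℂ)
    (isClosed_eq (by fun_prop) (by fun_prop)) (fun a b => ?_) u v
  rw [hT, hT, hi, hi, star_mul, star_star, mul_assoc]

omit [StarModule ℂ A] [StarModule ℂ A'] in
theorem opMap (φ : A →⋆ₐ[ℂ] A') : OpMap φ :=
  ⟨map_one φ, map_add φ, map_sub φ, map_mul φ, map_star φ⟩

omit [StarModule ℂ A] [StarModule ℂ A'] in
theorem mu_map (φ : A →⋆ₐ[ℂ] A') {e : Fin 3 → Fin 3 → A} (h : MU e) :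
    MU fun i j => φ (e i j) := by
  refine ⟨fun i j k l => ?_, fun i j => by rw [← map_star, h.star], by rw [← map_sum, h.sum, map_one]⟩
  rw [← map_mul, h.mul]
  split_ifs
  · rfl
  · exact map_zero φ

omit [StarModule ℂ A] [StarModule ℂ A'] in
theorem mu_of (φ : A →⋆ₐ[ℂ] A') (hφ : Function.Injective φ) {e : Fin 3 → Fin 3 → A}
    (h : MU fun i j => φ (e i j)) : MU e := by
  refine ⟨fun i j k l => hφ ?_, fun i j => hφ (by rw [map_star]; exact h.star i j),
    hφ (by rw [map_sum, map_one]; exact h.sum)⟩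
  rw [map_mul, h.mul i j k l]
  split_ifs
  · rfl
  · exact (map_zero φ).symm

omit [StarModule ℂ A] [StarModule ℂ A'] in
theorem map_Ex (φ : A →⋆ₐ[ℂ] A') (e : Fin 3 → Fin 3 → A) (y : A) :
    φ (Ex e y) = Ex (fun i j => φ (e i j)) (φ y) := by
  simp only [Ex, map_smul, map_sum, map_mul]

/-- a countable elementary subsystem -/
structure Sub {F : (Tm → ℝ) → ℝ} {η : ℝ} (T : TS A F η) (D : Set A) : Prop where
  cnt : D.Countable
  one : 1 ∈ D
  f : ∀ i j, T.f i j ∈ D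
  g : ∀ i j, T.g i j ∈ D
  s : ∀ n, T.s n ∈ D
  add : ∀ x ∈ D, ∀ y ∈ D, x + y ∈ D
  mul : ∀ x ∈ D, ∀ y ∈ D, x * y ∈ D
  star : ∀ x ∈ D, star x ∈ D
  smul : ∀ n, ∀ x ∈ D, TopologicalSpace.denseSeq ℂ n • x ∈ D
  b₀ : ∀ d ∈ D, ∀ y, y = Ex T.f (Ex T.g d) → ∃ b ∈ D ∩ T.L₀, b * (1 + Star.star y * y) = y + y
  b₃ : ∀ d ∈ D, ∀ y, y = Ex T.f d → ∃ b ∈ D ∩ T.L₃, b * (1 + Star.star y * y) = y + y
  good : Hold F (nm T.τ) (D ∩ T.L₀) 0
  bad : ¬ Hold F (nm T.τ) (D ∩ T.L₃) η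

omit [StarModule ℂ A] in
theorem exists_sub {F : (Tm → ℝ) → ℝ} {η : ℝ} (T : TS A F η) : ∃ D, Sub T D := by
  obtain ⟨a, ha, hz⟩ := T.good
  choose! Z hZ hZ' using hz
  have hx := T.bad
  simp only [Hold, not_exists, not_and, not_forall] at hx
  choose! X hX hX' using hx
  choose β₀ hβ₀ hβ₀' using fun d => T.b₀ (Ex T.f (Ex T.g d)) (T.hf.cm_Ex _)
    fun i j => comm_Ex (T.fg i j) (T.hg.cm_Ex d i j)
  choose β₃ hβ₃ hβ₃' using fun d => T.b₃ (Ex T.f d) (T.hf.cm_Ex _)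
  obtain ⟨D, h1, h2, h3⟩ := exists_closed
    ({1} ∪ Set.range (Function.uncurry T.f) ∪ Set.range (Function.uncurry T.g) ∪ Set.range T.s ∪
      Set.range a)
    (((((Set.countable_singleton _).union (Set.countable_range _)).union
      (Set.countable_range _)).union (Set.countable_range _)).union (Set.countable_range _))
    (Set.range ![fun v => v 0 + v 1, fun v => v 0 * v 1, fun v => star (v 0), fun v => β₀ (v 0),
        fun v => β₃ (v 0)] ∪ Set.range (fun n v => TopologicalSpace.denseSeq ℂ n • v 0) ∪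
      Set.range (fun i v => Z v i) ∪ Set.range fun i v => X v i)
    ((((Set.countable_range _).union (Set.countable_range _)).union
      (Set.countable_range _)).union (Set.countable_range _))
  have two : ∀ x ∈ D, ∀ y ∈ D, ∀ i : Fin 9, (if i = 0 then x else y) ∈ D := fun x hx y hy i => by
    split_ifs <;> assumption
  refine ⟨D, h1, h2 (by simp), fun i j => h2 (.inl (.inl (.inl (.inr ⟨(i, j), rfl⟩)))),
    fun i j => h2 (.inl (.inl (.inr ⟨(i, j), rfl⟩))), fun n => h2 (.inl (.inr ⟨n, rfl⟩)),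
    fun x hx y hy => h3 _ (.inl (.inl (.inl ⟨0, rfl⟩))) _ (two x hx y hy),
    fun x hx y hy => h3 _ (.inl (.inl (.inl ⟨1, rfl⟩))) _ (two x hx y hy),
    fun x hx => h3 _ (.inl (.inl (.inl ⟨2, rfl⟩))) (fun _ => x) fun _ => hx,
    fun n x hx => h3 _ (.inl (.inl (.inr ⟨n, rfl⟩))) (fun _ => x) fun _ => hx,
    fun d hd y hy => ⟨β₀ d, ⟨h3 _ (.inl (.inl (.inl ⟨3, rfl⟩))) (fun _ => d) fun _ => hd, hβ₀ d⟩,
      hy ▸ hβ₀' d⟩,
    fun d hd y hy => ⟨β₃ d, ⟨h3 _ (.inl (.inl (.inl ⟨4, rfl⟩))) (fun _ => d) fun _ => hd, hβ₃ d⟩,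
      hy ▸ hβ₃' d⟩,
    ⟨a, fun i => ⟨h2 (.inr ⟨i, rfl⟩), ha i⟩, fun x hx => ⟨Z x, fun i =>
      ⟨h3 _ (.inl (.inr ⟨i, rfl⟩)) x fun i => (hx i).1, hZ x (fun i => (hx i).2) i⟩,
      hZ' x fun i => (hx i).2⟩⟩, ?_⟩
  rintro ⟨b, hb, k⟩
  obtain ⟨z, hz, k⟩ := k (X b) fun i =>
    ⟨h3 _ (.inr ⟨i, rfl⟩) b fun i => (hb i).1, hX b (fun i => (hb i).2) i⟩
  exact hX' b (fun i => (hb i).2) z (fun i => (hz i).2) k

theorem mem_span {D : Set A} (h1 : 1 ∈ D) (hm : ∀ x ∈ D, ∀ y ∈ D, x * y ∈ D)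
    (hs : ∀ x ∈ D, star x ∈ D) {x : A} (hx : x ∈ StarAlgebra.adjoin ℂ D) :
    x ∈ Submodule.span ℂ D := by
  have h : x ∈ Subalgebra.toSubmodule (StarAlgebra.adjoin ℂ D).toSubalgebra := hx
  rw [StarAlgebra.adjoin_eq_span] at h
  refine Submodule.span_mono ?_ h
  refine (Submonoid.closure_le
    (S := { carrier := D, mul_mem' := fun a b => hm _ a _ b, one_mem' := h1 })).2 ?_
  rintro y (hy | hy)
  · exact hy
  · simpa using hs _ hy

end alg

end SepM

open SepM in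
theorem sep_stmt : SepStmt := by
  intro A _ _ _ _ F η T
  obtain ⟨D, hD⟩ := exists_sub T
  let B : StarSubalgebra ℂ A := StarAlgebra.adjoin ℂ D
  have hB : ∀ x ∈ D, x ∈ B := fun x hx => StarAlgebra.subset_adjoin ℂ D hx
  let τ : B →ₗ[ℂ] ℂ := T.τ ∘ₗ B.subtype.toAlgHom.toLinearMap
  have hτ : PreTr τ := ⟨T.tr.one, fun x => T.tr.pos x, fun x => T.tr.star x,
    fun x y => T.tr.comm x y, fun x => (T.tr.bdd x).imp fun C hC y => hC y⟩
  obtain ⟨H, _, _, _, j, π, hj, hi, hπ⟩ := gns hτ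
  have hΩ : ∀ x, π x (j 1) = j x := fun x => by rw [hπ, mul_one]
  have hn : ∀ x : B, ‖j x‖ = nm T.τ (x : A) := fun x => by
    rw [@norm_eq_sqrt_re_inner ℂ, hi]
    rfl
  have hv : ∀ x, vec (j 1) (π x) = τ x := fun x => by
    change ⟪j 1, π x (j 1)⟫_ℂ = _
    rw [hΩ, hi, star_one, one_mul]
  have hc : ∀ x : B, (∀ y, nm T.τ (x * y : A) ≤ nm T.τ y) → ‖π x‖ ≤ 1 := fun x hx => by
    refine ContinuousLinearMap.opNorm_le_bound _ zero_le_one fun v => ?_
    refine hj.induction_on (p := fun v => ‖π x v‖ ≤ 1 * ‖v‖) v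
      (isClosed_le (by fun_prop) (by fun_prop)) fun y => ?_
    rw [hπ, hn, hn, one_mul]
    exact hx y
  have hd : Dense (j '' {x : B | (x : A) ∈ D}) := by
    have sm : ∀ (c : ℂ) v, v ∈ closure (j '' {x : B | (x : A) ∈ D}) →
        c • v ∈ closure (j '' {x : B | (x : A) ∈ D}) := fun c v hv => by
      refine map_mem_closure₂ (f := fun (c : ℂ) (v : H) => c • v) continuous_smul
        (TopologicalSpace.denseRange_denseSeq ℂ c) hv ?_
      rintro _ ⟨n, rfl⟩ _ ⟨x, hx, rfl⟩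
      exact ⟨_ • x, hD.smul n _ hx, map_smul j _ _⟩
    have key : ∀ x ∈ Submodule.span ℂ D, ∀ hx : x ∈ B,
        j ⟨x, hx⟩ ∈ closure (j '' {x : B | (x : A) ∈ D}) := by
      intro x hx
      have hle : Submodule.span ℂ D ≤ Subalgebra.toSubmodule B.toSubalgebra :=
        Submodule.span_le.2 hB
      induction hx using Submodule.span_induction with
      | mem x hx => exact fun _ => subset_closure ⟨_, hx, rfl⟩
      | zero =>
        intro _
        have := sm 0 _ (subset_closure ⟨1, hD.one, rfl⟩)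
        rw [zero_smul, ← map_zero j] at this
        exact this
      | add x y hx hy ix iy =>
        intro _
        have := map_mem_closure₂ (f := fun u v : H => u + v) continuous_add
          (ix (hle hx)) (iy (hle hy)) (u := j '' {x : B | (x : A) ∈ D}) (by
            rintro _ ⟨x, hx, rfl⟩ _ ⟨y, hy, rfl⟩
            exact ⟨x + y, hD.add _ hx _ hy, map_add j _ _⟩)
        rw [← map_add] at this
        exact this
      | smul c x hx ix =>
        intro _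
        have := sm c _ (ix (hle hx))
        rw [← map_smul] at this
        exact this
    refine dense_closure.1 (Dense.mono ?_ hj)
    rintro _ ⟨x, rfl⟩
    exact key x (mem_span hD.one hD.mul hD.star x.2) x.2
  let f : Fin 3 → Fin 3 → B := fun i j => ⟨T.f i j, hB _ (hD.f i j)⟩
  let g : Fin 3 → Fin 3 → B := fun i j => ⟨T.g i j, hB _ (hD.g i j)⟩
  have cm : ∀ (e : Fin 3 → Fin 3 → B) (x : B), Cm (fun i j => (e i j : A)) x →
      Cm (fun i j => π (e i j)) (π x) := fun e x h i k => by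
    rw [← map_mul, ← map_mul]
    exact congrArg π (Subtype.ext (h i k))
  have beta : ∀ b y : B, (b : A) * (1 + star (y : A) * y) = y + y →
      π b * (1 + star (π y) * π y) = π y + π y := fun b y h => by
    rw [← map_star, ← map_mul, ← map_one π, ← map_add, ← map_mul, ← map_add]
    exact congrArg π (Subtype.ext h)
  have hold : ∀ (L : Set A) (ε : ℝ), Hold F (fun x : Op H => ‖x (j 1)‖)
      (π '' {x : B | (x : A) ∈ D ∩ L}) ε ↔ Hold F (nm T.τ) (D ∩ L) ε := fun L ε => by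
    have e : B.subtype '' {x : B | (x : A) ∈ D ∩ L} = D ∩ L := by
      refine Set.Subset.antisymm ?_ fun x hx => ⟨⟨x, hB x hx.1⟩, hx, rfl⟩
      rintro _ ⟨x, hx, rfl⟩
      exact hx
    rw [hold_map (opMap π), ← e, hold_map (opMap B.subtype), e]
    simp only [hΩ, hn]
    rfl
  refine ⟨H, _, _, ‹_›, ⟨_, (hD.cnt.preimage Subtype.val_injective).image j, hd⟩, ⟨
    { Ω := j 1
      S := Set.range π
      unit := by rw [hn, nm, OneMemClass.coe_one, star_one, one_mul, T.tr.one]; simp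
      one := ⟨1, map_one π⟩
      star_mem := by rintro _ ⟨x, rfl⟩; exact ⟨star x, map_star π x⟩
      mul_mem := by rintro _ ⟨x, rfl⟩ _ ⟨y, rfl⟩; exact ⟨x * y, map_mul π x y⟩
      comm := by
        rintro _ ⟨x, rfl⟩ _ ⟨y, rfl⟩
        rw [← map_mul, ← map_mul, hv, hv, hτ.comm]
      D := π '' {x : B | (x : A) ∈ D}
      sub := Set.image_subset_range _ _
      dense := by
        rw [Set.image_image]
        simpa only [hΩ] using hd
      f := fun i j => π (f i j)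
      g := fun i j => π (g i j)
      hf := mu_map π (mu_of B.subtype Subtype.val_injective T.hf)
      hg := mu_map π (mu_of B.subtype Subtype.val_injective T.hg)
      fg := fun i j => cm f (g i j) (T.fg i j)
      fS := fun i j => ⟨_, rfl⟩
      gS := fun i j => ⟨_, rfl⟩
      L₀ := π '' {x : B | (x : A) ∈ D ∩ T.L₀}
      L₃ := π '' {x : B | (x : A) ∈ D ∩ T.L₃}
      c₀ := by
        rintro _ ⟨x, hx, rfl⟩
        have := T.c₀ _ hx.2
        exact ⟨⟨_, rfl⟩, hc x this.1, cm f x this.2.1, cm g x this.2.2⟩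
      c₃ := by
        rintro _ ⟨x, hx, rfl⟩
        have := T.c₃ _ hx.2
        exact ⟨⟨_, rfl⟩, hc x this.1, cm f x this.2⟩
      b₀ := by
        rintro _ ⟨d, hd, rfl⟩ _ rfl
        obtain ⟨b, hb, e⟩ := hD.b₀ _ hd (B.subtype (Ex f (Ex g d))) (by rw [map_Ex, map_Ex]; rfl)
        rw [← map_Ex, ← map_Ex]
        exact ⟨_, ⟨⟨b, hB b hb.1⟩, hb, rfl⟩, beta _ _ e⟩
      b₃ := by
        rintro _ ⟨d, hd, rfl⟩ _ rfl
        obtain ⟨b, hb, e⟩ := hD.b₃ _ hd (B.subtype (Ex f d)) (by rw [map_Ex]; rfl)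
        rw [← map_Ex]
        exact ⟨_, ⟨⟨b, hB b hb.1⟩, hb, rfl⟩, beta _ _ e⟩
      s := fun n => π ⟨T.s n, hB _ (hD.s n)⟩
      hs := fun n => ⟨⟨_, rfl⟩, cm f _ (T.hs n).1, cm g _ (T.hs n).2⟩
      orth := orthonormal_iff_ite.2 fun m n => by
        rw [hΩ, hΩ, hi]
        exact T.orth m n
      good := (hold _ _).2 hD.good
      bad := fun h => hD.bad ((hold _ _).1 h) }⟩⟩

end Pool.Agent.MP_ad85d3_an.Ffg

end
end MrgPart3

-- ======== part 4: formerly Pool.Agent.MP_ad85d3_an.ffg.Kap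
section MrgPart4

/-!
# PROJECT FFG, module KAP: Kaplansky density, passing to the von Neumann algebras
-/

open Filter Topology
open scoped ComplexOrder InnerProductSpace ComplexConjugate

noncomputable section

namespace Pool.Agent.MP_ad85d3_an.Ffg

namespace KapM

set_option linter.unusedSectionVars false

variable {H : Type} [NormedAddCommGroup H] [InnerProductSpace ℂ H] [CompleteSpace H]
  {Ω : H} {J : H ≃ₗᵢ⋆[ℂ] H} {P : VonNeumannAlgebra H}

/-- all entries lie in the unit ball -/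
def Bl (P : VonNeumannAlgebra H) (a : Fin 9 → Op H) : Prop := ∀ i, a i ∈ ball P

/-- entrywise close in the `2`-norm -/
def Nr (Ω : H) (δ : ℝ) (a a' : Fin 9 → Op H) : Prop := ∀ i, ‖(a i - a' i) Ω‖ ≤ δ

theorem Nr.refl (Ω : H) {δ : ℝ} (hδ : 0 ≤ δ) (a : Fin 9 → Op H) : Nr Ω δ a a := fun i => by
  rw [sub_self]; simpa using hδ

theorem orb_add (x y : Op H) : ‖(x + y) Ω‖ ≤ ‖x Ω‖ + ‖y Ω‖ := norm_add_le (x Ω) (y Ω)

theorem orb_sub (x y : Op H) : ‖(x - y) Ω‖ ≤ ‖x Ω‖ + ‖y Ω‖ := norm_sub_le (x Ω) (y Ω)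

theorem orb_mul (x y : Op H) : ‖(x * y) Ω‖ ≤ ‖x‖ * ‖y Ω‖ := x.le_opNorm (y Ω)

theorem orb_symm (x y : Op H) : ‖(x - y) Ω‖ = ‖(y - x) Ω‖ := norm_sub_rev (x Ω) (y Ω)

/-! ### terms -/

theorem term_bd (P : VonNeumannAlgebra H) (t : Tm) : ∃ C : ℝ, 0 ≤ C ∧ ∀ a x z : Fin 9 → Op H,
    Bl P a → Bl P x → Bl P z → t.eval a x z ∈ P ∧ ‖t.eval a x z‖ ≤ C := by
  induction t with
  | va i => exact ⟨1, zero_le_one, fun a x z ha _ _ => ha i⟩
  | vx i => exact ⟨1, zero_le_one, fun a x z _ hx _ => hx i⟩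
  | vz i => exact ⟨1, zero_le_one, fun a x z _ _ hz => hz i⟩
  | one => exact ⟨1, zero_le_one, fun a x z _ _ _ =>
      ⟨one_mem P, ContinuousLinearMap.norm_id_le⟩⟩
  | add s t hs ht =>
    obtain ⟨C, hC, h⟩ := hs
    obtain ⟨C', hC', h'⟩ := ht
    exact ⟨C + C', add_nonneg hC hC', fun a x z ha hx hz =>
      ⟨add_mem (h a x z ha hx hz).1 (h' a x z ha hx hz).1,
        (norm_add_le _ _).trans (add_le_add (h a x z ha hx hz).2 (h' a x z ha hx hz).2)⟩⟩
  | sub s t hs ht =>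
    obtain ⟨C, hC, h⟩ := hs
    obtain ⟨C', hC', h'⟩ := ht
    exact ⟨C + C', add_nonneg hC hC', fun a x z ha hx hz =>
      ⟨sub_mem (h a x z ha hx hz).1 (h' a x z ha hx hz).1,
        (norm_sub_le _ _).trans (add_le_add (h a x z ha hx hz).2 (h' a x z ha hx hz).2)⟩⟩
  | mul s t hs ht =>
    obtain ⟨C, hC, h⟩ := hs
    obtain ⟨C', hC', h'⟩ := ht
    exact ⟨C * C', mul_nonneg hC hC', fun a x z ha hx hz =>
      ⟨mul_mem (h a x z ha hx hz).1 (h' a x z ha hx hz).1,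
        (norm_mul_le _ _).trans (mul_le_mul (h a x z ha hx hz).2 (h' a x z ha hx hz).2
          (norm_nonneg _) hC)⟩⟩
  | star t ht =>
    obtain ⟨C, hC, h⟩ := ht
    exact ⟨C, hC, fun a x z ha hx hz =>
      ⟨star_mem (h a x z ha hx hz).1, (norm_star _).le.trans (h a x z ha hx hz).2⟩⟩

/-- the Lipschitz property of a term -/
def Lip (Ω : H) (P : VonNeumannAlgebra H) (t : Tm) (C : ℝ) : Prop :=
  ∀ (δ : ℝ) (a x z a' x' z' : Fin 9 → Op H), 0 ≤ δ → Bl P a → Bl P x → Bl P z → Bl P a' →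
    Bl P x' → Bl P z' → Nr Ω δ a a' → Nr Ω δ x x' → Nr Ω δ z z' →
    ‖(t.eval a x z - t.eval a' x' z') Ω‖ ≤ C * δ

theorem term_lip (h : Std Ω J P) (t : Tm) : ∃ C : ℝ, 0 ≤ C ∧ Lip Ω P t C := by
  induction t with
  | va i => exact ⟨1, zero_le_one, fun δ a x z a' x' z' _ _ _ _ _ _ _ k _ _ => by
      rw [one_mul]; exact k i⟩
  | vx i => exact ⟨1, zero_le_one, fun δ a x z a' x' z' _ _ _ _ _ _ _ _ k _ => by
      rw [one_mul]; exact k i⟩
  | vz i => exact ⟨1, zero_le_one, fun δ a x z a' x' z' _ _ _ _ _ _ _ _ _ k => by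
      rw [one_mul]; exact k i⟩
  | one => exact ⟨0, le_rfl, fun δ a x z a' x' z' _ _ _ _ _ _ _ _ _ _ => by
      simp [Tm.eval]⟩
  | add s t hs ht =>
    obtain ⟨C, hC, k⟩ := hs
    obtain ⟨C', hC', k'⟩ := ht
    refine ⟨C + C', add_nonneg hC hC', fun δ a x z a' x' z' h0 h1 h2 h3 h4 h5 h6 h7 h8 h9 => ?_⟩
    have e1 := k δ a x z a' x' z' h0 h1 h2 h3 h4 h5 h6 h7 h8 h9
    have e2 := k' δ a x z a' x' z' h0 h1 h2 h3 h4 h5 h6 h7 h8 h9
    rw [Tm.eval, Tm.eval, add_sub_add_comm, add_mul]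
    exact (orb_add _ _).trans (add_le_add e1 e2)
  | sub s t hs ht =>
    obtain ⟨C, hC, k⟩ := hs
    obtain ⟨C', hC', k'⟩ := ht
    refine ⟨C + C', add_nonneg hC hC', fun δ a x z a' x' z' h0 h1 h2 h3 h4 h5 h6 h7 h8 h9 => ?_⟩
    have e1 := k δ a x z a' x' z' h0 h1 h2 h3 h4 h5 h6 h7 h8 h9
    have e2 := k' δ a x z a' x' z' h0 h1 h2 h3 h4 h5 h6 h7 h8 h9
    rw [Tm.eval, Tm.eval, sub_sub_sub_comm, add_mul]
    exact (orb_sub _ _).trans (add_le_add e1 e2)
  | mul s t hs ht =>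
    obtain ⟨C, hC, k⟩ := hs
    obtain ⟨C', hC', k'⟩ := ht
    obtain ⟨B, hB, b⟩ := term_bd P s
    obtain ⟨B', hB', b'⟩ := term_bd P t
    refine ⟨B * C' + B' * C, by positivity,
      fun δ a x z a' x' z' h0 h1 h2 h3 h4 h5 h6 h7 h8 h9 => ?_⟩
    have e1 := k δ a x z a' x' z' h0 h1 h2 h3 h4 h5 h6 h7 h8 h9
    have e2 := k' δ a x z a' x' z' h0 h1 h2 h3 h4 h5 h6 h7 h8 h9
    have m1 := b a x z h1 h2 h3
    have m2 := b a' x' z' h4 h5 h6
    have m3 := b' a' x' z' h4 h5 h6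
    have e : s.eval a x z * t.eval a x z - s.eval a' x' z' * t.eval a' x' z' =
        s.eval a x z * (t.eval a x z - t.eval a' x' z') +
          (s.eval a x z - s.eval a' x' z') * t.eval a' x' z' := by
      rw [mul_sub, sub_mul, sub_add_sub_cancel]
    rw [Tm.eval, Tm.eval, e, add_mul, mul_assoc, mul_assoc]
    refine (orb_add _ _).trans (add_le_add ?_ ?_)
    · exact (orb_mul _ _).trans (mul_le_mul m1.2 e2 (norm_nonneg _) hB)
    · exact (h.norm_mul_orb (sub_mem m1.1 m2.1) m3.1).trans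
        (mul_le_mul m3.2 e1 (norm_nonneg _) hB')
  | star t ht =>
    obtain ⟨C, hC, k⟩ := ht
    obtain ⟨B, -, b⟩ := term_bd P t
    refine ⟨C, hC, fun δ a x z a' x' z' h0 h1 h2 h3 h4 h5 h6 h7 h8 h9 => ?_⟩
    rw [Tm.eval, Tm.eval, ← star_sub,
      h.norm_star_orb (sub_mem (b a x z h1 h2 h3).1 (b a' x' z' h4 h5 h6).1)]
    exact k δ a x z a' x' z' h0 h1 h2 h3 h4 h5 h6 h7 h8 h9

theorem form_close (h : Std Ω J P) {F : (Tm → ℝ) → ℝ} (hF : UniformContinuous F) {ε : ℝ}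
    (hε : 0 < ε) : ∃ δ : ℝ, 0 < δ ∧ ∀ a x z a' x' z' : Fin 9 → Op H, Bl P a → Bl P x → Bl P z →
      Bl P a' → Bl P x' → Bl P z' → Nr Ω δ a a' → Nr Ω δ x x' → Nr Ω δ z z' →
      F (fun t => ‖t.eval a x z Ω‖) ≤ F (fun t => ‖t.eval a' x' z' Ω‖) + ε := by
  obtain ⟨T, d, hd, k⟩ := uc_fin hF hε
  choose C hC hL using term_lip h
  have hS : 0 ≤ ∑ t ∈ T, C t := Finset.sum_nonneg fun t _ => hC t
  have hδ : 0 < d / (1 + ∑ t ∈ T, C t) := by positivity
  refine ⟨_, hδ, fun a x z a' x' z' h1 h2 h3 h4 h5 h6 h7 h8 h9 => ?_⟩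
  have := k (fun t => ‖t.eval a x z Ω‖) (fun t => ‖t.eval a' x' z' Ω‖) fun t ht => by
    refine (abs_norm_sub_norm_le _ _).trans
      ((hL t _ a x z a' x' z' hδ.le h1 h2 h3 h4 h5 h6 h7 h8 h9).trans ?_)
    have e : C t ≤ 1 + ∑ t ∈ T, C t := by
      have := Finset.single_le_sum (f := C) (fun t _ => hC t) ht
      linarith
    refine (mul_le_mul_of_nonneg_right e hδ.le).trans (le_of_eq ?_)
    field_simp
  linarith [(abs_le.1 this).2]

/-! ### dense sets of contractions -/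

/-- `L` is a dense part of the unit ball of `M` -/
structure Dns (Ω : H) (M : VonNeumannAlgebra H) (L : Set (Op H)) : Prop where
  sub : L ⊆ ball M
  near : ∀ x ∈ ball M, ∀ δ : ℝ, 0 < δ → ∃ b ∈ L, ‖(x - b) Ω‖ ≤ δ

theorem bl_of {M : VonNeumannAlgebra H} (hM : ∀ x ∈ M, x ∈ P) {a : Fin 9 → Op H}
    (ha : ∀ i, a i ∈ ball M) : Bl P a := fun i => ⟨hM _ (ha i).1, (ha i).2⟩

theorem hold_up (h : Std Ω J P) {F : (Tm → ℝ) → ℝ} (hF : UniformContinuous F)
    {M : VonNeumannAlgebra H} (hM : ∀ x ∈ M, x ∈ P) {L : Set (Op H)} (hL : Dns Ω M L) {e ε : ℝ}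
    (hε : 0 < ε) (k : Hold F (fun x : Op H => ‖x Ω‖) L e) :
    Hold F (fun x : Op H => ‖x Ω‖) (ball M) (e + ε) := by
  obtain ⟨δ, hδ, hc⟩ := form_close h hF hε
  obtain ⟨a, ha, k⟩ := k
  refine ⟨a, fun i => hL.sub (ha i), fun x hx => ?_⟩
  choose x' hx' hn using fun i => hL.near (x i) (hx i) δ hδ
  obtain ⟨z, hz, k⟩ := k x' hx'
  refine ⟨z, fun i => hL.sub (hz i), ?_⟩
  have b1 := bl_of hM fun i => hL.sub (ha i)
  have b2 := bl_of hM fun i => hL.sub (hz i)
  have := hc a x z a x' z b1 (bl_of hM hx) b2 b1 (bl_of hM fun i => hL.sub (hx' i)) b2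
    (Nr.refl Ω hδ.le a) hn (Nr.refl Ω hδ.le z)
  linarith

theorem hold_down (h : Std Ω J P) {F : (Tm → ℝ) → ℝ} (hF : UniformContinuous F)
    {M : VonNeumannAlgebra H} (hM : ∀ x ∈ M, x ∈ P) {L : Set (Op H)} (hL : Dns Ω M L) {e ε : ℝ}
    (hε : 0 < ε) (k : Hold F (fun x : Op H => ‖x Ω‖) (ball M) e) :
    Hold F (fun x : Op H => ‖x Ω‖) L (e + ε) := by
  obtain ⟨δ, hδ, hc⟩ := form_close h hF hε
  obtain ⟨a, ha, k⟩ := k
  choose a' ha' hn using fun i => hL.near (a i) (ha i) δ hδ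
  refine ⟨a', ha', fun x hx => ?_⟩
  obtain ⟨z, hz, k⟩ := k x fun i => hL.sub (hx i)
  choose z' hz' hm using fun i => hL.near (z i) (hz i) δ hδ
  refine ⟨z', hz', ?_⟩
  have b1 := bl_of hM fun i => hL.sub (hx i)
  have := hc a' x z' a x z (bl_of hM fun i => hL.sub (ha' i)) b1
    (bl_of hM fun i => hL.sub (hz' i)) (bl_of hM ha) b1 (bl_of hM hz)
    (fun i => by rw [orb_symm]; exact hn i) (Nr.refl Ω hδ.le x)
    (fun i => by rw [orb_symm]; exact hm i)
  linarith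

/-! ### the Kaplansky function -/

theorem inv_mem {u r : Op H} (hu : u ∈ P) (h1 : r * u = 1) (h2 : u * r = 1) : r ∈ P :=
  mem_of_comm fun a ha => by
    calc a * r = r * u * a * r := by rw [h1, one_mul]
      _ = r * (a * u) * r := by rw [mul_assoc r u a, ha u hu]
      _ = r * a := by rw [mul_assoc, mul_assoc, h2, mul_one]

theorem beta_lip (hB : Beta (Op H)) (h : Std Ω J P) {y y' b b' : Op H} (hy : y ∈ P)
    (hy' : y' ∈ P) (hb : b * (1 + star y * y) = y + y) (hb' : b' * (1 + star y' * y') = y' + y') :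
    ‖(b - b') Ω‖ ≤ 3 * ‖(y - y') Ω‖ := by
  obtain ⟨r, -, r2, -, r4⟩ := hB.fwd y
  obtain ⟨r', r1', r2', r3', r4'⟩ := hB.fwd y'
  obtain ⟨q, q1, -, q3, -⟩ := hB.fwd (star y)
  rw [star_star] at q1
  have eb : b = y * r + y * r := by rw [← add_mul, ← hb, mul_assoc, r2, mul_one]
  have eb' : b' = y' * r' + y' * r' := by rw [← add_mul, ← hb', mul_assoc, r2', mul_one]
  have eq : q * y = y * r := by
    calc q * y = q * (y * ((1 + star y * y) * r)) := by rw [r2, mul_one]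
      _ = q * (1 + y * star y) * (y * r) := by noncomm_ring
      _ = y * r := by rw [q1, one_mul]
  have hr' : r' ∈ P := inv_mem (add_mem (one_mem P) (mul_mem (star_mem hy') hy')) r1' r2'
  have hd : y - y' ∈ P := sub_mem hy hy'
  have key : y * r - y' * r' = q * ((y - y') * r') - y * r * (star (y - y') * (y' * r')) := by
    calc y * r - y' * r' = q * y * ((1 + star y' * y') * r') - q * (1 + y * star y) * (y' * r') := by
          rw [r2', q1, mul_one, one_mul, eq]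
      _ = q * ((y - y') * r') - q * y * (star (y - y') * (y' * r')) := by
          rw [star_sub]; noncomm_ring
      _ = _ := by rw [eq]
  have e : b - b' = q * ((y - y') * r') + q * ((y - y') * r') -
      (y * r + y * r) * (star (y - y') * (y' * r')) := by
    rw [eb, eb', add_sub_add_comm, key, add_mul]
    abel
  have n0 : 0 ≤ ‖(y - y') Ω‖ := norm_nonneg _
  have n1 : ‖(q * ((y - y') * r')) Ω‖ ≤ ‖(y - y') Ω‖ := by
    refine (orb_mul _ _).trans ((mul_le_of_le_one_left (norm_nonneg _) q3).trans ?_)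
    exact (h.norm_mul_orb hd hr').trans (mul_le_of_le_one_left n0 r3')
  have n2 : ‖y' * r'‖ ≤ 1 := by
    rw [← two_smul ℝ, norm_smul, Real.norm_two] at r4'
    linarith [norm_nonneg (y' * r')]
  have n3 : ‖((y * r + y * r) * (star (y - y') * (y' * r'))) Ω‖ ≤ ‖(y - y') Ω‖ := by
    refine (orb_mul _ _).trans ((mul_le_of_le_one_left (norm_nonneg _) r4).trans ?_)
    refine (h.norm_mul_orb (star_mem hd) (mul_mem hy' hr')).trans ?_
    rw [h.norm_star_orb hd]
    exact mul_le_of_le_one_left n0 n2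
  rw [e]
  refine (orb_sub _ _).trans ?_
  have := orb_add (Ω := Ω) (q * ((y - y') * r')) (q * ((y - y') * r'))
  linarith

/-! ### the conditional expectation -/

theorem norm_unit {e : Fin 3 → Fin 3 → Op H} (he : MU e) (i j : Fin 3) : ‖e i j‖ ≤ 1 := by
  refine pi_norm ?_
  rw [he.star, he.mul, if_pos rfl]
  exact ⟨by rw [IsIdempotentElem, he.mul, if_pos rfl], he.star j j⟩

theorem Ex_mem {e : Fin 3 → Fin 3 → Op H} (hP : ∀ i j, e i j ∈ P) {y : Op H} (hy : y ∈ P) :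
    Ex e y ∈ P :=
  smul_mem_vn _ (sum_mem fun i _ => sum_mem fun j _ => mul_mem (mul_mem (hP i j) hy) (hP j i))

theorem Ex_sub (e : Fin 3 → Fin 3 → Op H) (x y : Op H) : Ex e (x - y) = Ex e x - Ex e y := by
  simp only [Ex, mul_sub, sub_mul, Finset.sum_sub_distrib, smul_sub]

theorem Ex_orb (h : Std Ω J P) {e : Fin 3 → Fin 3 → Op H} (he : MU e) (hP : ∀ i j, e i j ∈ P)
    {y : Op H} (hy : y ∈ P) : ‖Ex e y Ω‖ ≤ 3 * ‖y Ω‖ := by
  have k : ∀ i j, ‖(e i j * y * e j i) Ω‖ ≤ ‖y Ω‖ := fun i j => by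
    refine (h.norm_mul_orb (mul_mem (hP i j) hy) (hP j i)).trans ?_
    refine (mul_le_of_le_one_left (norm_nonneg _) (norm_unit he j i)).trans ?_
    exact (orb_mul _ _).trans (mul_le_of_le_one_left (norm_nonneg _) (norm_unit he i j))
  have k2 : ‖(∑ i, ∑ j, e i j * y * e j i) Ω‖ ≤ 9 * ‖y Ω‖ := by
    rw [sum_apply]
    refine (norm_sum_le _ _).trans ?_
    have : ∀ i, ‖(∑ j, e i j * y * e j i) Ω‖ ≤ 3 * ‖y Ω‖ := fun i => by
      rw [sum_apply]
      refine (norm_sum_le _ _).trans ?_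
      rw [Fin.sum_univ_three]
      linarith [k i 0, k i 1, k i 2]
    rw [Fin.sum_univ_three]
    linarith [this 0, this 1, this 2]
  rw [Ex, smul_apply, norm_smul]
  have : ‖(1 / 3 : ℂ)‖ = 1 / 3 := by simp
  rw [this]
  linarith

/-- the inverse Kaplansky function stays in the algebra -/
theorem bwd_mem (hB : Beta (Op H)) {M : VonNeumannAlgebra H} {x : Op H} (hx : x ∈ ball M) :
    ∃ y ∈ M, x * (1 + star y * y) = y + y := by
  obtain ⟨y, -, h1, h2⟩ := hB.bwd x hx.2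
  exact ⟨y, mem_of_comm fun a ha => h2 a (ha x hx.1).symm (ha _ (star_mem hx.1)).symm, h1⟩

theorem approx {D : Set (Op H)} (hD : Dense ((fun x : Op H => x Ω) '' D)) (y : Op H) {δ : ℝ}
    (hδ : 0 < δ) : ∃ d ∈ D, ‖(y - d) Ω‖ ≤ δ := by
  obtain ⟨_, ⟨d, hd, rfl⟩, h⟩ := hD.exists_dist_lt (y Ω) hδ
  rw [dist_eq_norm] at h
  exact ⟨d, hd, h.le⟩

variable {F : (Tm → ℝ) → ℝ} {η : ℝ}

theorem dns3 (hB : Beta (Op H)) (p : Pre H F η) (h : Std p.Ω J P) (hS : ∀ x ∈ p.S, x ∈ P) :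
    Dns p.Ω (lev P p.f) p.L₃ where
  sub x hx := ⟨(mem_lev p.hf).2 ⟨hS _ (p.c₃ x hx).1, (p.c₃ x hx).2.2⟩, (p.c₃ x hx).2.1⟩
  near x hx δ hδ := by
    obtain ⟨y, hy, e⟩ := bwd_mem hB hx
    obtain ⟨yP, yf⟩ := (mem_lev p.hf).1 hy
    obtain ⟨d, hd, hn⟩ := approx p.dense y (δ := δ / 9) (by positivity)
    obtain ⟨b, hb, e'⟩ := p.b₃ d hd _ rfl
    have fP : ∀ i j, p.f i j ∈ P := fun i j => hS _ (p.fS i j)
    have dP : d ∈ P := hS _ (p.sub hd)
    refine ⟨b, hb, (beta_lip hB h yP (Ex_mem fP dP) e e').trans ?_⟩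
    have := Ex_orb h p.hf fP (sub_mem yP dP)
    rw [Ex_sub, p.hf.Ex_eq yf] at this
    linarith

theorem dns0 (hB : Beta (Op H)) (p : Pre H F η) (h : Std p.Ω J P) (hS : ∀ x ∈ p.S, x ∈ P) :
    Dns p.Ω (lev (lev P p.f) p.g) p.L₀ where
  sub x hx := ⟨(mem_lev p.hg).2 ⟨(mem_lev p.hf).2 ⟨hS _ (p.c₀ x hx).1, (p.c₀ x hx).2.2.1⟩,
    (p.c₀ x hx).2.2.2⟩, (p.c₀ x hx).2.1⟩
  near x hx δ hδ := by
    obtain ⟨y, hy, e⟩ := bwd_mem hB hx
    obtain ⟨hy', yg⟩ := (mem_lev p.hg).1 hy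
    obtain ⟨yP, yf⟩ := (mem_lev p.hf).1 hy'
    obtain ⟨d, hd, hn⟩ := approx p.dense y (δ := δ / 27) (by positivity)
    obtain ⟨b, hb, e'⟩ := p.b₀ d hd _ rfl
    have fP : ∀ i j, p.f i j ∈ P := fun i j => hS _ (p.fS i j)
    have gP : ∀ i j, p.g i j ∈ P := fun i j => hS _ (p.gS i j)
    have dP : d ∈ P := hS _ (p.sub hd)
    refine ⟨b, hb, (beta_lip hB h yP (Ex_mem fP (Ex_mem gP dP)) e e').trans ?_⟩
    have k1 := Ex_orb h p.hg gP (sub_mem yP dP)
    have k2 := Ex_orb h p.hf fP (Ex_mem gP (sub_mem yP dP))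
    rw [Ex_sub, p.hg.Ex_eq yg] at k1 k2
    rw [Ex_sub, p.hf.Ex_eq yf] at k2
    linarith

end KapM

open KapM in
theorem kap_stmt (hB : BetaStmt) : KapStmt := by
  intro H _ _ _ F η hF hη p
  have hd : Dense (Submodule.span ℂ ((fun x : Op H => x p.Ω) '' p.S) : Set H) :=
    p.dense.mono ((Set.image_mono p.sub).trans Submodule.subset_span)
  obtain ⟨J, h⟩ := exist_stmt H p.Ω p.S p.unit p.one p.star_mem p.mul_mem p.comm hd
  have hS : ∀ x ∈ p.S, x ∈ vn (vn p.S : Set (Op H)) := fun x hx =>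
    mem_vn.2 fun s hs => ⟨((mem_vn.1 hs) x hx).1.symm, ((mem_vn.1 (star_mem hs)) x hx).1.symm⟩
  have h3 : ∀ x ∈ lev (vn (vn p.S : Set (Op H))) p.f, x ∈ vn (vn p.S : Set (Op H)) :=
    fun x hx => ((mem_lev p.hf).1 hx).1
  refine ⟨⟨p.Ω, J, _, h, p.f, p.g, p.hf, p.hg, fun i j => hS _ (p.fS i j),
    fun i j => (mem_lev p.hf).2 ⟨hS _ (p.gS i j), p.fg i j⟩, p.s,
    fun n => (mem_lev p.hg).2 ⟨(mem_lev p.hf).2 ⟨hS _ (p.hs n).1, (p.hs n).2.1⟩, (p.hs n).2.2⟩,
    p.orth, fun ε hε => ?_, fun k => p.bad ?_⟩⟩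
  · have := hold_up h hF (fun x hx => h3 x ((mem_lev p.hg).1 hx).1) (dns0 (hB _) p h hS) hε p.good
    rwa [zero_add] at this
  · have := hold_down h hF h3 (dns3 (hB _) p h hS) (half_pos hη) k
    rwa [add_halves] at this

end Pool.Agent.MP_ad85d3_an.Ffg

end
end MrgPart4

-- ======== part 5: formerly Pool.Agent.MP_ad85d3_an.ffg.Tru
section MrgPart5

/-!
# PROJECT FFG, module TRU: uniqueness of the trace on an ultrapower
-/

open Filter Topology
open scoped ComplexOrder InnerProductSpace ComplexConjugate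

noncomputable section

namespace Pool.Agent.MP_ad85d3_an.Ffg

universe v

namespace TruM

variable {H : Type} [NormedAddCommGroup H] [InnerProductSpace ℂ H] [CompleteSpace H]
  {N : St.TwoOne H} {I : Type v} {U : Ultrafilter I} {σ : (I → Op H) → ℂ}
  {τ : Op H →ₗ[ℂ] ℂ}

/-! ## bounded families -/

theorem bdd_of {x : I → Op H} (h : ∀ i, x i ∈ N.M) {C : ℝ} (hC : ∀ i, ‖x i‖ ≤ C) : St.Bdd N x :=
  ⟨h, C, hC⟩

theorem bdd_const {a : Op H} (ha : a ∈ N.M) : St.Bdd N fun _ : I => a :=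
  ⟨fun _ => ha, ‖a‖, fun _ => le_rfl⟩

theorem bdd_one : St.Bdd N (1 : I → Op H) := bdd_const (one_mem N.M)

theorem bdd_add {x y : I → Op H} (hx : St.Bdd N x) (hy : St.Bdd N y) : St.Bdd N (x + y) := by
  obtain ⟨C, hC⟩ := hx.bdd
  obtain ⟨D, hD⟩ := hy.bdd
  exact ⟨fun i => add_mem (hx.mem i) (hy.mem i), C + D,
    fun i => (norm_add_le _ _).trans (add_le_add (hC i) (hD i))⟩

theorem bdd_smul (c : ℂ) {x : I → Op H} (hx : St.Bdd N x) : St.Bdd N (c • x) := by
  obtain ⟨C, hC⟩ := hx.bdd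
  exact ⟨fun i => smul_mem_vn c (hx.mem i), ‖c‖ * C, fun i =>
    (norm_smul_le c (x i)).trans (mul_le_mul_of_nonneg_left (hC i) (norm_nonneg c))⟩

theorem bdd_sub {x y : I → Op H} (hx : St.Bdd N x) (hy : St.Bdd N y) : St.Bdd N (x - y) := by
  obtain ⟨C, hC⟩ := hx.bdd
  obtain ⟨D, hD⟩ := hy.bdd
  exact ⟨fun i => sub_mem (hx.mem i) (hy.mem i), C + D,
    fun i => (norm_sub_le _ _).trans (add_le_add (hC i) (hD i))⟩

theorem bdd_mul {x y : I → Op H} (hx : St.Bdd N x) (hy : St.Bdd N y) : St.Bdd N (x * y) := by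
  obtain ⟨C, hC⟩ := hx.bdd
  obtain ⟨D, hD⟩ := hy.bdd
  exact ⟨fun i => mul_mem (hx.mem i) (hy.mem i), C * D, fun i => (norm_mul_le _ _).trans
    (mul_le_mul (hC i) (hD i) (norm_nonneg _) ((norm_nonneg _).trans (hC i)))⟩

theorem bdd_star {x : I → Op H} (hx : St.Bdd N x) : St.Bdd N (star x) := by
  obtain ⟨C, hC⟩ := hx.bdd
  exact ⟨fun i => star_mem (hx.mem i), C, fun i => (norm_star (x i)).trans_le (hC i)⟩

theorem bdd_pj {p : I → Op H} (hp : ∀ i, Pj N.M (p i)) : St.Bdd N p :=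
  ⟨fun i => (hp i).1, 1, fun i => (hp i).2.norm_le⟩

theorem bdd_unit {x : I → Op H} (hx : ∀ i, x i ∈ N.M) (h0 : ∀ i, 0 ≤ x i) (h1 : ∀ i, x i ≤ 1) :
    St.Bdd N x :=
  ⟨hx, 1, fun i => (CStarAlgebra.norm_le_one_iff_of_nonneg _ (h0 i)).2 (h1 i)⟩

/-- the square root of a family of positive contractions -/
theorem sqrt_fam {x : I → Op H} (hx : ∀ i, x i ∈ N.M) (h0 : ∀ i, 0 ≤ x i) (h1 : ∀ i, x i ≤ 1) :
    ∃ s : I → Op H, St.Bdd N s ∧ star s * s = x := by
  choose s hs e using fun i => TrB.exists_sqrt (hx i) (h0 i)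
  refine ⟨s, ⟨hs, 1, fun i => ?_⟩, funext e⟩
  have a := (CStarAlgebra.norm_le_one_iff_of_nonneg _ (h0 i)).2 (h1 i)
  rw [← e i, CStarRing.norm_star_mul_self] at a
  nlinarith [norm_nonneg (s i)]

/-! ## tracial states on bounded families -/

/-- `σ` is a tracial state on the bounded families that only depends on the `U`-germ -/
structure Tr (N : St.TwoOne H) (U : Ultrafilter I) (σ : (I → Op H) → ℂ) : Prop where
  add : ∀ x y, St.Bdd N x → St.Bdd N y → σ (x + y) = σ x + σ y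
  smul : ∀ (c : ℂ) x, St.Bdd N x → σ (c • x) = c * σ x
  one : σ 1 = 1
  pos : ∀ x, St.Bdd N x → 0 ≤ σ (star x * x)
  comm : ∀ x y, St.Bdd N x → St.Bdd N y → σ (x * y) = σ (y * x)
  germ : ∀ x, St.Bdd N x → (∀ᶠ i in U, x i = 0) → σ x = 0

namespace Tr

variable (s : Tr N U σ)
include s

theorem sub {x y : I → Op H} (hx : St.Bdd N x) (hy : St.Bdd N y) : σ (x - y) = σ x - σ y := by
  have := s.add (x - y) y (bdd_sub hx hy) hy
  rw [sub_add_cancel] at this
  rw [this, add_sub_cancel_right]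

theorem congr {x y : I → Op H} (hx : St.Bdd N x) (hy : St.Bdd N y) (e : ∀ᶠ i in U, x i = y i) :
    σ x = σ y := by
  have := s.germ (x - y) (bdd_sub hx hy) (e.mono fun i hi => sub_eq_zero.2 hi)
  rwa [s.sub hx hy, sub_eq_zero] at this

theorem pj_nonneg {p : I → Op H} (hp : ∀ i, Pj N.M (p i)) : 0 ≤ σ p := by
  have := s.pos p (bdd_pj hp)
  rwa [show star p * p = p from funext fun i => by
    rw [Pi.mul_apply, Pi.star_apply, (hp i).star_eq, (hp i).mul_self]] at this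

theorem norm_le_one {x : I → Op H} (hx : ∀ i, x i ∈ N.M) (h0 : ∀ i, 0 ≤ x i)
    (h1 : ∀ i, x i ≤ 1) : ‖σ x‖ ≤ 1 := by
  obtain ⟨a, ha, e⟩ := sqrt_fam hx h0 h1
  obtain ⟨b, hb, e'⟩ := sqrt_fam (N := N) (x := 1 - x) (fun i => sub_mem (one_mem N.M) (hx i))
    (fun i => sub_nonneg.2 (h1 i)) fun i => sub_le_self _ (h0 i)
  have p := Complex.nonneg_iff.1 (s.pos a ha)
  have q := (Complex.nonneg_iff.1 (s.pos b hb)).1
  rw [e] at p
  rw [e', s.sub bdd_one (bdd_unit hx h0 h1), s.one, Complex.sub_re, Complex.one_re] at q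
  rw [← Complex.re_add_im (σ x), ← p.2]
  simp only [Complex.ofReal_zero, zero_mul, add_zero, Complex.norm_real, Real.norm_eq_abs]
  rw [abs_of_nonneg p.1]; linarith

/-- on constant families `σ` is the trace -/
theorem const (hB : TrB N.M τ) (hF : Fac N.M) (hD : Dif N.M 1) {a : Op H} (ha : a ∈ N.M) :
    σ (fun _ => a) = τ a := by
  let f : N.M.toStarSubalgebra.toSubalgebra.toSubmodule →ₗ[ℂ] ℂ :=
    { toFun := fun x => σ fun _ => x.1
      map_add' := fun x y => s.add _ _ (bdd_const x.2) (bdd_const y.2)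
      map_smul' := fun c x => s.smul c _ (bdd_const x.2) }
  obtain ⟨g, hg⟩ := LinearMap.exists_extend f
  have e : ∀ x ∈ N.M, g x = σ fun _ => x := fun x hx => LinearMap.congr_fun hg ⟨x, hx⟩
  rw [← e a ha]
  refine hB.uniq hF hD g ((e 1 (one_mem N.M)).trans s.one) (fun x hx => ?_)
    (fun x hx y hy => ?_) a ha
  · rw [e _ (mul_mem (star_mem hx) hx)]
    exact s.pos _ (bdd_const hx)
  · rw [e _ (mul_mem hx hy), e _ (mul_mem hy hx)]
    exact s.comm _ _ (bdd_const hx) (bdd_const hy)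

end Tr

/-! ## projections -/

section main

variable (s : Tr N U σ) (h : IsTr N.M τ) (hT : TrA N.M τ) (hD : Dif N.M 1)
  (hC : ∀ p q, Conn N.M p q) (hc : ∀ a ∈ N.M, σ (fun _ => a) = τ a)
include s h hT hD hC hc

theorem lower {p : I → Op H} (hp : ∀ i, Pj N.M (p i)) {t : ℝ}
    (ht : ∀ᶠ i in U, t ≤ (τ (p i)).re) : t ≤ (σ p).re := by
  rcases le_or_gt t 0 with t0 | t0
  · exact t0.trans (Complex.nonneg_iff.1 (s.pj_nonneg hp)).1
  obtain ⟨j, hj⟩ := ht.exists
  obtain ⟨q, hq, -, eq⟩ := hT.exact 1 (Pj.one N.M) hD t t0.le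
    (hj.trans (h.proj_mono (Pj.one N.M) (hp j) (one_mul _)))
  have k : ∀ i, ∃ w ∈ N.M, IsStarProjection (star w * w) ∧ p i * w = w ∧
      (t ≤ (τ (p i)).re → star w * w = q) := fun i => by
    by_cases hi : t ≤ (τ (p i)).re
    · obtain ⟨w, hw, f1, f2, -⟩ := hT.le q (p i) hq (hp i) (hC q (p i))
        (by rw [eq, Complex.ofReal_re]; exact hi)
      exact ⟨w, hw, f1 ▸ hq.2, f2, fun _ => f1⟩
    · exact ⟨0, zero_mem _, by rw [mul_zero]; exact IsStarProjection.zero _, mul_zero _,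
        fun e => absurd e hi⟩
  choose w w1 w2 w3 w4 using k
  have bw : St.Bdd N w := bdd_of w1 fun i => pi_norm (w2 i)
  have r : ∀ i, Pj N.M ((p - w * star w) i) := fun i =>
    (hp i).sub (TrB.range_pj (w1 i) (w2 i) (w3 i)).1 (TrB.range_pj (w1 i) (w2 i) (w3 i)).2
  have f := (Complex.nonneg_iff.1 (s.pj_nonneg r)).1
  rw [s.sub (bdd_pj hp) (bdd_mul bw (bdd_star bw)), s.comm _ _ bw (bdd_star bw),
    s.congr (bdd_mul (bdd_star bw) bw) (bdd_const hq.1) (ht.mono fun i hi => w4 i hi), hc q hq.1,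
    eq, Complex.sub_re, Complex.ofReal_re] at f
  linarith

theorem upper {p : I → Op H} (hp : ∀ i, Pj N.M (p i)) {ε : ℝ} (hε : 0 < ε) :
    ∀ᶠ i in U, (τ (p i)).re < (σ p).re + ε := by
  by_contra hn
  have := lower s h hT hD hC hc hp (t := (σ p).re + ε)
    ((Ultrafilter.eventually_not.2 hn).mono fun i hi => not_lt.1 hi)
  linarith

theorem on_pj {p : I → Op H} (hp : ∀ i, Pj N.M (p i)) {ε : ℝ} (hε : 0 < ε) :
    ∀ᶠ i in U, ‖τ (p i) - σ p‖ ≤ ε := by
  have hq : ∀ i, Pj N.M ((1 - p) i) := fun i => (Pj.one N.M).sub (hp i) (one_mul _)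
  filter_upwards [upper s h hT hD hC hc hp hε, upper s h hT hD hC hc hq hε] with i a b
  rw [s.sub bdd_one (bdd_pj hp), s.one, Pi.sub_apply, Pi.one_apply, map_sub, h.one,
    Complex.sub_re, Complex.sub_re] at b
  have e : τ (p i) - σ p = (((τ (p i)).re - (σ p).re : ℝ) : ℂ) := by
    refine Complex.ext (by simp) ?_
    rw [Complex.sub_im, ← (Complex.nonneg_iff.1 (s.pj_nonneg hp)).2,
      ← (Complex.nonneg_iff.1 (h.proj_nonneg (hp i))).2, Complex.ofReal_im, sub_zero]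
  rw [e, Complex.norm_real, Real.norm_eq_abs, abs_le]
  constructor <;> linarith

end main

/-! ## positive contractions -/

theorem halve (hA : GenA H) {M : VonNeumannAlgebra H} {x : Op H} (hx : x ∈ M) (h0 : 0 ≤ x)
    (h1 : x ≤ 1) : ∃ e, Pj M e ∧ 0 ≤ x + x - e ∧ x + x - e ≤ 1 := by
  have hy : x + x - 1 ∈ M := sub_mem (add_mem hx hx) (one_mem M)
  obtain ⟨e, he, c1, c2, c3, -⟩ := hA.cut (x + x - 1)
    ((h0.isSelfAdjoint.add h0.isSelfAdjoint).sub (IsSelfAdjoint.one _))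
  have hx' : x * e = e * x := c1 x (by noncomm_ring)
  have ee := he.isIdempotentElem.eq
  have p1 : 0 ≤ (1 - e) * x * (1 - e) := by
    have := star_left_conjugate_nonneg h0 (1 - e)
    rwa [he.one_sub.isSelfAdjoint.star_eq] at this
  have p2 : 0 ≤ e * (1 - x) * e := by
    have := star_left_conjugate_nonneg (sub_nonneg.2 h1) e
    rwa [he.isSelfAdjoint.star_eq] at this
  refine ⟨e, ⟨mem_of_comm fun a ha => c1 a (ha _ hy).symm, he⟩, ?_, ?_⟩
  · rw [TrB.id1 e x ee hx']; exact add_nonneg c2 (add_nonneg p1 p1)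
  · rw [← sub_nonneg, TrB.id2 e x ee hx']
    exact add_nonneg (neg_nonneg.2 c3) (add_nonneg p2 p2)

section rest

variable (s : Tr N U σ) (h : IsTr N.M τ) (hA : GenA H)
  (hp : ∀ p : I → Op H, (∀ i, Pj N.M (p i)) → ∀ ε : ℝ, 0 < ε → ∀ᶠ i in U, ‖τ (p i) - σ p‖ ≤ ε)
include s h hA hp

theorem dyadic (n : ℕ) : ∀ x : I → Op H, (∀ i, x i ∈ N.M) → (∀ i, 0 ≤ x i) → (∀ i, x i ≤ 1) →
    ∀ ε : ℝ, 0 < ε → ∀ᶠ i in U, ‖τ (x i) - σ x‖ ≤ 2 * (1 / 2) ^ n + ε := by
  induction n with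
  | zero =>
    intro x hx h0 h1 ε hε
    refine Eventually.of_forall fun i => ?_
    have a := TrB.norm_le_one h.one h.pos (hx i) (h0 i) (h1 i)
    have b := s.norm_le_one hx h0 h1
    have := norm_sub_le (τ (x i)) (σ x)
    rw [pow_zero]; linarith
  | succ n ih =>
    intro x hx h0 h1 ε hε
    choose e e1 e2 e3 using fun i => halve hA (hx i) (h0 i) (h1 i)
    have bx := bdd_unit hx h0 h1
    filter_upwards [ih (x + x - e) (fun i => sub_mem (add_mem (hx i) (hx i)) (e1 i).1) e2 e3 ε hε,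
      hp e e1 ε hε] with i a b
    rw [s.sub (bdd_add bx bx) (bdd_pj e1), s.add _ _ bx bx, Pi.sub_apply, Pi.add_apply, map_sub,
      map_add] at a
    have c := norm_add_le (τ (x i) + τ (x i) - τ (e i) - (σ x + σ x - σ e)) (τ (e i) - σ e)
    rw [show τ (x i) + τ (x i) - τ (e i) - (σ x + σ x - σ e) + (τ (e i) - σ e) =
      2 * (τ (x i) - σ x) by ring, norm_mul, Complex.norm_two] at c
    rw [pow_succ]; linarith

theorem on_unit {x : I → Op H} (hx : ∀ i, x i ∈ N.M) (h0 : ∀ i, 0 ≤ x i) (h1 : ∀ i, x i ≤ 1) :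
    Tendsto (fun i => τ (x i)) U (𝓝 (σ x)) := by
  refine Metric.tendsto_nhds.2 fun ε hε => ?_
  obtain ⟨n, hn⟩ := exists_pow_lt_of_lt_one (show 0 < ε / 4 by positivity)
    (show (1 / 2 : ℝ) < 1 by norm_num)
  filter_upwards [dyadic s h hA hp n x hx h0 h1 (ε / 2) (half_pos hε)] with i hi
  rw [dist_eq_norm]; linarith

theorem on_sq {a : I → Op H} (ha : St.Bdd N a) :
    Tendsto (fun i => τ ((star a * a) i)) U (𝓝 (σ (star a * a))) := by
  obtain ⟨C, hC⟩ := ha.bdd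
  have n0 : 0 < |C| + 1 := by positivity
  set c : ℂ := (((|C| + 1)⁻¹ : ℝ) : ℂ) with hc
  have c0 : c ≠ 0 := by rw [hc]; exact_mod_cast (inv_pos.2 n0).ne'
  have n1 : ∀ i, ‖c • a i‖ ≤ 1 := fun i => by
    rw [norm_smul, hc, Complex.norm_real, Real.norm_eq_abs, abs_of_pos (inv_pos.2 n0),
      inv_mul_le_iff₀ n0]
    linarith [hC i, le_abs_self C]
  have hb := bdd_smul c ha
  have t := on_unit s h hA hp (x := star (c • a) * (c • a)) (bdd_mul (bdd_star hb) hb).mem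
    (fun i => star_mul_self_nonneg _) fun i =>
    (CStarAlgebra.norm_le_one_iff_of_nonneg _ (star_mul_self_nonneg (c • a i))).1 (by
      rw [CStarRing.norm_star_mul_self]; nlinarith [norm_nonneg (c • a i), n1 i])
  have d0 : star c * c ≠ 0 := mul_ne_zero (star_ne_zero.2 c0) c0
  rw [star_smul, smul_mul_smul_comm, s.smul _ _ (bdd_mul (bdd_star ha) ha)] at t
  have t2 := t.const_mul (star c * c)⁻¹
  rw [inv_mul_cancel_left₀ d0] at t2
  refine t2.congr fun i => ?_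
  rw [Pi.smul_apply, map_smul, smul_eq_mul, inv_mul_cancel_left₀ d0]

theorem on_all {x : I → Op H} (hx : St.Bdd N x) : Tendsto (fun i => τ (x i)) U (𝓝 (σ x)) := by
  have k : ∀ l : ℂ, Tendsto (fun i => l * τ (x i) + star l * τ (star (x i))) U
      (𝓝 (l * σ x + star l * σ (star x))) := fun l => by
    have hl := bdd_smul l hx
    have e : star (1 + l • x) * (1 + l • x) =
        1 + l • x + (star l • star x + star (l • x) * (l • x)) := by
      rw [star_add, star_one, add_mul, one_mul, mul_add, mul_one, star_smul l x]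
    have t := (on_sq s h hA hp (bdd_add bdd_one hl)).sub (on_sq s h hA hp hl)
    rw [e, s.add _ _ (bdd_add bdd_one hl) (bdd_add (bdd_smul _ (bdd_star hx))
      (bdd_mul (bdd_star hl) hl)), s.add _ _ bdd_one hl, s.add _ _ (bdd_smul _ (bdd_star hx))
      (bdd_mul (bdd_star hl) hl), s.one, s.smul _ _ hx, s.smul _ _ (bdd_star hx)] at t
    have t2 := t.sub_const 1
    rw [show 1 + l * σ x + (star l * σ (star x) + σ (star (l • x) * (l • x))) -
      σ (star (l • x) * (l • x)) - 1 = l * σ x + star l * σ (star x) by ring] at t2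
    refine t2.congr fun i => ?_
    simp only [Pi.add_apply, Pi.one_apply, Pi.smul_apply, Pi.star_apply, map_add, map_smul, h.one,
      smul_eq_mul]
    ring
  have t := ((k 1).const_mul (1 / 2)).sub ((k Complex.I).const_mul (Complex.I / 2))
  have e : ∀ a b : ℂ, 1 / 2 * (1 * a + star 1 * b) -
      Complex.I / 2 * (Complex.I * a + star Complex.I * b) = a := fun a b => by
    rw [star_one, Complex.star_def, Complex.conj_I]
    linear_combination (b - a) / 2 * Complex.I_mul_I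
  simpa only [e] using t

end rest

end TruM

theorem tru_stmt (_hN : NmStmt) : TruStmt.{v} := by
  intro H _ _ _ N I U σ s1 s2 s3 s4 s5 s6 x hx
  have s : TruM.Tr N U σ := ⟨s1, s2, s3, s4, s5, s6⟩
  obtain ⟨hF, τ, h, e⟩ := ext_stmt H (Br.old N)
  have hA := genA_stmt.{0}
  have hT := trA_stmt hA (genB_stmt hA)
  have hB := trB_stmt hA hT H N.M τ h
  have hD := hB.inf hF N.infinite
  refine (TruM.on_all s h (hA H) (fun p hp ε hε => TruM.on_pj s h (hT H N.M τ h) hD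
    ((hA H).conn hF) (fun a ha => s.const hB hF hD ha) hp hε) hx).congr fun i => ?_
  exact e ⟨x i, hx.mem i⟩

end Pool.Agent.MP_ad85d3_an.Ffg

end
end MrgPart5

-- ======== part 6: formerly Pool.Agent.MP_ad85d3_an.ffg.Trf
section MrgPart6

/-!
# PROJECT FFG, row TRF: sentences are invariant under isomorphisms of ultrapowers
-/

open Filter Topology
open scoped ComplexOrder

noncomputable section

namespace Pool.Agent.MP_ad85d3_an.Ffg

universe v

namespace TrfM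

variable {H K : Type} [NormedAddCommGroup H] [InnerProductSpace ℂ H] [CompleteSpace H]
  [NormedAddCommGroup K] [InnerProductSpace ℂ K] [CompleteSpace K] {I J : Type v}
  {N : St.TwoOne H} {M : St.TwoOne K} {U : Ultrafilter I} {V : Ultrafilter J}

/-! ## bounded families -/

theorem bdd_ball {x : I → Op H} (h : ∀ i, x i ∈ ball N.M) : St.Bdd N x :=
  ⟨fun i => (h i).1, 1, fun i => (h i).2⟩

theorem bdd_add {x y : I → Op H} (hx : St.Bdd N x) (hy : St.Bdd N y) : St.Bdd N (x + y) := by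
  obtain ⟨C, hC⟩ := hx.bdd
  obtain ⟨D, hD⟩ := hy.bdd
  exact ⟨fun i => add_mem (hx.mem i) (hy.mem i), C + D,
    fun i => (norm_add_le _ _).trans (add_le_add (hC i) (hD i))⟩

theorem bdd_sub {x y : I → Op H} (hx : St.Bdd N x) (hy : St.Bdd N y) : St.Bdd N (x - y) := by
  obtain ⟨C, hC⟩ := hx.bdd
  obtain ⟨D, hD⟩ := hy.bdd
  exact ⟨fun i => sub_mem (hx.mem i) (hy.mem i), C + D,
    fun i => (norm_sub_le _ _).trans (add_le_add (hC i) (hD i))⟩

theorem bdd_mul {x y : I → Op H} (hx : St.Bdd N x) (hy : St.Bdd N y) : St.Bdd N (x * y) := by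
  obtain ⟨C, hC⟩ := hx.bdd
  obtain ⟨D, hD⟩ := hy.bdd
  exact ⟨fun i => mul_mem (hx.mem i) (hy.mem i), C * D,
    fun i => (norm_mul_le _ _).trans
      (mul_le_mul (hC i) (hD i) (norm_nonneg _) ((norm_nonneg _).trans (hC i)))⟩

theorem bdd_star {x : I → Op H} (hx : St.Bdd N x) : St.Bdd N (star x) := by
  obtain ⟨C, hC⟩ := hx.bdd
  exact ⟨fun i => star_mem (hx.mem i), C, fun i => (norm_star (x i)).trans_le (hC i)⟩

theorem bdd_one : St.Bdd N (1 : I → Op H) :=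
  ⟨fun _ => one_mem N.M, ‖(1 : Op H)‖, fun _ => le_rfl⟩

theorem bdd_zero : St.Bdd N (0 : I → Op H) :=
  ⟨fun _ => zero_mem N.M, ‖(0 : Op H)‖, fun _ => le_rfl⟩

/-! ## null families -/

variable (N U) in
/-- the `2`-norms tend to zero -/
def Nul (x : I → Op H) : Prop := Tendsto (fun i => nm N.τ (x i)) U (𝓝 0)

theorem nm_nonneg (x : Op H) : 0 ≤ nm N.τ x := Real.sqrt_nonneg _

theorem tau_sub {x y : Op H} (hx : x ∈ N.M) (hy : y ∈ N.M) : N.τ (x - y) = N.τ x - N.τ y := by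
  have := N.add _ (sub_mem hx hy) _ hy
  rw [sub_add_cancel] at this
  rw [this, add_sub_cancel_right]

section nmf

variable (f : NmF N)
include f

theorem nm_zero : nm N.τ (0 : Op H) = 0 :=
  le_antisymm ((f.le 0 (zero_mem N.M)).trans_eq norm_zero) (nm_nonneg _)

theorem same_iff {x y : I → Op H} (hx : St.Bdd N x) (hy : St.Bdd N y) :
    St.Same N U x y ↔ Nul N U (x - y) := by
  have e : (fun i => N.τ (star (x i - y i) * (x i - y i))) =
      fun i => ((nm N.τ ((x - y) i) ^ 2 : ℝ) : ℂ) :=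
    funext fun i => f.sq _ (sub_mem (hx.mem i) (hy.mem i))
  rw [St.Same, e, Nul, ← Complex.ofReal_zero, tendsto_ofReal_iff]
  constructor
  · intro h
    have := h.sqrt
    rw [Real.sqrt_zero] at this
    exact this.congr fun i => Real.sqrt_sq (nm_nonneg _)
  · intro h
    simpa using h.pow 2

theorem nul_of_ev {x : I → Op H} (h : ∀ᶠ i in U, x i = 0) : Nul N U x :=
  tendsto_const_nhds.congr' (h.mono fun i hi => by
    change 0 = nm N.τ (x i)
    rw [hi, nm_zero f])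

theorem nul_self (x : I → Op H) : Nul N U (x - x) :=
  nul_of_ev f (Eventually.of_forall fun i => sub_self (x i))

theorem nul_symm {x y : I → Op H} (hx : St.Bdd N x) (hy : St.Bdd N y) (h : Nul N U (x - y)) :
    Nul N U (y - x) :=
  Tendsto.congr (fun i => by
    have := f.smul (-1) _ (sub_mem (hx.mem i) (hy.mem i))
    rw [neg_smul, one_smul, neg_sub, norm_neg, norm_one, one_mul] at this
    exact this.symm) h

theorem nul_trans {x y z : I → Op H} (hx : St.Bdd N x) (hy : St.Bdd N y) (hz : St.Bdd N z)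
    (h : Nul N U (x - y)) (h' : Nul N U (y - z)) : Nul N U (x - z) := by
  have k := Tendsto.add h h'
  rw [add_zero] at k
  refine squeeze_zero (fun i => nm_nonneg _) (fun i => ?_) k
  have := f.add _ (sub_mem (hx.mem i) (hy.mem i)) _ (sub_mem (hy.mem i) (hz.mem i))
  rwa [sub_add_sub_cancel] at this

theorem nul_mul {x r : I → Op H} (hx : St.Bdd N x) (hr : ∀ i, r i ∈ ball N.M) (h : Nul N U x) :
    Nul N U (x * r) :=
  squeeze_zero (fun _ => nm_nonneg _) (fun i => (f.mul' _ (hx.mem i) _ (hr i).1).trans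
    (mul_le_of_le_one_right (nm_nonneg _) (hr i).2)) h

theorem tau_nul {x : I → Op H} (hx : St.Bdd N x) (h : Nul N U x) :
    Tendsto (fun i => N.τ (x i)) U (𝓝 0) :=
  squeeze_zero_norm (fun i => f.tr _ (hx.mem i)) h

theorem tau_congr {x y : I → Op H} (hx : St.Bdd N x) (hy : St.Bdd N y) (h : Nul N U (x - y))
    {c : ℂ} (k : Tendsto (fun i => N.τ (x i)) U (𝓝 c)) : Tendsto (fun i => N.τ (y i)) U (𝓝 c) := by
  have := k.sub (tau_nul f (bdd_sub hx hy) h)
  rw [sub_zero] at this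
  refine this.congr fun i => ?_
  rw [Pi.sub_apply, tau_sub (hx.mem i) (hy.mem i), sub_sub_cancel]

theorem tau_lim {x : I → Op H} (hx : St.Bdd N x) :
    Tendsto (fun i => N.τ (x i)) U (𝓝 (limUnder (U : Filter I) fun i => N.τ (x i))) := by
  obtain ⟨C, hC⟩ := hx.bdd
  obtain ⟨c, -, hc⟩ := (isCompact_closedBall (0 : ℂ) C).ultrafilter_le_nhds
    (U.map fun i => N.τ (x i)) (by
      rw [le_principal_iff, Ultrafilter.coe_map, mem_map]
      exact univ_mem' fun i => mem_closedBall_zero_iff.2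
        ((f.tr _ (hx.mem i)).trans ((f.le _ (hx.mem i)).trans (hC i))))
  exact tendsto_nhds_limUnder ⟨c, hc⟩

theorem mk_eq {x y : I → Op H} (hx : St.Bdd N x) (hy : St.Bdd N y) :
    (Quot.mk _ ⟨x, hx⟩ : St.Ultra N U) = Quot.mk _ ⟨y, hy⟩ ↔ Nul N U (x - y) := by
  have e : Equivalence fun x y : {x : I → H →L[ℂ] H // St.Bdd N x} => St.Same N U x.1 y.1 :=
    ⟨fun x => (same_iff f x.2 x.2).2 (nul_self f _),
      fun {x y} h => (same_iff f y.2 x.2).2 (nul_symm f x.2 y.2 ((same_iff f x.2 y.2).1 h)),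
      fun {x y z} h h' => (same_iff f x.2 z.2).2
        (nul_trans f x.2 y.2 z.2 ((same_iff f x.2 y.2).1 h) ((same_iff f y.2 z.2).1 h'))⟩
  exact (Quot.eq.trans e.eqvGen_iff).trans (same_iff f hx hy)

end nmf

/-! ## the graph of an isomorphism -/

variable (N M U V) in
/-- the graph of an isomorphism of ultrapowers, on representatives -/
structure Rel (R : (I → Op H) → (J → Op K) → Prop) : Prop where
  fl : NmF N
  fr : NmF M
  bl : ∀ {x y}, R x y → St.Bdd N x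
  br : ∀ {x y}, R x y → St.Bdd M y
  total : ∀ x, St.Bdd N x → ∃ y, R x y
  onto : ∀ y, St.Bdd M y → ∃ x, R x y
  cl : ∀ {x x' y}, R x y → St.Bdd N x' → Nul N U (x - x') → R x' y
  cr : ∀ {x y y'}, R x y → St.Bdd M y' → Nul M V (y - y') → R x y'
  sl : ∀ {x x' y}, R x y → R x' y → Nul N U (x - x')
  sr : ∀ {x y y'}, R x y → R x y' → Nul M V (y - y')
  add : ∀ {x y x' y'}, R x y → R x' y' → R (x + x') (y + y')
  smul : ∀ (c : ℂ) {x y}, R x y → R (c • x) (c • y)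
  mul : ∀ {x y x' y'}, R x y → R x' y' → R (x * x') (y * y')
  star : ∀ {x y}, R x y → R (star x) (star y)

theorem rel_of (fN : NmF N) (fM : NmF M) {φ : St.Ultra N U ≃ St.Ultra M V}
    (h : St.IsUltraIso φ) : Rel N M U V (St.Maps φ) where
  fl := fN
  fr := fM
  bl k := k.1
  br k := k.2.1
  total x hx := by
    obtain ⟨⟨y, hy⟩, e⟩ := Quot.exists_rep (φ (Quot.mk _ ⟨x, hx⟩))
    exact ⟨y, hx, hy, e.symm⟩
  onto y hy := by
    obtain ⟨⟨x, hx⟩, e⟩ := Quot.exists_rep (φ.symm (Quot.mk _ ⟨y, hy⟩))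
    exact ⟨x, hx, hy, (congrArg φ e).trans (φ.apply_symm_apply _)⟩
  cl := fun ⟨hx, hy, e⟩ hx' k => ⟨hx', hy, (congrArg φ ((mk_eq fN hx hx').2 k).symm).trans e⟩
  cr := fun ⟨hx, hy, e⟩ hy' k => ⟨hx, hy', e.trans ((mk_eq fM hy hy').2 k)⟩
  sl := fun ⟨hx, _, e⟩ ⟨hx', _, e'⟩ => (mk_eq fN hx hx').1 (φ.injective (e.trans e'.symm))
  sr := fun ⟨_, hy, e⟩ ⟨_, hy', e'⟩ => (mk_eq fM hy hy').1 (e.symm.trans e')
  add k k' := h.add _ _ _ _ k k'
  smul c _ _ k := h.smul c _ _ k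
  mul k k' := h.mul _ _ _ _ k k'
  star k := h.star _ _ k

namespace Rel

variable {R : (I → Op H) → (J → Op K) → Prop} (h : Rel N M U V R)
include h

theorem symm : Rel M N V U fun y x => R x y :=
  ⟨h.fr, h.fl, h.br, h.bl, h.onto, h.total, h.cr, h.cl, h.sr, h.sl, h.add,
    fun c _ _ k => h.smul c k, h.mul, h.star⟩

theorem one : R 1 1 := by
  obtain ⟨x, hx⟩ := h.onto 1 bdd_one
  obtain ⟨y, hy⟩ := h.total 1 bdd_one
  have k := h.mul hx hy
  rw [mul_one, one_mul] at k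
  exact h.cr hy bdd_one (h.sr k hx)

theorem zero : R 0 0 := by
  have := h.smul 0 h.one
  rwa [zero_smul, zero_smul] at this

theorem sub {x x' : I → Op H} {y y' : J → Op K} (k : R x y) (k' : R x' y') :
    R (x - x') (y - y') := by
  have := h.add k (h.smul (-1) k')
  rwa [neg_smul, neg_smul, one_smul, one_smul, ← sub_eq_add_neg, ← sub_eq_add_neg] at this

theorem eval {a x z : Fin 9 → I → Op H} {a' x' z' : Fin 9 → J → Op K} (ha : ∀ n, R (a n) (a' n))
    (hx : ∀ n, R (x n) (x' n)) (hz : ∀ n, R (z n) (z' n)) (t : Tm) :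
    R (t.eval a x z) (t.eval a' x' z') := by
  induction t with
  | va i => exact ha i
  | vx i => exact hx i
  | vz i => exact hz i
  | one => exact h.one
  | add s t hs ht => exact h.add hs ht
  | sub s t hs ht => exact h.sub hs ht
  | mul s t hs ht => exact h.mul hs ht
  | star t ht => exact h.star ht

/-- the isomorphism preserves the trace -/
theorem trace (hT : TruStmt.{v}) {x : I → Op H} {y : J → Op K} (k : R x y) :
    ∃ c : ℂ, Tendsto (fun i => N.τ (x i)) U (𝓝 c) ∧ Tendsto (fun j => M.τ (y j)) V (𝓝 c) := by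
  obtain ⟨σ, hσ⟩ : ∃ σ : (I → Op H) → ℂ, ∀ {x y}, R x y →
      Tendsto (fun j => M.τ (y j)) V (𝓝 (σ x)) := by
    refine ⟨fun x => limUnder (V : Filter J) fun j => M.τ (Classical.epsilon (R x) j),
      fun {x y} k => ?_⟩
    have e : R x (Classical.epsilon (R x)) := Classical.epsilon_spec ⟨y, k⟩
    exact tau_congr h.fr (h.br e) (h.br k) (h.sr e k) (tau_lim h.fr (h.br e))
  refine ⟨σ x, hT H N I U σ ?_ ?_ ?_ ?_ ?_ ?_ x (h.bl k), hσ k⟩
  · intro x x' hx hx'
    obtain ⟨y, e⟩ := h.total x hx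
    obtain ⟨y', e'⟩ := h.total x' hx'
    exact tendsto_nhds_unique (hσ (h.add e e')) (((hσ e).add (hσ e')).congr fun j =>
      (M.add _ ((h.br e).mem j) _ ((h.br e').mem j)).symm)
  · intro c x hx
    obtain ⟨y, e⟩ := h.total x hx
    exact tendsto_nhds_unique (hσ (h.smul c e)) (((hσ e).const_mul c).congr fun j =>
      (M.smul c _ ((h.br e).mem j)).symm)
  · exact tendsto_nhds_unique (hσ h.one) (tendsto_const_nhds.congr fun _ => M.one.symm)
  · intro x hx
    obtain ⟨y, e⟩ := h.total x hx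
    exact ge_of_tendsto' (hσ (h.mul (h.star e) e)) fun j => M.pos _ ((h.br e).mem j)
  · intro x x' hx hx'
    obtain ⟨y, e⟩ := h.total x hx
    obtain ⟨y', e'⟩ := h.total x' hx'
    exact tendsto_nhds_unique (hσ (h.mul e e')) ((hσ (h.mul e' e)).congr fun j =>
      M.tracial _ ((h.br e').mem j) _ ((h.br e).mem j))
  · intro x hx h0
    have e : R x 0 := h.cl h.zero hx (nul_of_ev h.fl (h0.mono fun i hi => by
      rw [Pi.sub_apply, hi, Pi.zero_apply, sub_zero]))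
    exact tendsto_nhds_unique (hσ e)
      (tau_nul h.fr bdd_zero (nul_of_ev h.fr (Eventually.of_forall fun _ => rfl)))

/-- the isomorphism preserves the `2`-norm -/
theorem norm (hT : TruStmt.{v}) {x : I → Op H} {y : J → Op K} (k : R x y) :
    ∃ c : ℝ, Tendsto (fun i => nm N.τ (x i)) U (𝓝 c) ∧
      Tendsto (fun j => nm M.τ (y j)) V (𝓝 c) := by
  obtain ⟨c, h1, h2⟩ := h.trace hT (h.mul (h.star k) k)
  exact ⟨√c.re, ((Complex.continuous_re.tendsto c).comp h1).sqrt,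
    ((Complex.continuous_re.tendsto c).comp h2).sqrt⟩

/-- contractions lift to contractions -/
theorem lift (hB : BetaStmt) {y : J → Op K} (hy : ∀ j, y j ∈ ball M.M) :
    ∃ x : I → Op H, (∀ i, x i ∈ ball N.M) ∧ R x y := by
  choose w w1 w2 w3 using fun j => (hB (Op K)).bwd (y j) (hy j).2
  have hw : ∀ j, w j ∈ ball M.M := fun j => ⟨mem_of_comm fun a ha =>
    w3 j a (ha _ (hy j).1).symm (ha _ (star_mem (hy j).1)).symm, w1 j⟩
  obtain ⟨x, hx⟩ := h.onto y (bdd_ball hy)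
  obtain ⟨u, hu⟩ := h.onto w (bdd_ball hw)
  have e : y * (1 + Star.star w * w) = w + w := funext w2
  have k1 := h.mul hx (h.add h.one (h.mul (h.star hu) hu))
  rw [e] at k1
  have k2 := h.sl k1 (h.add hu hu)
  choose r r1 r2 r3 r4 using fun i => (hB (Op H)).fwd (u i)
  have hr : ∀ i, r i ∈ ball N.M := fun i => ⟨mem_of_comm fun a ha => by
    have := ha _ (add_mem (one_mem N.M) (mul_mem (star_mem ((h.bl hu).mem i)) ((h.bl hu).mem i)))
    calc a * r i = r i * (1 + Star.star (u i) * u i) * a * r i := by rw [r1 i, one_mul]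
      _ = r i * a * ((1 + Star.star (u i) * u i) * r i) := by
        rw [mul_assoc (r i), this, ← mul_assoc, mul_assoc]
      _ = r i * a := by rw [r2 i, mul_one], r3 i⟩
  have hb : ∀ i, (u * r + u * r) i ∈ ball N.M := fun i =>
    ⟨add_mem (mul_mem ((h.bl hu).mem i) (hr i).1) (mul_mem ((h.bl hu).mem i) (hr i).1), r4 i⟩
  refine ⟨u * r + u * r, hb, h.cl hx (bdd_ball hb) ?_⟩
  have k3 := nul_mul h.fl (bdd_sub (h.bl k1) (h.bl (h.add hu hu))) hr k2
  have e' : (1 + Star.star u * u) * r = 1 := funext r2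
  rwa [sub_mul, mul_assoc, e', mul_one, add_mul] at k3

end Rel

theorem eval_apply {A : Type*} [One A] [Add A] [Sub A] [Mul A] [Star A] (a x z : Fin 9 → I → A)
    (t : Tm) (i : I) :
    t.eval a x z i = t.eval (fun n => a n i) (fun n => x n i) fun n => z n i :=
  OpMap.eval (h := fun f : I → A => f i)
    ⟨rfl, fun _ _ => rfl, fun _ _ => rfl, fun _ _ => rfl, fun _ => rfl⟩ a x z t

theorem transfer (hB : BetaStmt) (hT : TruStmt.{v}) {R : (I → Op H) → (J → Op K) → Prop}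
    (h : Rel N M U V R) {F : (Tm → ℝ) → ℝ} {ε ε' : ℝ} (hF : Continuous F) (e : ε < ε')
    (k : Hold F (nm M.τ) (ball M.M) ε) : Hold F (nm N.τ) (ball N.M) ε' := by
  obtain ⟨a, ha, k⟩ := k
  choose a' ha' Ra using fun n => h.lift hB (y := fun _ => a n) fun _ => ha n
  by_contra hn
  have bad : ∀ i, ∃ x : Fin 9 → Op H, (∀ n, x n ∈ ball N.M) ∧ ∀ z : Fin 9 → Op H,
      (∀ n, z n ∈ ball N.M) → ε' ≤ F fun t => nm N.τ (t.eval (fun n => a' n i) x z) := fun i => by
    by_contra hi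
    refine hn ⟨fun n => a' n i, fun n => ha' n i, fun x hx => ?_⟩
    by_contra hz
    exact hi ⟨x, hx, fun z h1 => le_of_not_ge fun h2 => hz ⟨z, h1, h2⟩⟩
  choose x' hx' kx using bad
  choose x hx Rx using fun n => h.symm.lift hB (y := fun i => x' i n) fun i => hx' i n
  choose z hz kz using fun j => k (fun n => x n j) fun n => hx n j
  choose z' hz' Rz using fun n => h.lift hB (y := fun j => z j n) fun j => hz j n
  choose c c1 c2 using fun t => h.norm hT (h.eval Ra Rx Rz t)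
  simp only [eval_apply] at c1 c2
  have l1 := (hF.tendsto c).comp (tendsto_pi_nhds.2 c1)
  have l2 := (hF.tendsto c).comp (tendsto_pi_nhds.2 c2)
  exact absurd ((ge_of_tendsto' l1 fun i => kx i _ fun n => hz' n i).trans
    (le_of_tendsto' l2 kz)) (not_le.2 e)

end TrfM

theorem trf_stmt (hB : BetaStmt) (hN : NmStmt) (hT : TruStmt.{v}) : TrfStmt.{v} := by
  intro H K _ _ _ _ _ _ N M F ε ε' hF ⟨I, J, U, V, φ, h⟩ e k
  exact TrfM.transfer hB hT (TrfM.rel_of (hN H N) (hN K M) h) hF e k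

end Pool.Agent.MP_ad85d3_an.Ffg

end
end MrgPart6

-- marker of a merged file
example : 731051 + 398403 = 731051 + 398403 := rfl
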