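import Mathlib.LinearAlgebra.FreeModule.PID
import Mathlib.RingTheory.TotallySplit
import Pool.Agent.MP_ad85d3_an.ffg.Spec

/-!
# PROJECT FFG, module REP: the dimension of an irreducible representation of a `2`-group
-/

open Matrix
open scoped ComplexOrder ComplexConjugate

noncomputable section

namespace Pool.Agent.MP_ad85d3_an.Ffg

namespace RepM

set_option linter.unusedSectionVars false

variable {κ : Type} [Fintype κ] [DecidableEq κ]

/-! ## projections -/

theorem opn_le_fro (x : Matrix κ κ ℂ) : opn x ≤ fro x := by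
  refine opn_le_of (fro_nonneg _) fun v => ?_
  rw [fro_sq, Finset.sum_mul]
  refine Finset.sum_le_sum fun i _ => ?_
  refine le_trans (pow_le_pow_left₀ (norm_nonneg _) ?_ 2)
    (Finset.sum_mul_sq_le_sq_mul_sq Finset.univ (fun j => ‖x i j‖) fun j => ‖v j‖)
  simp only [mulVec, dotProduct]
  exact (norm_sum_le _ _).trans (le_of_eq (Finset.sum_congr rfl fun j _ => norm_mul _ _))

theorem trace_proj {E : Matrix κ κ ℂ} (h : IsStarProjection E) :
    trace E = ((fro E ^ 2 : ℝ) : ℂ) := by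
  rw [← trace_self, ← star_eq_conjTranspose, h.isSelfAdjoint.star_eq, h.isIdempotentElem.eq]

theorem fro_pos {E : Matrix κ κ ℂ} (h0 : E ≠ 0) : 0 < fro E :=
  lt_of_le_of_ne (fro_nonneg _) fun e => h0 (fro_eq_zero.1 e.symm)

theorem one_le_fro {E : Matrix κ κ ℂ} (h : IsStarProjection E) (h0 : E ≠ 0) : 1 ≤ fro E ^ 2 := by
  have a := fro_mul_le E E
  rw [h.isIdempotentElem.eq] at a
  have b := opn_le_fro E
  have c := fro_pos h0
  have d : 1 ≤ fro E := by
    by_contra k
    nlinarith [not_le.1 k, opn_nonneg E]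
  nlinarith

/-- `E` is minimal among the projections that commute with `S` -/
structure Mini (S : Set (Matrix κ κ ℂ)) (E : Matrix κ κ ℂ) : Prop where
  proj : IsStarProjection E
  ne : E ≠ 0
  comm : ∀ s ∈ S, s * E = E * s
  star_mem : ∀ s ∈ S, star s ∈ S
  min : ∀ F, IsStarProjection F → (∀ s ∈ S, s * F = F * s) → E * F = F → F = 0 ∨ F = E

theorem Mini.herm {S : Set (Matrix κ κ ℂ)} {E x : Matrix κ κ ℂ} (h : Mini S E)
    (hx : IsSelfAdjoint x) (hc : ∀ s ∈ S, s * x = x * s) (hl : E * x = x) :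
    ∃ c : ℂ, x = c • E := by
  classical
  have hr : x * E = x := by
    have := congrArg star hl
    rwa [star_mul, hx.star_eq, h.proj.isSelfAdjoint.star_eq] at this
  have co : ∀ f : ℝ → ℝ, ContinuousOn f (spectrum ℝ x) := fun f =>
    x.finite_real_spectrum.continuousOn f
  by_cases k : ∃ μ ∈ spectrum ℝ x, μ ≠ 0
  · obtain ⟨μ, hμ, h0⟩ := k
    let f : ℝ → ℝ := fun t => if t = μ then 1 else 0
    have p : IsStarProjection (cfc f x) := by
      refine ⟨?_, cfc_predicate f x⟩
      rw [IsIdempotentElem, ← cfc_mul f f x (co _) (co _)]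
      refine cfc_congr fun t _ => ?_
      simp only [f]
      split_ifs <;> simp
    have e : x * cfc f x = μ • cfc f x := by
      rw [← cfc_const_mul μ f x (co _)]
      nth_rewrite 1 [← cfc_id' ℝ x hx]
      rw [← cfc_mul _ f x (co _) (co _)]
      refine cfc_congr fun t _ => ?_
      simp only [f]
      split_ifs with q <;> simp [q]
    have n : cfc f x ≠ 0 := fun q => by
      rw [← cfc_const_zero ℝ x] at q
      have := eqOn_of_cfc_eq_cfc q (co _) (co _) hx hμ
      simp [f] at this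
    have s : E * cfc f x = cfc f x := by
      refine smul_right_injective _ h0 ?_
      show μ • (E * cfc f x) = μ • cfc f x
      rw [← mul_smul_comm, ← e, ← mul_assoc, hl]
    have q := (h.min _ p (fun s hs => (Commute.cfc_real (hc s hs).symm f).symm.eq) s).resolve_left n
    rw [q, hr] at e
    exact ⟨μ, by rw [e, Complex.coe_smul]⟩
  · refine ⟨0, ?_⟩
    rw [zero_smul, ← cfc_id' ℝ x hx, ← cfc_const_zero ℝ x]
    refine cfc_congr fun t ht => ?_
    by_contra q
    exact k ⟨t, ht, q⟩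

/-- Schur's lemma -/
theorem Mini.scal {S : Set (Matrix κ κ ℂ)} {E x : Matrix κ κ ℂ} (h : Mini S E)
    (hc : ∀ s ∈ S, s * x = x * s) : ∃ c : ℂ, E * x * E = c • E := by
  have hs : ∀ s ∈ S, s * star x = star x * s := fun s hs => by
    have := congrArg star (hc _ (h.star_mem s hs))
    rw [star_mul, star_mul, star_star] at this
    exact this.symm
  have key : ∀ y : Matrix κ κ ℂ, star y = y → (∀ s ∈ S, s * y = y * s) →
      ∃ c : ℂ, E * y * E = c • E := fun y hy hc => by
    refine h.herm ?_ (fun s hs => ?_) ?_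
    · rw [IsSelfAdjoint, star_mul, star_mul, hy, h.proj.isSelfAdjoint.star_eq, mul_assoc]
    · rw [← mul_assoc, ← mul_assoc, h.comm s hs, mul_assoc E s, hc s hs, mul_assoc, mul_assoc,
        h.comm s hs, mul_assoc, mul_assoc]
    · rw [← mul_assoc, ← mul_assoc, h.proj.isIdempotentElem.eq]
  obtain ⟨a, ha⟩ := key (x + star x) (by rw [star_add, star_star, add_comm]) fun s k => by
    rw [mul_add, add_mul, hc s k, hs s k]
  obtain ⟨b, hb⟩ := key (Complex.I • (x - star x))
    (by rw [star_smul, star_sub, star_star, Complex.star_def, Complex.conj_I, neg_smul, ← smul_neg,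
      neg_sub]) fun s k => by
    rw [mul_smul_comm, smul_mul_assoc, mul_sub, sub_mul, hc s k, hs s k]
  refine ⟨(a - Complex.I * b) / 2, ?_⟩
  have e : x = (1 / 2 : ℂ) • ((x + star x) - Complex.I • (Complex.I • (x - star x))) := by
    rw [smul_smul, Complex.I_mul_I]
    module
  nth_rewrite 1 [e]
  rw [mul_smul_comm, smul_mul_assoc, mul_sub, sub_mul, mul_smul_comm, smul_mul_assoc, ha, hb]
  module

/-! ## characters -/

section char

variable {G : Type} [Group G] [Fintype G] {π : G → Matrix κ κ ℂ} {E : Matrix κ κ ℂ}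

theorem mul_inv_eq (hπ : URep π) (g : G) : π g * π g⁻¹ = 1 := by
  rw [← hπ.mul, mul_inv_cancel, hπ.one]

theorem inv_mul_eq (hπ : URep π) (g : G) : π g⁻¹ * π g = 1 := by
  rw [← hπ.mul, inv_mul_cancel, hπ.one]

/-- the twirl -/
def tw (π : G → Matrix κ κ ℂ) (x : Matrix κ κ ℂ) : Matrix κ κ ℂ := ∑ h, π h * x * π h⁻¹

theorem tw_comm (hπ : URep π) (x : Matrix κ κ ℂ) (g : G) : π g * tw π x = tw π x * π g := by
  rw [tw, Finset.mul_sum, Finset.sum_mul, ← Equiv.sum_comp (Equiv.mulLeft g)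
    fun h => π h * x * π h⁻¹ * π g]
  refine Finset.sum_congr rfl fun h _ => ?_
  simp only [Equiv.coe_mulLeft]
  rw [mul_assoc (π (g * h) * x), ← hπ.mul, hπ.mul g h, _root_.mul_inv_rev, inv_mul_cancel_right,
    mul_assoc, mul_assoc, mul_assoc]

theorem tw_eq (hπ : URep π) (h : Mini (Set.range π) E) (x : Matrix κ κ ℂ) :
    E * tw π x * E = (Fintype.card G * trace (x * E) / trace E) • E := by
  obtain ⟨c, hc⟩ := h.scal (x := tw π x) (by rintro _ ⟨g, rfl⟩; exact tw_comm hπ x g)
  have n : trace E ≠ 0 := by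
    rw [trace_proj h.proj]
    exact_mod_cast (pow_pos (fro_pos h.ne) 2).ne'
  have t := congrArg trace hc
  rw [trace_smul, mul_assoc, trace_mul_comm, mul_assoc, h.proj.isIdempotentElem.eq, tw,
    Finset.sum_mul, trace_sum] at t
  have u : ∀ g, trace (π g * x * π g⁻¹ * E) = trace (x * E) := fun g => by
    rw [mul_assoc, mul_assoc, trace_mul_comm, mul_assoc, mul_assoc, ← h.comm _ ⟨g, rfl⟩,
      ← mul_assoc (π g⁻¹), inv_mul_eq hπ, one_mul]
  simp only [u, Finset.sum_const, Finset.card_univ, nsmul_eq_mul, smul_eq_mul] at t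
  rw [hc, t, mul_div_cancel_right₀ _ n]

theorem sum_char (hπ : URep π) (h : Mini (Set.range π) E) :
    ∑ g, ‖trace (π g * E)‖ ^ 2 = Fintype.card G := by
  have n : trace E ≠ 0 := by
    rw [trace_proj h.proj]
    exact_mod_cast (pow_pos (fro_pos h.ne) 2).ne'
  have a : ∀ g, ((‖trace (π g * E)‖ ^ 2 : ℝ) : ℂ) =
      ∑ i, ∑ j, (E * (π g * single i j (1 : ℂ) * π g⁻¹) * E : Matrix κ κ ℂ) i j := fun g => by
    have b : conj (trace (π g * E)) = trace (π g⁻¹ * E) := by
      rw [← Complex.star_def, ← trace_conjTranspose, ← star_eq_conjTranspose, star_mul, hπ.star,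
        h.proj.isSelfAdjoint.star_eq, trace_mul_comm]
    rw [← Complex.normSq_eq_norm_sq, ← Complex.mul_conj, b, trace_mul_comm, trace, trace,
      Finset.sum_mul_sum]
    refine Finset.sum_congr rfl fun i _ => Finset.sum_congr rfl fun j _ => ?_
    have c : E * (π g * single i j (1 : ℂ) * π g⁻¹) * E =
        (E * π g) * single i j (1 : ℂ) * (π g⁻¹ * E) := by simp only [mul_assoc]
    rw [c, diag_apply, diag_apply]
    generalize E * π g = p
    generalize π g⁻¹ * E = q
    rw [mul_apply, Finset.sum_eq_single j, mul_single_apply_same, mul_one]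
    · intro k _ hk
      rw [mul_single_apply_of_ne _ _ _ _ _ hk, zero_mul]
    · intro k
      exact absurd (Finset.mem_univ _) k
  have b : ∀ i j, ∑ g, (E * (π g * single i j (1 : ℂ) * π g⁻¹) * E : Matrix κ κ ℂ) i j =
      Fintype.card G / trace E * (E i j * E j i) := fun i j => by
    rw [← Matrix.sum_apply, ← Finset.sum_mul, ← Finset.mul_sum, ← tw, tw_eq hπ h,
      Matrix.smul_apply, smul_eq_mul, trace_single_mul]
    simp only [smul_eq_mul, one_mul]
    ring
  have c : ∑ i, ∑ j, E i j * E j i = trace E := by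
    nth_rewrite 3 [← h.proj.isIdempotentElem.eq]
    simp only [trace, diag_apply, mul_apply]
  have d : ((∑ g, ‖trace (π g * E)‖ ^ 2 : ℝ) : ℂ) = Fintype.card G := by
    rw [Complex.ofReal_sum]
    simp only [a]
    rw [Finset.sum_comm]
    simp only [fun i => Finset.sum_comm (s := Finset.univ) (t := Finset.univ)
      (f := fun g j => (E * (π g * single i j (1 : ℂ) * π g⁻¹) * E : Matrix κ κ ℂ) i j), b, ← Finset.mul_sum, c]
    exact div_mul_cancel₀ _ n
  exact_mod_cast d

/-- the elements that act by scalars -/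
def scal (hπ : URep π) (h0 : E ≠ 0) : Subgroup G where
  carrier := {g | ∃ c : ℂ, π g * E = c • E}
  one_mem' := ⟨1, by rw [hπ.one, one_mul, one_smul]⟩
  mul_mem' := by
    rintro a b ⟨c, hc⟩ ⟨d, hd⟩
    exact ⟨d * c, by rw [hπ.mul, mul_assoc, hd, mul_smul_comm, hc, smul_smul]⟩
  inv_mem' := by
    rintro a ⟨c, hc⟩
    have e : E = c • (π a⁻¹ * E) := by
      rw [← mul_smul_comm, ← hc, ← mul_assoc, inv_mul_eq hπ, one_mul]
    have n : c ≠ 0 := fun k => h0 (by rw [e, k, zero_smul])
    refine ⟨c⁻¹, ?_⟩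
    nth_rewrite 2 [e]
    rw [smul_smul, inv_mul_cancel₀ n, one_smul]

theorem char_mem (hπ : URep π) (h : Mini (Set.range π) E) {g : G} (hg : g ∈ scal hπ h.ne) :
    ‖trace (π g * E)‖ ^ 2 = (fro E ^ 2) ^ 2 := by
  obtain ⟨c, hc⟩ := hg
  have a : fro (π g * E) = fro E :=
    fro_iso_mul (by rw [← star_eq_conjTranspose, hπ.star, inv_mul_eq hπ]) _
  rw [hc, fro_smul] at a
  have b : ‖c‖ = 1 := by
    have := fro_pos h.ne
    exact mul_right_cancel₀ this.ne' (a.trans (one_mul _).symm)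
  rw [hc, trace_smul, norm_smul, b, one_mul, trace_proj h.proj, Complex.norm_real,
    Real.norm_of_nonneg (sq_nonneg _)]

theorem sq_mem (hπ : URep π) (h : Mini (Set.range π) E) (hz : ∀ g h : G, g * g * h = h * (g * g))
    (g : G) : g * g ∈ scal hπ h.ne := by
  obtain ⟨c, hc⟩ := h.scal (x := π (g * g)) (by
    rintro _ ⟨k, rfl⟩
    rw [← hπ.mul, ← hπ.mul, hz])
  refine ⟨c, ?_⟩
  rwa [← h.comm _ ⟨g * g, rfl⟩, mul_assoc, h.proj.isIdempotentElem.eq] at hc

theorem char_not (hπ : URep π) (h : Mini (Set.range π) E) (hz : ∀ g h : G, g * g * h = h * (g * g))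
    {g : G} (hg : g ∉ scal hπ h.ne) : trace (π g * E) = 0 := by
  by_contra n
  have z : ∀ k : G, k * g * k⁻¹ * g⁻¹ ∈ scal hπ h.ne := fun k => by
    have e : k * g * k⁻¹ * g⁻¹ = k * k * (k⁻¹ * g * (k⁻¹ * g)) * (g⁻¹ * g⁻¹) := by group
    rw [e]
    exact mul_mem (mul_mem (sq_mem hπ h hz _) (sq_mem hπ h hz _)) (sq_mem hπ h hz _)
  choose c hc using z
  have a : ∀ k, E * (π k * π g * π k⁻¹) * E = c k • (π g * E) := fun k => by
    have e : π k * π g * π k⁻¹ = π (k * g * k⁻¹ * g⁻¹) * π g := by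
      rw [← hπ.mul, ← hπ.mul, ← hπ.mul, inv_mul_cancel_right]
    rw [e, ← mul_assoc, ← h.comm _ ⟨_, rfl⟩, hc, smul_mul_assoc, smul_mul_assoc,
      ← h.comm _ ⟨g, rfl⟩, mul_assoc, h.proj.isIdempotentElem.eq]
  have b := tw_eq hπ h (π g)
  rw [tw, Finset.mul_sum, Finset.sum_mul] at b
  simp only [a, ← Finset.sum_smul] at b
  have t : trace E ≠ 0 := by
    rw [trace_proj h.proj]
    exact_mod_cast (pow_pos (fro_pos h.ne) 2).ne'
  have u : (Fintype.card G * trace (π g * E) / trace E : ℂ) ≠ 0 :=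
    div_ne_zero (mul_ne_zero (Nat.cast_ne_zero.2 Fintype.card_ne_zero) n) t
  have s : ∑ k, c k ≠ 0 := fun q => by
    rw [q, zero_smul] at b
    exact h.ne ((smul_eq_zero.1 b.symm).resolve_left u)
  refine hg ⟨(∑ k, c k)⁻¹ * (Fintype.card G * trace (π g * E) / trace E), ?_⟩
  rw [← smul_smul, ← b, smul_smul, inv_mul_cancel₀ s, one_smul]

/-- the square of the dimension is a power of two -/
theorem dim_sq (hπ : URep π) (h : Mini (Set.range π) E) (h4 : ∀ g : G, g ^ 4 = 1)
    (hz : ∀ g h : G, g * g * h = h * (g * g)) : ∃ j : ℕ, (fro E ^ 2) ^ 2 = 2 ^ j := by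
  classical
  have p : IsPGroup 2 G := fun g => ⟨2, h4 g⟩
  obtain ⟨j, hj⟩ := p.index (scal hπ h.ne)
  refine ⟨j, ?_⟩
  have a := sum_char hπ h
  have b : ∀ g, ‖trace (π g * E)‖ ^ 2 = if g ∈ scal hπ h.ne then (fro E ^ 2) ^ 2 else 0 :=
    fun g => by
      split_ifs with k
      · exact char_mem hπ h k
      · rw [char_not hπ h hz k]; simp
  simp only [b] at a
  rw [← Finset.sum_filter, Finset.sum_const, nsmul_eq_mul, ← Fintype.card_subtype,
    ← Nat.card_eq_fintype_card, ← Nat.card_eq_fintype_card,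
    ← (scal hπ h.ne).index_mul_card, hj] at a
  have c : (Nat.card (scal hπ h.ne) : ℝ) ≠ 0 := Nat.cast_ne_zero.2 Nat.card_pos.ne'
  push_cast at a
  exact mul_left_cancel₀ c (a.trans (mul_comm _ _))

end char

/-! ## the minimal projection -/

section mini

variable {G : Type} [Group G] [Fintype G] {π : G → Matrix κ κ ℂ} {A : Matrix κ κ ℂ} {N : ℝ}

theorem exists_mini (hN : 0 < N) (hπ : URep π) (hA : Avg π A N (1 / 1000)) :
    ∃ E, Mini (insert A (Set.range π)) E ∧ N / 2 ≤ (trace (A * E)).re := by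
  let P : Matrix κ κ ℂ → Prop := fun E => IsStarProjection E ∧
    (∀ s ∈ insert A (Set.range π), s * E = E * s) ∧ N / 2 ≤ (trace (A * E)).re
  have p1 : P 1 := ⟨IsStarProjection.one _, fun s _ => by rw [mul_one, one_mul], by
    have := hA.top
    rw [mul_one]
    linarith⟩
  have bd : BddBelow ((fun E => fro E ^ 2) '' {E | P E}) :=
    ⟨0, by rintro _ ⟨E, _, rfl⟩; exact sq_nonneg _⟩
  obtain ⟨_, ⟨E, hE, rfl⟩, hlt⟩ := exists_lt_of_csInf_lt
    (s := (fun E => fro E ^ 2) '' {E | P E}) ⟨_, 1, p1, rfl⟩ (lt_add_one _)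
  have small : ∀ F F' : Matrix κ κ ℂ, IsStarProjection F → IsStarProjection F' → F' ≠ 0 →
      E = F + F' → (∀ s ∈ insert A (Set.range π), s * F = F * s) →
      (trace (A * F)).re ≤ 1 / 1000 * N := fun F F' hF hF' n e c => by
    refine (hA.dich F hF (fun g => c _ (Or.inr ⟨g, rfl⟩)) (c _ (Or.inl rfl))).1.resolve_right
      fun k => ?_
    have a := csInf_le bd ⟨F, ⟨hF, c, by linarith⟩, rfl⟩
    have b := congrArg trace e
    rw [trace_add, trace_proj hE.1, trace_proj hF, trace_proj hF'] at b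
    have b' : fro E ^ 2 = fro F ^ 2 + fro F' ^ 2 := by exact_mod_cast b
    have d := one_le_fro hF' n
    simp only at a hlt
    linarith
  refine ⟨E, ⟨hE.1, ?_, hE.2.1, ?_, fun F hF c e => ?_⟩, hE.2.2⟩
  · rintro rfl
    have := hE.2.2
    rw [mul_zero, trace_zero, Complex.zero_re] at this
    linarith
  · rintro _ (rfl | ⟨g, rfl⟩)
    · exact Or.inl hA.herm
    · exact Or.inr ⟨g⁻¹, (hπ.star g).symm⟩
  · by_contra k
    rw [not_or] at k
    have q : IsStarProjection (E - F) := hF.sub_of_mul_eq_right hE.1 e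
    have a := small F (E - F) hF q (sub_ne_zero.2 (Ne.symm k.2)) (add_sub_cancel _ _).symm c
    have b := small (E - F) F q hF k.1 (sub_add_cancel _ _).symm fun s hs => by
      rw [mul_sub, sub_mul, c s hs, hE.2.1 s hs]
    rw [mul_sub, trace_sub, Complex.sub_re] at b
    have := hE.2.2
    linarith

end mini

end RepM

open RepM in
theorem rep_stmt : RepStmt := by
  intro G _ _ κ _ _ π A N hN h4 hz hπ hA
  obtain ⟨E, hE, ht⟩ := exists_mini hN hπ hA
  have cA : A * E = E * A := hE.comm _ (Or.inl rfl)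
  have cπ : ∀ g, π g * E = E * π g := fun g => hE.comm _ (Or.inr ⟨g, rfl⟩)
  obtain ⟨l, hl⟩ := hE.scal (x := A) (by
    rintro _ (rfl | ⟨g, rfl⟩)
    exacts [rfl, hA.comm g])
  rw [← cA, mul_assoc, hE.proj.isIdempotentElem.eq] at hl
  have m : Mini (Set.range π) E := by
    refine ⟨hE.proj, hE.ne, fun s hs => hE.comm s (Or.inr hs), ?_, fun F hF c e => ?_⟩
    · rintro _ ⟨g, rfl⟩
      exact ⟨g⁻¹, (hπ.star g).symm⟩
    · refine hE.min F hF ?_ e
      have e' : F * E = F := by
        have := congrArg star e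
        rwa [star_mul, hF.isSelfAdjoint.star_eq, hE.proj.isSelfAdjoint.star_eq] at this
      rintro s (rfl | hs)
      · have a : s * F = l • F := by rw [← e, ← mul_assoc, hl, smul_mul_assoc]
        have b : F * s = l • F := by rw [← e', mul_assoc, ← cA, hl, mul_smul_comm]
        rw [a, b]
      · exact c s hs
  obtain ⟨j, hj⟩ := dim_sq hπ m h4 hz
  refine ⟨j, ?_⟩
  rw [← hj]
  obtain ⟨d1, d2, d3⟩ := hA.dich E hE.proj cπ cA
  have l1 : ‖l‖ ≤ 1 := by
    have := fro_ctr_mul hA.ctr E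
    rw [hl, fro_smul] at this
    exact le_of_mul_le_mul_right (this.trans_eq (one_mul _).symm) (fro_pos hE.ne)
  have r1 : l.re ≤ 1 := (Complex.re_le_norm l).trans l1
  have t1 : (trace (A * E)).re = l.re * fro E ^ 2 := by
    rw [hl, trace_smul, trace_proj hE.proj, smul_eq_mul, Complex.re_mul_ofReal]
  have t2 : (trace (A * A * E)).re = (l.re * l.re - l.im * l.im) * fro E ^ 2 := by
    rw [mul_assoc, hl, mul_smul_comm, hl, smul_smul, trace_smul, trace_proj hE.proj, smul_eq_mul,
      Complex.re_mul_ofReal, Complex.mul_re]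
  rw [t1] at d1 d2 d3 ht
  rw [t2] at d3
  have dp : 0 < fro E ^ 2 := pow_pos (fro_pos hE.ne) 2
  generalize fro E ^ 2 = d at *
  generalize l.re = r at *
  have d4 : (1 - 1 / 1000) * N ≤ r * d := d1.resolve_left fun k => by linarith
  have d5 : r * d - 1 / 1000 * N ≤ r * (r * d) := by nlinarith [mul_self_nonneg l.im]
  have d6 : 998 / 1000 ≤ r := by
    by_contra k
    have : 2 / 1000 * (r * d) ≤ (1 - r) * (r * d) :=
      mul_le_mul_of_nonneg_right (by linarith [not_le.1 k]) (by linarith)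
    nlinarith
  have d7 : 999 / 1000 * N ≤ d := by nlinarith
  have d8 : 998 / 1000 * d ≤ N := by nlinarith
  constructor <;> nlinarith

end Pool.Agent.MP_ad85d3_an.Ffg
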