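import Pool.Agent.MP_ad85d3_an.ffg.Spec
import Pool.Agent.MP_ad85d3_an.TrA

/-!
PROJECT FFG, modules TOOLS and FAC
-/

open Filter Topology
open scoped ComplexOrder InnerProductSpace ComplexConjugate

noncomputable section

namespace Pool.Agent.MP_ad85d3_an.Ffg

namespace Tools

section beta

variable {A : Type} [CStarAlgebra A] [PartialOrder A] [StarOrderedRing A]

theorem norm_le_one {x : A} (h : 0 ≤ 1 - star x * x) : ‖x‖ ≤ 1 := by
  have := (CStarAlgebra.norm_le_one_iff_of_nonneg _ (star_mul_self_nonneg x)).2 (sub_nonneg.1 h)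
  rw [CStarRing.norm_star_mul_self] at this
  nlinarith [norm_nonneg x]

theorem fwd (y : A) : ∃ r : A, r * (1 + star y * y) = 1 ∧ (1 + star y * y) * r = 1 ∧ ‖r‖ ≤ 1 ∧
    ‖y * r + y * r‖ ≤ 1 := by
  obtain ⟨u, hu⟩ : IsUnit (1 + star y * y) :=
    CStarAlgebra.isUnit_of_le 1 (le_add_of_nonneg_right (star_mul_self_nonneg y))
  obtain ⟨r, h1, h2⟩ : ∃ r : A, r * (1 + star y * y) = 1 ∧ (1 + star y * y) * r = 1 :=
    ⟨↑u⁻¹, hu ▸ u.inv_mul, hu ▸ u.mul_inv⟩
  have h3 : star r * (1 + star y * y) = 1 := by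
    simpa only [star_mul, star_add, star_one, star_star] using congrArg star h2
  have e : (1 : A) = star r * (1 + star y * y) * ((1 + star y * y) * r) := by rw [h3, h2, mul_one]
  refine ⟨r, h1, h2, norm_le_one ?_, norm_le_one ?_⟩
  · have : 1 - star r * r = star (star y * y * r) * (star y * y * r) +
        (star (y * r) * (y * r) + star (y * r) * (y * r)) := by
      rw [e]; simp only [star_mul, star_star]; noncomm_ring
    rw [this]
    exact add_nonneg (star_mul_self_nonneg _)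
      (add_nonneg (star_mul_self_nonneg _) (star_mul_self_nonneg _))
  · have : 1 - star (y * r + y * r) * (y * r + y * r) =
        star (r - star y * y * r) * (r - star y * y * r) := by
      rw [e]; simp only [star_mul, star_star, star_add, star_sub]; noncomm_ring
    rw [this]
    exact star_mul_self_nonneg _

theorem bwd (x : A) (hx : ‖x‖ ≤ 1) : ∃ y : A, ‖y‖ ≤ 1 ∧ x * (1 + star y * y) = y + y ∧
    ∀ a : A, a * x = x * a → a * star x = star x * a → a * y = y * a := by
  have h0 : 0 ≤ 1 - star x * x := sub_nonneg.2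
    ((CStarAlgebra.norm_le_one_iff_of_nonneg _ (star_mul_self_nonneg x)).1 (by
      rw [CStarRing.norm_star_mul_self]; exact mul_le_one₀ hx (norm_nonneg _) hx))
  obtain ⟨s, s0, ss, sc⟩ : ∃ s : A, 0 ≤ s ∧ s * s = 1 - star x * x ∧
      ∀ a, Commute (1 - star x * x) a → Commute s a :=
    ⟨CFC.sqrt _, CFC.sqrt_nonneg _, CFC.sqrt_mul_sqrt_self _ h0,
      fun a h => h.cfcₙ_nnreal NNReal.sqrt⟩
  obtain ⟨w, hw⟩ := CStarAlgebra.nonneg_iff_eq_star_mul_self.1 s0
  obtain ⟨q, h1, h2, h3, -⟩ := fwd w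
  rw [← hw] at h1 h2
  have h4 : star q * (1 + s) = 1 := by
    simpa only [star_mul, star_add, star_one, s0.isSelfAdjoint.star_eq] using congrArg star h2
  have h5 : star q = q := by rw [← mul_one (star q), ← h2, ← mul_assoc, h4, one_mul]
  have e : star x * x = (1 + s) * (1 - s) := by
    rw [← sub_sub_cancel 1 (star x * x), ← ss]; noncomm_ring
  refine ⟨x * q, (norm_mul_le _ _).trans (mul_le_one₀ hx (norm_nonneg _) h3), ?_,
    fun a a1 a2 => ?_⟩
  · have : 1 + star (x * q) * (x * q) = q + q := by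
      rw [star_mul, h5, mul_assoc, ← mul_assoc (star x), e, mul_assoc, ← mul_assoc q, h1, one_mul]
      nth_rewrite 1 [← h2]
      noncomm_ring
    rw [this, mul_add]
  · have c : Commute (1 + s) a := (Commute.one_left a).add_left
      (sc a ((Commute.one_left a).sub_left (Commute.mul_left a2.symm a1.symm)))
    have : a * q = q * a := by
      rw [← one_mul (a * q), ← h1, mul_assoc q, ← mul_assoc (1 + s), c.eq, mul_assoc a, h2, mul_one]
    rw [← mul_assoc, a1, mul_assoc, this, mul_assoc]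

end beta

section nm

variable {H : Type} [NormedAddCommGroup H] [InnerProductSpace ℂ H] [CompleteSpace H]

theorem nmF (N : St.TwoOne H) : NmF N := by
  let _ := CStarAlgebra.spectralOrder N.M.toStarSubalgebra
  have _ := CStarAlgebra.spectralOrderedRing N.M.toStarSubalgebra
  let f : N.M.toStarSubalgebra →ₚ[ℂ] ℂ := PositiveLinearMap.mk₀ (Br.lin N) fun x hx => by
    obtain ⟨y, rfl⟩ := CStarAlgebra.nonneg_iff_eq_star_mul_self.1 hx
    exact N.pos _ y.2
  have e : ∀ x (hx : x ∈ N.M), nm N.τ x = ‖f.toPreGNS ⟨x, hx⟩‖ := fun _ _ => rfl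
  have sq : ∀ x ∈ N.M, N.τ (star x * x) = ((nm N.τ x ^ 2 : ℝ) : ℂ) := fun x hx => by
    have := Complex.nonneg_iff.1 (N.pos x hx)
    rw [nm, Real.sq_sqrt this.1]
    exact Complex.ext rfl this.2.symm
  have o : nm N.τ 1 = 1 := by rw [nm, star_one, mul_one, N.one, Complex.one_re, Real.sqrt_one]
  have st : ∀ x ∈ N.M, nm N.τ (star x) = nm N.τ x := fun x hx => by
    rw [nm, nm, star_star, N.tracial _ hx _ (star_mem hx)]
  have mu : ∀ x ∈ N.M, ∀ y ∈ N.M, nm N.τ (x * y) ≤ ‖x‖ * nm N.τ y := fun x hx y hy =>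
    ((f.leftMulMapPreGNS ⟨x, hx⟩).le_opNorm (f.toPreGNS ⟨y, hy⟩)).trans
      (mul_le_mul_of_nonneg_right (LinearMap.mkContinuous_norm_le _ (norm_nonneg _) _)
        (norm_nonneg _))
  refine ⟨fun x hx h0 => ?_, sq, fun x hx => ?_, fun x hx => ?_, fun x hx y hy => ?_,
    fun c x hx => ?_, st, mu, fun x hx y hy => ?_⟩
  · obtain ⟨s, hs, rfl⟩ := TrA.exists_sqrt hx h0
    exact N.pos s hs
  · have := norm_inner_le_norm (𝕜 := ℂ) (f.toPreGNS ⟨1, one_mem N.M⟩) (f.toPreGNS ⟨x, hx⟩)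
    rw [← e, ← e, o, one_mul] at this
    refine le_of_eq_of_le (congrArg (fun z => ‖N.τ z‖) ?_) this
    exact ((congrArg (· * x) (star_one _)).trans (one_mul x)).symm
  · simpa only [mul_one, o] using mu x hx 1 (one_mem _)
  · rw [e x hx, e y hy, e _ (add_mem hx hy)]
    exact norm_add_le (f.toPreGNS ⟨x, hx⟩) (f.toPreGNS ⟨y, hy⟩)
  · rw [e x hx, e _ (smul_mem_vn c hx)]
    exact norm_smul c (f.toPreGNS ⟨x, hx⟩)
  · rw [← st _ (mul_mem hx hy), star_mul, ← st x hx, ← norm_star y, mul_comm]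
    exact mu _ (star_mem hy) _ (star_mem hx)

end nm

section fac

variable {H : Type} [NormedAddCommGroup H] [InnerProductSpace ℂ H] [CompleteSpace H]

theorem lev_le (P : VonNeumannAlgebra H) (e : Fin 3 → Fin 3 → Op H) : lev P e ≤ P :=
  fun _ hx => (mem_rel.1 hx).1

/-- a factor is recognised by its central projections -/
theorem fac_of_proj {M : VonNeumannAlgebra H} {τ : Op H →ₗ[ℂ] ℂ} (hτ : IsTr M τ)
    (h : ∀ e, Pj M e → (∀ x ∈ M, e * x = x * e) → e = 0 ∨ e = 1) : Fac M := by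
  have sa : ∀ z ∈ M, star z = z → (∀ x ∈ M, z * x = x * z) → ∃ c : ℂ, z = c • (1 : Op H) :=
    fun z hz hs hc => by
      have hr : τ z = ((τ z).re : ℂ) := Complex.ext rfl (TrA.tr_real hτ hz hs)
      set y := z - τ z • (1 : Op H) with hy
      have ym : y ∈ M := sub_mem hz (smul_mem_vn _ (one_mem M))
      have ys : IsSelfAdjoint y := by
        rw [IsSelfAdjoint, hy, star_sub, hs, star_smul, star_one, hr]; simp
      have yt : τ y = 0 := by rw [hy, map_sub, map_smul, hτ.one, smul_eq_mul, mul_one, sub_self]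
      have yc : ∀ a, a * z = z * a → a * y = y * a := fun a ha => by
        rw [hy, mul_sub, sub_mul, ha, mul_smul_comm, smul_mul_assoc, mul_one, one_mul]
      obtain ⟨e, he, ec, e1, e2, -⟩ := (genA_stmt H).cut y ys
      refine ⟨τ z, sub_eq_zero.1 ?_⟩
      rcases h e ⟨mem_of_comm fun a ha => ec a (ha y ym).symm, he⟩
        (fun x hx => (ec x (yc x (hc x hx).symm)).symm) with rfl | rfl
      · rw [sub_zero, one_mul] at e2
        exact neg_eq_zero.1 (TrA.tr_eq_zero hτ (neg_mem ym) (neg_nonneg.2 e2)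
          (by rw [map_neg, yt, neg_zero]))
      · rw [one_mul] at e1
        exact TrA.tr_eq_zero hτ ym e1 yt
  intro z hz hc
  have hc' : ∀ x ∈ M, star z * x = x * star z := fun x hx =>
    (comm_star (fun m hm => (hc m hm).symm) x hx).symm
  obtain ⟨a, ha⟩ := sa (z + star z) (add_mem hz (star_mem hz)) (by rw [star_add, star_star, add_comm])
    fun x hx => by rw [add_mul, mul_add, hc x hx, hc' x hx]
  obtain ⟨b, hb⟩ := sa (Complex.I • (z - star z)) (smul_mem_vn _ (sub_mem hz (star_mem hz)))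
    (by rw [star_smul, star_sub, star_star, Complex.star_def, Complex.conj_I, neg_smul, ← smul_neg,
      neg_sub])
    fun x hx => by rw [smul_mul_assoc, mul_smul_comm, sub_mul, mul_sub, hc x hx, hc' x hx]
  refine ⟨(1 / 2 : ℂ) * (a - Complex.I * b), ?_⟩
  rw [mul_smul, sub_smul, mul_smul, ← ha, ← hb, smul_smul, Complex.I_mul_I]
  module

theorem fac_up {Q : VonNeumannAlgebra H} {e : Fin 3 → Fin 3 → Op H} (he : MU e)
    (hQ : ∀ i j, e i j ∈ Q) (h : Fac (lev Q e)) : Fac Q := fun z hz hc =>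
  h z ((mem_lev he).2 ⟨hz, fun i j => (hc _ (hQ i j)).symm⟩) fun x hx => hc x (lev_le Q e hx)

theorem inf_dim {Ω : H} {M : VonNeumannAlgebra H} {s : ℕ → Op H} (hs : ∀ n, s n ∈ M)
    (h : Orthonormal ℂ fun n => s n Ω) : ¬ FiniteDimensional ℂ M.toStarSubalgebra := fun _ => by
  let ev : M.toStarSubalgebra →ₗ[ℂ] H :=
    { toFun := fun x => x.1 Ω, map_add' := fun _ _ => rfl, map_smul' := fun _ _ => rfl }
  have : LinearIndependent ℂ fun n => (⟨s n, hs n⟩ : M.toStarSubalgebra) :=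
    LinearIndependent.of_comp ev h.linearIndependent
  exact Module.Finite.not_linearIndependent_of_infinite _ this

/-- the factor given by a vector trace -/
def mk {Ω : H} {M : VonNeumannAlgebra H} (hτ : IsTr M (vec Ω)) (hF : Fac M)
    (hI : ¬ FiniteDimensional ℂ M.toStarSubalgebra) : St.TwoOne H where
  M := M
  τ := vec Ω
  add x _ y _ := map_add _ x y
  smul c x _ := map_smul (vec Ω) c x
  one := hτ.one
  pos := hτ.pos
  faithful := hτ.faith
  tracial := hτ.comm
  normal := hτ.normal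
  factor := hF
  infinite := hI

theorem central {Ω : H} {J : H ≃ₗᵢ⋆[ℂ] H} {P M : VonNeumannAlgebra H} (h : Std Ω J P) (hM : M ≤ P)
    {C : ℝ} (good : ∀ ε : ℝ, 0 < ε → Hold (Frm C) (fun x => ‖x Ω‖) (ball M) ε) {e : Op H}
    (he : Pj M e) (hc : ∀ x ∈ M, e * x = x * e) : e = 0 ∨ e = 1 := by
  have : min ‖e Ω‖ ‖(1 - e) Ω‖ ≤ 0 := le_of_forall_pos_le_add fun ε hε => by
    obtain ⟨c, hc', k⟩ := hold_iff.1 (good ε hε)
    have b : e ∈ ball M := ⟨he.1, he.2.norm_le⟩
    obtain ⟨w, t, -, ht, k⟩ := k (fun _ => e) (fun _ => e) e (fun _ => b) (fun _ => b) b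
    have j : ∀ {a x : Op H}, a ∈ M → x ∈ M → cj a x ∈ M := fun ha hx =>
      mul_mem (mul_mem ha hx) (star_mem ha)
    have m : ev c t ∈ M := mul_mem (mul_mem (mul_mem (ht 0).1
      (j (mul_mem (mul_mem (hc' 8).1 (hc' 6).1) (hc' 8).1) (ht 1).1)) (j (hc' 8).1 (ht 2).1))
      (j (mul_mem (hc' 6).1 (hc' 8).1) (ht 3).1)
    have := k.irr
    rw [com, hc _ m, sub_self, he.star_eq, he.mul_self, sub_self] at this
    simpa using this
  rcases min_le_iff.1 this with k | k
  · exact Or.inl (h.sep (hM he.1) (zero_mem P) (norm_le_zero_iff.1 k))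
  · exact Or.inr (sub_eq_zero.1 (h.sep (sub_mem (one_mem P) (hM he.1)) (zero_mem P)
      (norm_le_zero_iff.1 k))).symm

end fac

end Tools

theorem beta_stmt : BetaStmt := fun A _ =>
  let _ := CStarAlgebra.spectralOrder A
  have _ := CStarAlgebra.spectralOrderedRing A
  ⟨Tools.fwd, Tools.bwd⟩

theorem nm_stmt : NmStmt := fun _ _ _ _ => Tools.nmF

theorem fac_stmt : FacStmt := by
  intro H _ _ _ C η m
  have l3 := Tools.lev_le m.P m.f
  have l0 := Tools.lev_le (lev m.P m.f) m.g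
  have t9 := m.std.isTr
  have t3 := t9.mono l3
  have t0 := t3.mono l0
  have f0 := Tools.fac_of_proj t0 fun e he hc => Tools.central m.std (l0.trans l3) m.good he hc
  have f3 := Tools.fac_up m.hg m.gP f0
  have f9 := Tools.fac_up m.hf m.fP f3
  have e : nm (vec m.Ω) = fun x => ‖x m.Ω‖ := funext (nm_vec m.Ω)
  exact ⟨Tools.mk t0 f0 (Tools.inf_dim m.hs m.orth),
    Tools.mk t3 f3 (Tools.inf_dim (fun n => l0 (m.hs n)) m.orth),
    Tools.mk t9 f9 (Tools.inf_dim (fun n => l3 (l0 (m.hs n))) m.orth), m.f, m.g,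
    ⟨m.hg, m.gP, fun _ => mem_lev m.hg, fun _ _ => rfl⟩,
    ⟨m.hf, m.fP, fun _ => mem_lev m.hf, fun _ _ => rfl⟩,
    fun ε hε => e ▸ m.good ε hε, e ▸ m.bad⟩

end Pool.Agent.MP_ad85d3_an.Ffg
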